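import Mathlib

open MvPolynomial

namespace PCFib

noncomputable section

/-! ### Polynomial maps (auxiliary algebra) -/

/-- Polynomial self-maps of affine `N`-space with coefficients in `R`. -/
abbrev PMap (N : ℕ) (R : Type*) [CommRing R] := Fin N → MvPolynomial (Fin N) R

/-- The composition `f ∘ g`. -/
def comp {N : ℕ} {R : Type*} [CommRing R] (f g : PMap N R) : PMap N R := fun i => bind₁ g (f i)

/-- The iterates `f ∘ ... ∘ f`. -/
def iter {N : ℕ} {R : Type*} [CommRing R] (f : PMap N R) : ℕ → PMap N R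
  | 0 => X
  | n + 1 => comp f (iter f n)

/-- The Jacobian matrix. -/
def jacM {N : ℕ} {R : Type*} [CommRing R] (f : PMap N R) :
    Matrix (Fin N) (Fin N) (MvPolynomial (Fin N) R) := Matrix.of fun i j => pderiv j (f i)

/-- The Jacobian determinant. -/
def jac {N : ℕ} {R : Type*} [CommRing R] (f : PMap N R) : MvPolynomial (Fin N) R := (jacM f).det

/-- Change of coefficients. -/
def mapc {N : ℕ} {R S : Type*} [CommRing R] [CommRing S] (φ : R →+* S) (f : PMap N R) : PMap N S :=
  fun i => MvPolynomial.map φ (f i)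

/-- `scale c P` is the polynomial `P(c w)`. -/
def scale {N : ℕ} {R : Type*} [CommRing R] (c : R) (P : MvPolynomial (Fin N) R) :
    MvPolynomial (Fin N) R := bind₁ (fun i => C c * X i) P

/-- Every variable has a power in the ideal generated by the coordinates of `g`. -/
def Reg {N : ℕ} {R : Type*} [CommRing R] (g : PMap N R) : Prop :=
  ∃ M : ℕ, ∀ j, (X j : MvPolynomial (Fin N) R) ^ M ∈ Ideal.span (Set.range g)

/-- `g` is homogeneous of degree `d`, and `f` is `g` plus terms of degree less than `d`. -/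
def HasTop {N : ℕ} {R : Type*} [CommRing R] (d : ℕ) (f g : PMap N R) : Prop :=
  ∀ i, (g i).IsHomogeneous d ∧ (f i - g i).totalDegree < d

/-- Algebraic form of postcritical finiteness: one nonzero polynomial vanishes (scheme-theoretically)
on all the forward images of the critical hypersurface. -/
def PC {N : ℕ} {R : Type*} [CommRing R] (f : PMap N R) : Prop :=
  ∃ δ : MvPolynomial (Fin N) R, δ ≠ 0 ∧ ∀ n : ℕ, 1 ≤ n → jac f ∣ bind₁ (iter f n) δ

/-- A family of linear functionals on polynomial maps, with coefficients `a` in `k`, evaluated on a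
polynomial map over a `k`-algebra (given by `φ`). -/
def Lam {N : ℕ} {k R : Type*} [CommRing k] [CommRing R]
    (a : Fin N → Fin N → (Fin N →₀ ℕ) → k) (φ : k →+* R) (f : PMap N R) (l : Fin N) : R :=
  ∑ i, ∑ α ∈ (f i).support, φ (a l i α) * coeff α (f i)

/-! ### The objects of the problem -/

/-- The self-map of `ℂ^N` given by a polynomial map. -/
def ev {N : ℕ} (f : PMap N ℂ) (z : Fin N → ℂ) : Fin N → ℂ := fun i => eval z (f i)

/-- Auxiliary: the affine postcritical set is contained in a hypersurface. -/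
def PCset {N : ℕ} (f : PMap N ℂ) : Prop :=
  ∃ δ : MvPolynomial (Fin N) ℂ, δ ≠ 0 ∧
    ∀ n : ℕ, 1 ≤ n → ∀ z : Fin N → ℂ, eval z (jac f) = 0 → eval ((ev f)^[n] z) δ = 0

/-- The homogeneous parts of degree `d` (the restriction to the hyperplane at infinity). -/
def topPart {N : ℕ} (d : ℕ) (f : PMap N ℂ) : PMap N ℂ := fun i => homogeneousComponent d (f i)

/-- Regular polynomial endomorphisms of degree `d` of affine `N`-space. -/
def IsRegularEndo {N : ℕ} (d : ℕ) (f : PMap N ℂ) : Prop :=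
  (∀ i, (f i).totalDegree ≤ d) ∧ ∀ z : Fin N → ℂ, ev (topPart d f) z = 0 → z = 0

/-- Homogeneous lifts of the degree `d` endomorphisms of `ℙ^(N-1)`. -/
def IsProjEndo {N : ℕ} (d : ℕ) (g : PMap N ℂ) : Prop :=
  (∀ i, (g i).IsHomogeneous d) ∧ ∀ z : Fin N → ℂ, ev g z = 0 → z = 0

/-- The homogenization of `f` (degree `d`): the homogeneous lift of the extension of `f` to `ℙ^N`;
the hyperplane at infinity is `x_0 = 0`. -/
def homog {N : ℕ} (d : ℕ) (f : PMap N ℂ) : PMap (N + 1) ℂ :=
  Fin.cons (X 0 ^ d) fun i => ∑ j ∈ Finset.range (d + 1),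
    X 0 ^ (d - j) * rename Fin.succ (homogeneousComponent j (f i))

/-- The cone over the postcritical set `⋃_{m ≥ 1} g^m (Crit g)` of the endomorphism of projective
space with homogeneous lift `G` (nonzero vectors only). -/
def postcritical {n : ℕ} (G : PMap n ℂ) : Set (Fin n → ℂ) :=
  {v | ∃ m : ℕ, 1 ≤ m ∧ ∃ u : Fin n → ℂ, u ≠ 0 ∧ eval u (jac G) = 0 ∧
    ∃ c : ℂ, c ≠ 0 ∧ v = c • (ev G)^[m] u}

/-- The set of points of projective space with cone `S` is an algebraic subvariety. -/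
def IsProjAlgebraic {n : ℕ} (S : Set (Fin n → ℂ)) : Prop :=
  ∃ I : Set (MvPolynomial (Fin n) ℂ), (∀ p ∈ I, ∃ k : ℕ, p.IsHomogeneous k) ∧
    ∀ v : Fin n → ℂ, v ≠ 0 → (v ∈ S ↔ ∀ p ∈ I, eval v p = 0)

/-- The extension of `f` to `ℙ^N` is postcritically finite. -/
def IsPCF {N : ℕ} (d : ℕ) (f : PMap N ℂ) : Prop := IsProjAlgebraic (postcritical (homog d f))

/-- Conjugacy by an affine automorphism of `ℂ^N`. -/
def AffConj {N : ℕ} (f₁ f₂ : PMap N ℂ) : Prop :=
  ∃ e : (Fin N → ℂ) ≃ᵃ[ℂ] (Fin N → ℂ), ∀ z, ev f₂ z = e.symm (ev f₁ (e z))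

/-- Two homogeneous lifts define endomorphisms of `ℙ^(N-1)` which are conjugate under `PGL_N`. -/
def ProjConj {N : ℕ} (g₁ g₂ : PMap N ℂ) : Prop :=
  ∃ (A : (Fin N → ℂ) ≃ₗ[ℂ] (Fin N → ℂ)) (c : ℂ), c ≠ 0 ∧ ∀ z, ev g₂ z = c • A.symm (ev g₁ (A z))

/-! ### Families -/

/-- The affine map `z ↦ A z + b` as a polynomial map. -/
def affMap {N : ℕ} {R : Type*} [CommRing R] (A : Matrix (Fin N) (Fin N) R) (b : Fin N → R) :
    PMap N R := fun i => ∑ l, C (A i l) * X l + C (b i)

/-- `f₁ ∘ (A z + b) = A f₂ + b` with `A` invertible (inverse `A'`). -/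
def PConj {N : ℕ} {R : Type*} [CommRing R] (f₁ f₂ : PMap N R) (A A' : Matrix (Fin N) (Fin N) R)
    (b : Fin N → R) : Prop :=
  A * A' = 1 ∧ comp f₁ (affMap A b) = comp (affMap A b) f₂

end

end PCFib
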