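import Pool.Agent.H641.PCF.Defs

open MvPolynomial

namespace PCFib



theorem affConj_symm {N : ℕ} (f₁ f₂ : PMap N ℂ) (h : AffConj f₁ f₂) : AffConj f₂ f₁ := by
  obtain ⟨e, he⟩ := h
  refine ⟨e.symm, fun z => ?_⟩
  rw [he (e.symm z), e.apply_symm_apply]
  exact (e.apply_symm_apply _).symm

end PCFib
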