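import Pool.Agent.H641.PCF.Defs

open MvPolynomial

namespace PCFib



theorem pca_lim {N d : ℕ} (p : MvPolynomial (Fin N) ℂ) (hp : p.totalDegree ≤ d)
    (z w : Fin N → ℂ) :
    Filter.Tendsto (fun s : ℂ => s ^ d * eval (fun i => s⁻¹ * z i + w i) p)
      (nhdsWithin 0 {0}ᶜ) (nhds (eval z (homogeneousComponent d p))) := by
  have hdeg : ∀ α ∈ p.support, α.degree ≤ d := by
    intro α hα
    exact (MvPolynomial.le_totalDegree hα).trans hp
  set Q : ℂ → ℂ := fun s => ∑ α ∈ p.support,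
    coeff α p * (s ^ (d - α.degree) * ∏ i, (z i + s * w i) ^ (α i)) with hQ
  have hQc : Continuous Q := by
    rw [hQ]
    refine continuous_finsetSum _ (fun α _ => ?_)
    refine continuous_const.mul ((continuous_pow _).mul ?_)
    refine continuous_finsetProd _ (fun i _ => ?_)
    exact (continuous_const.add (continuous_id.mul continuous_const)).pow _
  have hQ0 : Q 0 = eval z (homogeneousComponent d p) := by
    rw [homogeneousComponent_apply, map_sum, Finset.sum_filter]
    refine Finset.sum_congr rfl (fun α hα => ?_)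
    by_cases h : α.degree = d
    · rw [if_pos h, h, Nat.sub_self, pow_zero, eval_monomial, Finsupp.prod_fintype _ _ (by simp)]
      simp
    · have h2 : d - α.degree ≠ 0 := by
        have := hdeg α hα
        omega
      rw [if_neg h, zero_pow h2]
      ring
  have hQs : ∀ s : ℂ, s ≠ 0 → s ^ d * eval (fun i => s⁻¹ * z i + w i) p = Q s := by
    intro s hs
    rw [MvPolynomial.eval_eq', Finset.mul_sum]
    refine Finset.sum_congr rfl (fun α hα => ?_)
    have h1 : s ^ d = s ^ (d - α.degree) * ∏ i, s ^ (α i) := by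
      rw [Finset.prod_pow_eq_pow_sum, ← Finsupp.degree_eq_sum, ← pow_add,
        Nat.sub_add_cancel (hdeg α hα)]
    have h2 : (∏ i, s ^ (α i)) * ∏ i, (s⁻¹ * z i + w i) ^ (α i)
        = ∏ i, (z i + s * w i) ^ (α i) := by
      rw [← Finset.prod_mul_distrib]
      refine Finset.prod_congr rfl (fun i _ => ?_)
      rw [← mul_pow]
      congr 1
      field_simp
    rw [h1, ← h2]
    ring
  have h3 : Filter.Tendsto Q (nhdsWithin 0 {0}ᶜ) (nhds (Q 0)) :=
    (hQc.tendsto 0).mono_left nhdsWithin_le_nhds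
  rw [hQ0] at h3
  refine h3.congr' ?_
  filter_upwards [self_mem_nhdsWithin] with s hs
  exact (hQs s hs).symm

theorem projConj_of_affConj {N d : ℕ} (hd : 2 ≤ d) (f₁ f₂ : PMap N ℂ) (h₁ : IsRegularEndo d f₁)
    (h₂ : IsRegularEndo d f₂) (h : AffConj f₁ f₂) : ProjConj (topPart d f₁) (topPart d f₂) := by
  obtain ⟨e, he⟩ := h
  set A : (Fin N → ℂ) ≃ₗ[ℂ] (Fin N → ℂ) := e.linear with hA
  have hAe : ∀ x, e x = A x + e 0 := by
    intro x
    have := e.map_vadd 0 x
    simpa using this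
  have hid : ∀ x, A (ev f₂ x) + e 0 = ev f₁ (A x + e 0) := by
    intro x
    rw [← hAe, ← hAe, he x]
    simp
  refine ⟨A, 1, one_ne_zero, fun z => ?_⟩
  rw [one_smul, LinearEquiv.eq_symm_apply]
  have hAc : Continuous (A : (Fin N → ℂ) → (Fin N → ℂ)) :=
    (A : (Fin N → ℂ) →ₗ[ℂ] (Fin N → ℂ)).continuous_of_finiteDimensional
  -- limit of the left side
  have hl2 : Filter.Tendsto (fun s : ℂ => s ^ d • ev f₂ (s⁻¹ • z)) (nhdsWithin 0 {0}ᶜ)
      (nhds (ev (topPart d f₂) z)) := by
    rw [tendsto_pi_nhds]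
    intro i
    have h1 := pca_lim (f₂ i) (h₂.1 i) z 0
    refine h1.congr (fun s => ?_)
    simp only [Pi.smul_apply, smul_eq_mul, ev, Pi.zero_apply, add_zero]
    rfl
  have hl1 : Filter.Tendsto (fun s : ℂ => s ^ d • ev f₁ (s⁻¹ • A z + e 0)) (nhdsWithin 0 {0}ᶜ)
      (nhds (ev (topPart d f₁) (A z))) := by
    rw [tendsto_pi_nhds]
    intro i
    have h1 := pca_lim (f₁ i) (h₁.1 i) (A z) (e 0)
    exact h1
  have hb : Filter.Tendsto (fun s : ℂ => s ^ d • e 0) (nhdsWithin 0 {0}ᶜ) (nhds 0) := by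
    have h1 : Continuous (fun s : ℂ => s ^ d • e 0) := (continuous_pow d).smul continuous_const
    have h2 := h1.tendsto 0
    rw [zero_pow (by omega), zero_smul] at h2
    exact h2.mono_left nhdsWithin_le_nhds
  have hl3 := ((hAc.tendsto _).comp hl2).add hb
  rw [add_zero] at hl3
  refine tendsto_nhds_unique hl3 (hl1.congr (fun s => ?_))
  have h5 := hid (s⁻¹ • z)
  rw [map_smul] at h5
  show s ^ d • ev f₁ (s⁻¹ • A z + e 0) = A (s ^ d • ev f₂ (s⁻¹ • z)) + s ^ d • e 0
  rw [map_smul, ← h5, smul_add]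

end PCFib
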