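import Pool.Agent.H641.PCF.Defs

open MvPolynomial

namespace PCFib



theorem projConj_symm {N : ℕ} (g₁ g₂ : PMap N ℂ) {d : ℕ} (h₁ : IsProjEndo d g₁)
    (h₂ : IsProjEndo d g₂) (h : ProjConj g₁ g₂) : ProjConj g₂ g₁ := by
  obtain ⟨A, c, hc, hA⟩ := h
  refine ⟨A.symm, c⁻¹, inv_ne_zero hc, fun z => ?_⟩
  rw [hA (A.symm z)]
  simp only [LinearEquiv.symm_symm, LinearEquiv.apply_symm_apply, map_smul]
  rw [smul_smul, inv_mul_cancel₀ hc, one_smul]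

end PCFib
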