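import Pool.Agent.H641.PCF.Defs

open MvPolynomial

namespace PCFib



theorem projConj_trans {N : ℕ} (g₁ g₂ g₃ : PMap N ℂ) {d : ℕ} (h₁ : IsProjEndo d g₁)
    (h₂ : IsProjEndo d g₂) (h₃ : IsProjEndo d g₃) (h : ProjConj g₁ g₂) (h' : ProjConj g₂ g₃) :
    ProjConj g₁ g₃ := by
  obtain ⟨A, c, hc, hA⟩ := h
  obtain ⟨A', c', hc', hA'⟩ := h'
  refine ⟨A'.trans A, c' * c, mul_ne_zero hc' hc, fun z => ?_⟩
  rw [hA' z, hA (A' z), map_smul, smul_smul]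
  rfl

end PCFib
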