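import Pool.Agent.H641.PCF.P_affConj_trans
import Pool.Agent.H641.PCF.P_affConj_symm
import Pool.Agent.H641.PCF.P_projConj_trans
import Pool.Agent.H641.PCF.P_projConj_symm
import Pool.Agent.H641.PCF.P_projConj_of_affConj

open MvPolynomial

namespace PCFib

noncomputable section

/-- The regular polynomial endomorphisms of degree `d` of affine `N`-space. -/
def RegEndo (N d : ℕ) : Type := {f : PMap N ℂ // IsRegularEndo d f}

/-- The homogeneous lifts of the endomorphisms of degree `d` of `ℙ^(N-1)`. -/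
def ProjEndo (N d : ℕ) : Type := {g : PMap N ℂ // IsProjEndo d g}

lemma affConj_refl {N : ℕ} (f : PMap N ℂ) : AffConj f f :=
  ⟨AffineEquiv.refl ℂ _, fun _ => rfl⟩

lemma projConj_refl {N : ℕ} (g : PMap N ℂ) : ProjConj g g :=
  ⟨LinearEquiv.refl ℂ _, 1, one_ne_zero, fun z => by simp⟩

/-- Conjugacy by affine automorphisms of affine `N`-space. -/
def affSetoid (N d : ℕ) : Setoid (RegEndo N d) where
  r f₁ f₂ := AffConj f₁.1 f₂.1
  iseqv := ⟨fun f => affConj_refl f.1, fun h => affConj_symm _ _ h,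
    fun h h' => affConj_trans _ _ _ h h'⟩

/-- Equality of the induced endomorphisms of `ℙ^(N-1)` up to conjugacy under `PGL_N`. -/
def projSetoid (N d : ℕ) : Setoid (ProjEndo N d) where
  r g₁ g₂ := ProjConj g₁.1 g₂.1
  iseqv := ⟨fun g => projConj_refl g.1, fun {g₁ g₂} h => projConj_symm _ _ g₁.2 g₂.2 h,
    fun {g₁ g₂ g₃} h h' => projConj_trans _ _ _ g₁.2 g₂.2 g₃.2 h h'⟩

/-- The (complex points of the) moduli space `R_d^N`: regular polynomial endomorphisms of degree
`d` of `𝔸^N` up to conjugacy by affine automorphisms. -/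
def RSpace (N d : ℕ) : Type := Quotient (affSetoid N d)

/-- The (complex points of the) moduli space `M_d^{N-1}`: endomorphisms of degree `d` of
`ℙ^(N-1)` up to conjugacy by `PGL_N`. -/
def MSpace (N d : ℕ) : Type := Quotient (projSetoid N d)

/-- The class of a regular polynomial endomorphism in `R_d^N`. -/
def RSpace.mk {N d : ℕ} (f : PMap N ℂ) (hf : IsRegularEndo d f) : RSpace N d :=
  Quotient.mk (affSetoid N d) ⟨f, hf⟩

/-- The restriction to the hyperplane at infinity. -/
def restrict {N d : ℕ} (f : RegEndo N d) : ProjEndo N d :=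
  ⟨topPart d f.1, fun i => homogeneousComponent_isHomogeneous d (f.1 i), f.2.2⟩

/-- The map `π : R_d^N → M_d^{N-1}`, restriction to the hyperplane at infinity. -/
def atInfinity {N d : ℕ} (hd : 2 ≤ d) : RSpace N d → MSpace N d :=
  Quotient.map' (s₁ := affSetoid N d) (s₂ := projSetoid N d) restrict
    fun f₁ f₂ h => projConj_of_affConj hd f₁.1 f₂.1 f₁.2 f₂.2 h

/-- The PCF locus of `R_d^N`: the set of classes of postcritically finite maps. -/
def PCFLocus (N d : ℕ) : Set (RSpace N d) :=
  {x | ∃ (f : PMap N ℂ) (hf : IsRegularEndo d f), IsPCF d f ∧ RSpace.mk f hf = x}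

/-- `φ` is a morphism from the irreducible affine variety `C` with coordinate ring `B` to the moduli
space `R_d^N`: around every point of `C` it is given, after a dominant base change
`Spec B' → Spec B` through which the point lifts, by an algebraic family of regular polynomial
endomorphisms (a polynomial map with coefficients in `B'`). -/
def IsAlgebraicMap {N d : ℕ} (B : Type) [CommRing B] [Algebra ℂ B]
    (φ : (B →ₐ[ℂ] ℂ) → RSpace N d) : Prop :=
  ∀ c : B →ₐ[ℂ] ℂ, ∃ (B' : Type) (_ : CommRing B') (_ : IsDomain B') (_ : Algebra ℂ B')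
    (_ : Algebra.FiniteType ℂ B') (ψ : B →ₐ[ℂ] B') (f : PMap N B')
    (hf : ∀ c' : B' →ₐ[ℂ] ℂ, IsRegularEndo d (mapc (c' : B' →+* ℂ) f)),
    Function.Injective ψ ∧ (∃ c' : B' →ₐ[ℂ] ℂ, c'.comp ψ = c) ∧
    ∀ c' : B' →ₐ[ℂ] ℂ, φ (c'.comp ψ) = RSpace.mk (mapc (c' : B' →+* ℂ) f) (hf c')

end

end PCFib
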