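import Pool.Agent.H641.PCF.Defs

open MvPolynomial

namespace PCFib


/-- `p` has degree at most `n` with degree `n` part `q` -/
def TT {σ R : Type*} [CommRing R] (n : ℕ) (p q : MvPolynomial σ R) : Prop :=
  q.IsHomogeneous n ∧ ∀ s : σ →₀ ℕ, n ≤ s.degree → coeff s p = coeff s q

section TTsec
variable {σ R : Type*} [CommRing R]

theorem TT.mul {n m : ℕ} {p q p' q' : MvPolynomial σ R} (h : TT n p q) (h' : TT m p' q') :
    TT (n + m) (p * p') (q * q') := by
  classical
  refine ⟨h.1.mul h'.1, fun s hs => ?_⟩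
  rw [coeff_mul, coeff_mul]
  refine Finset.sum_congr rfl fun ab hab => ?_
  rw [Finset.HasAntidiagonal.mem_antidiagonal] at hab
  have hdeg : ab.1.degree + ab.2.degree = s.degree := by rw [← hab, map_add]
  rcases Nat.lt_or_ge ab.1.degree n with h1 | h1
  · have h2 : m < ab.2.degree := by omega
    rw [h'.2 _ h2.le, h'.1.coeff_eq_zero (by omega : ab.2.degree ≠ m), mul_zero, mul_zero]
  · rcases Nat.lt_or_ge ab.2.degree m with h2 | h2
    · have h3 : n < ab.1.degree := by omega
      rw [h.2 _ h3.le, h.1.coeff_eq_zero (by omega : ab.1.degree ≠ n), zero_mul, zero_mul]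
    · rw [h.2 _ h1, h'.2 _ h2]

theorem TT.zero (n : ℕ) : TT n (0 : MvPolynomial σ R) 0 :=
  ⟨isHomogeneous_zero _ _ _, fun _ _ => rfl⟩

theorem TT.one : TT 0 (1 : MvPolynomial σ R) 1 :=
  ⟨isHomogeneous_one _ _, fun _ _ => rfl⟩

theorem TT.add {n : ℕ} {p q p' q' : MvPolynomial σ R} (h : TT n p q) (h' : TT n p' q') :
    TT n (p + p') (q + q') :=
  ⟨h.1.add h'.1, fun s hs => by rw [coeff_add, coeff_add, h.2 s hs, h'.2 s hs]⟩

theorem TT.neg {n : ℕ} {p q : MvPolynomial σ R} (h : TT n p q) : TT n (-p) (-q) :=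
  ⟨h.1.neg, fun s hs => by rw [coeff_neg, coeff_neg, h.2 s hs]⟩

theorem TT.sum {ι : Type*} {n : ℕ} (S : Finset ι) {p q : ι → MvPolynomial σ R}
    (h : ∀ i ∈ S, TT n (p i) (q i)) : TT n (∑ i ∈ S, p i) (∑ i ∈ S, q i) := by
  classical
  induction S using Finset.induction_on with
  | empty => simpa using TT.zero n
  | insert a S ha ih =>
    rw [Finset.sum_insert ha, Finset.sum_insert ha]
    exact (h a (Finset.mem_insert_self _ _)).add (ih fun i hi => h i (Finset.mem_insert_of_mem hi))

theorem TT.prod {ι : Type*} {n : ℕ} (S : Finset ι) {p q : ι → MvPolynomial σ R}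
    (h : ∀ i ∈ S, TT n (p i) (q i)) : TT (S.card * n) (∏ i ∈ S, p i) (∏ i ∈ S, q i) := by
  classical
  induction S using Finset.induction_on with
  | empty => simpa using TT.one
  | insert a S ha ih =>
    rw [Finset.prod_insert ha, Finset.prod_insert ha, Finset.card_insert_of_notMem ha]
    have := (h a (Finset.mem_insert_self _ _)).mul (ih fun i hi => h i (Finset.mem_insert_of_mem hi))
    rwa [show n + S.card * n = (S.card + 1) * n by ring] at this

theorem TT.det {k n : ℕ} (M M' : Matrix (Fin k) (Fin k) (MvPolynomial σ R))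
    (h : ∀ i j, TT n (M i j) (M' i j)) : TT (k * n) M.det M'.det := by
  classical
  rw [Matrix.det_apply, Matrix.det_apply]
  refine TT.sum _ fun τ _ => ?_
  have hp := TT.prod (Finset.univ : Finset (Fin k)) (p := fun i => M (τ i) i)
    (q := fun i => M' (τ i) i) (n := n) fun i _ => h _ _
  rw [Finset.card_univ, Fintype.card_fin] at hp
  rcases Int.units_eq_one_or (Equiv.Perm.sign τ) with hs | hs
  · rw [hs, one_smul, one_smul]; exact hp
  · rw [hs, Units.neg_smul, one_smul, Units.neg_smul, one_smul]; exact hp.neg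

theorem TT.pderiv' {n : ℕ} (hn : 1 ≤ n) {p q : MvPolynomial σ R} (h : TT n p q) (j : σ) :
    TT (n - 1) (pderiv j p) (pderiv j q) := by
  refine ⟨h.1.pderiv, fun s hs => ?_⟩
  rw [coeff_pderiv, coeff_pderiv, h.2]
  rw [map_add, Finsupp.degree_single]
  omega

theorem TT.totalDegree_le {n : ℕ} {p q : MvPolynomial σ R} (h : TT n p q) :
    p.totalDegree ≤ n := by
  unfold totalDegree
  refine Finset.sup_le fun s hs => ?_
  by_contra hc
  push Not at hc
  have hc' : n < s.degree := hc
  rw [mem_support_iff, h.2 s hc'.le] at hs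
  exact hs (h.1.coeff_eq_zero (by omega))

theorem TT.homogeneousComponent_eq {n : ℕ} {p q : MvPolynomial σ R} (h : TT n p q) :
    homogeneousComponent n p = q := by
  classical
  ext s
  rw [coeff_homogeneousComponent]
  split_ifs with hs
  · exact h.2 s hs.ge
  · exact (h.1.coeff_eq_zero hs).symm

theorem HasTop.tt {N d : ℕ} {f g : PMap N R} (h : HasTop d f g) (i : Fin N) :
    TT d (f i) (g i) := by
  refine ⟨(h i).1, fun s hs => ?_⟩
  have h0 : coeff s (f i - g i) = 0 := by
    apply coeff_eq_zero_of_totalDegree_lt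
    exact lt_of_lt_of_le (h i).2 hs
  rw [coeff_sub] at h0
  exact sub_eq_zero.mp h0

end TTsec

theorem adj_deg {N d : ℕ} {κ : Type*} [Field κ] [CharZero κ] (hd : 1 ≤ d) (h g : PMap N κ)
    (ht : HasTop d h g) (j : Fin N) :
    (((jacM h).adjugate.mulVec h) j).totalDegree ≤ N * (d - 1) + 1 ∧
      C (d : κ) * homogeneousComponent (N * (d - 1) + 1) (((jacM h).adjugate.mulVec h) j)
        = jac g * X j := by
  obtain _ | n := N
  · exact j.elim0
  have hTT := fun i => HasTop.tt ht i
  have hadj : ∀ i k : Fin (n + 1), TT (n * (d - 1)) ((jacM h).adjugate i k) ((jacM g).adjugate i k) := by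
    intro i k
    rw [Matrix.adjugate_fin_succ_eq_det_submatrix, Matrix.adjugate_fin_succ_eq_det_submatrix]
    have hdet := TT.det ((jacM h).submatrix k.succAbove i.succAbove)
      ((jacM g).submatrix k.succAbove i.succAbove) (n := d - 1) (fun a b => by
        show TT (d - 1) (pderiv _ (h _)) (pderiv _ (g _))
        exact (hTT _).pderiv' hd _)
    rcases neg_one_pow_eq_or (MvPolynomial (Fin (n + 1)) κ) ((k : ℕ) + (i : ℕ)) with hs | hs
    · rw [hs, one_mul, one_mul]; exact hdet
    · rw [hs, neg_one_mul, neg_one_mul]; exact hdet.neg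
  have hmain : TT ((n + 1) * (d - 1) + 1) (((jacM h).adjugate.mulVec h) j)
      (((jacM g).adjugate.mulVec g) j) := by
    have hsum : TT (n * (d - 1) + d) (∑ i, (jacM h).adjugate j i * h i)
        (∑ i, (jacM g).adjugate j i * g i) :=
      TT.sum _ fun i _ => (hadj j i).mul (hTT i)
    have he : n * (d - 1) + d = (n + 1) * (d - 1) + 1 := by
      obtain ⟨e, rfl⟩ : ∃ e, d = e + 1 := ⟨d - 1, by omega⟩
      rw [Nat.add_sub_cancel]; ring
    rw [he] at hsum
    exact hsum
  refine ⟨hmain.totalDegree_le, ?_⟩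
  rw [hmain.homogeneousComponent_eq]
  have hE : (jacM g).mulVec (X : Fin (n + 1) → MvPolynomial (Fin (n + 1)) κ)
      = fun i => C (d : κ) * g i := by
    funext i
    have := (ht i).1.sum_X_mul_pderiv
    show ∑ k, pderiv k (g i) * X k = C (d : κ) * g i
    rw [map_natCast, ← nsmul_eq_mul, ← this]
    exact Finset.sum_congr rfl fun k _ => mul_comm _ _
  have h1 : (jacM g).adjugate.mulVec (fun i => C (d : κ) * g i) j
      = C (d : κ) * ((jacM g).adjugate.mulVec g) j := by
    show ∑ i, (jacM g).adjugate j i * (C (d : κ) * g i) = C (d : κ) * ∑ i, (jacM g).adjugate j i * g i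
    rw [Finset.mul_sum]
    exact Finset.sum_congr rfl fun k _ => by ring
  rw [← h1, ← hE, Matrix.mulVec_mulVec, Matrix.adjugate_mul, Matrix.smul_mulVec, Matrix.one_mulVec]
  rfl

end PCFib
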