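import Pool.Agent.H641.PCF.Defs

open MvPolynomial

namespace PCFib



theorem deriv_zero {κ T : Type*} [Field κ] [CommRing T] [IsDomain T] [CharZero T] [Algebra κ T]
    (D : Derivation κ T T) (A : Subalgebra κ T) (hA : ∀ a ∈ A, D a = 0) (x : T)
    (hx : IsIntegral A x) : D x = 0 := by
  have hcz : CharZero A := by
    refine ⟨fun m n hmn => ?_⟩
    have h1 : ((m : A) : T) = ((n : A) : T) := congrArg _ hmn
    have h2 : ((m : ℕ) : T) = ((n : ℕ) : T) := by simpa using h1
    exact_mod_cast h2
  have hex : ∃ n : ℕ, ∃ p : Polynomial A, p ≠ 0 ∧ p.natDegree = n ∧ Polynomial.aeval x p = 0 := by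
    obtain ⟨p, hp, hpx⟩ := hx
    exact ⟨p.natDegree, p, hp.ne_zero, rfl, hpx⟩
  classical
  obtain ⟨p, hp0, hpn, hpx⟩ := Nat.find_spec hex
  have hmin := fun m (hm : m < Nat.find hex) => Nat.find_min hex hm
  have hdeg : p.natDegree ≠ 0 := by
    intro h0
    obtain ⟨a, ha⟩ := Polynomial.natDegree_eq_zero.mp h0
    rw [← ha, Polynomial.aeval_C] at hpx
    have h1 : ((a : A) : T) = 0 := hpx
    apply hp0
    rw [← ha]
    have h2 : a = 0 := by exact_mod_cast h1
    rw [h2, Polynomial.C_0]
  have hder : Polynomial.derivative p ≠ 0 := by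
    intro h
    exact hdeg (Polynomial.derivative_eq_zero.mp h)
  have hlt : (Polynomial.derivative p).natDegree < Nat.find hex := by
    rw [← hpn]
    exact Polynomial.natDegree_derivative_lt hdeg
  have hne : Polynomial.aeval x (Polynomial.derivative p) ≠ 0 := by
    intro h
    exact hmin _ hlt ⟨_, hder, rfl, h⟩
  let L : T →ₗ[A] T :=
    { toFun := D
      map_add' := D.map_add
      map_smul' := by
        intro a t
        have h1 : a • t = (a : T) * t := rfl
        have h2 : (RingHom.id A) a • D t = (a : T) * D t := rfl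
        rw [h1, h2, Derivation.leibniz, hA a.1 a.2, smul_zero, add_zero, smul_eq_mul] }
  let D' : Derivation A T T := Derivation.mk' L (by
    intro a b
    exact D.leibniz a b)
  have hD' : ∀ t, D' t = D t := fun t => rfl
  have h1 : D' (Polynomial.aeval x p) = Polynomial.aeval x (Polynomial.derivative p) • D' x :=
    D'.map_aeval p x
  rw [hpx, map_zero, smul_eq_mul] at h1
  rcases mul_eq_zero.mp h1.symm with h2 | h2
  · exact absurd h2 hne
  · exact h2

end PCFib
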