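import Pool.Agent.H641.PCF.Defs
import Pool.Agent.H641.PCF.P_deriv_zero

open MvPolynomial

namespace PCFib



theorem chain_rule {N : ℕ} {κ : Type*} [Field κ]
    (D : Derivation κ (MvPolynomial (Fin N) κ) (MvPolynomial (Fin N) κ)) (h : PMap N κ)
    (P : MvPolynomial (Fin N) κ) :
    D (bind₁ h P) = ∑ i, bind₁ h (pderiv i P) * D (h i) := by
  induction P using MvPolynomial.induction_on with
  | C a =>
    simp only [bind₁_C_right, pderiv_C, map_zero, zero_mul, Finset.sum_const_zero]
    rw [← algebraMap_eq, D.map_algebraMap]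
  | add p q hp hq =>
    rw [map_add, map_add, hp, hq, ← Finset.sum_add_distrib]
    refine Finset.sum_congr rfl fun i _ => ?_
    rw [map_add, map_add, add_mul]
  | mul_X p k hp =>
    rw [map_mul, bind₁_X_right, Derivation.leibniz, hp]
    have : ∀ i, bind₁ h (pderiv i (p * X k)) * D (h i) =
        h k * (bind₁ h (pderiv i p) * D (h i)) + (if k = i then bind₁ h p * D (h i) else 0) := by
      intro i
      rw [Derivation.leibniz, pderiv_X, map_add, smul_eq_mul, smul_eq_mul, map_mul, map_mul,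
        bind₁_X_right, Pi.single_apply]
      by_cases hk : k = i
      · simp [hk]; ring
      · simp [hk, Ne.symm hk]; ring
    simp only [this, Finset.sum_add_distrib, Finset.sum_ite_eq, Finset.mem_univ, if_true,
      ← Finset.mul_sum, smul_eq_mul]
    ring

theorem quot_deriv {N : ℕ} {κ : Type*} [Field κ] [CharZero κ] (h : PMap N κ)
    (hint : ∀ j, IsIntegral (Algebra.adjoin κ (Set.range h)) (X j : MvPolynomial (Fin N) κ))
    (D : Derivation κ (MvPolynomial (Fin N) κ) (MvPolynomial (Fin N) κ))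
    (q : MvPolynomial (Fin N) κ) (hq : Prime q) (hDq : q ∣ D q)
    (hDh : ∀ i, q ∣ D (h i)) (j : Fin N) : q ∣ D (X j) := by
  set I : Ideal (MvPolynomial (Fin N) κ) := Ideal.span {q} with hI
  haveI : I.IsPrime := (Ideal.span_singleton_prime hq.ne_zero).2 hq
  haveI : IsDomain (MvPolynomial (Fin N) κ ⧸ I) := Ideal.Quotient.isDomain I
  haveI : CharZero (MvPolynomial (Fin N) κ ⧸ I) :=
    charZero_of_injective_algebraMap (algebraMap κ (MvPolynomial (Fin N) κ ⧸ I)).injective
  have hsurj : Function.Surjective (Ideal.Quotient.mkₐ κ I) := Ideal.Quotient.mkₐ_surjective κ I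
  have hz : ∀ x, Ideal.Quotient.mkₐ κ I x = 0 ↔ q ∣ x := by
    intro x
    rw [Ideal.Quotient.mkₐ_eq_mk, Ideal.Quotient.eq_zero_iff_mem, hI, Ideal.mem_span_singleton]
  have hd : ∀ x, Ideal.Quotient.mkₐ κ I x = 0 → Ideal.Quotient.mkₐ κ I (D x) = 0 := by
    intro x hx
    rw [hz] at hx ⊢
    obtain ⟨y, rfl⟩ := hx
    rw [Derivation.leibniz, smul_eq_mul, smul_eq_mul]
    exact dvd_add (dvd_mul_right _ _) (hDq.mul_left _)
  set D1 := Derivation.liftOfSurjective hsurj hd with hD1
  have hD1a : ∀ x, D1 (Ideal.Quotient.mkₐ κ I x) = Ideal.Quotient.mkₐ κ I (D x) :=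
    fun x => Derivation.liftOfSurjective_apply hsurj hd x
  set A0 := Algebra.adjoin κ (Set.range h) with hA0
  have hA0' : ∀ a ∈ A0, q ∣ D a := by
    intro a ha
    induction ha using Algebra.adjoin_induction with
    | mem x hx => obtain ⟨i, rfl⟩ := hx; exact hDh i
    | algebraMap r => rw [D.map_algebraMap]; exact dvd_zero _
    | add x y _ _ hx hy => rw [map_add]; exact dvd_add hx hy
    | mul x y _ _ hx hy =>
      rw [Derivation.leibniz, smul_eq_mul, smul_eq_mul]
      exact dvd_add (hy.mul_left _) (hx.mul_left _)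
  have hA : ∀ a ∈ A0.map (Ideal.Quotient.mkₐ κ I), D1 a = 0 := by
    rintro _ ⟨a, ha, rfl⟩
    have := hD1a a
    refine this.trans ?_
    rw [hz]
    exact hA0' a ha
  have hx : IsIntegral (A0.map (Ideal.Quotient.mkₐ κ I)) (Ideal.Quotient.mkₐ κ I (X j)) := by
    refine IsIntegral.map_of_comp_eq (AlgHom.subalgebraMap A0 (Ideal.Quotient.mkₐ κ I)).toRingHom
      (Ideal.Quotient.mkₐ κ I).toRingHom ?_ (hint j)
    ext a : 1
    rfl
  have := deriv_zero D1 _ hA _ hx
  rw [hD1a, hz] at this
  exact this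

theorem dvd_deriv {N : ℕ} {κ : Type*} [Field κ] [CharZero κ]
    (D : Derivation κ (MvPolynomial (Fin N) κ) (MvPolynomial (Fin N) κ))
    (q e c : MvPolynomial (Fin N) κ) (hq : Prime q) (he : e ≠ 0) (hqe : q ∣ e) (hqc : q ∣ c)
    (hD : D e = c * e) : q ∣ D q := by
  obtain ⟨u, hu, hqu⟩ := (FiniteMultiplicity.of_prime_left hq he).exists_eq_pow_mul_and_not_dvd
  set s := multiplicity q e with hs
  have hs0 : s ≠ 0 := by
    intro h0
    rw [h0, pow_zero, one_mul] at hu
    exact hqu (hu ▸ hqe)
  obtain ⟨r, hr⟩ := Nat.exists_eq_succ_of_ne_zero hs0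
  rw [hu, Derivation.leibniz, Derivation.leibniz_pow, hr] at hD
  simp only [smul_eq_mul, Nat.succ_eq_add_one, Nat.add_sub_cancel, nsmul_eq_mul] at hD
  have hqr : q ^ r ≠ 0 := pow_ne_zero _ hq.ne_zero
  have h1 : q ^ r * (u * (((r + 1 : ℕ) : MvPolynomial (Fin N) κ) * D q)) =
      q ^ r * (q * (c * u - D u)) := by
    rw [pow_succ] at hD
    linear_combination hD
  have h2 := mul_left_cancel₀ hqr h1
  have h3 : q ∣ u * (((r + 1 : ℕ) : MvPolynomial (Fin N) κ) * D q) := ⟨_, h2⟩
  rcases hq.dvd_or_dvd h3 with h | h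
  · exact absurd h hqu
  · rcases hq.dvd_or_dvd h with h' | h'
    · exfalso
      have hun : IsUnit (((r + 1 : ℕ) : MvPolynomial (Fin N) κ)) := by
        have : ((r + 1 : ℕ) : MvPolynomial (Fin N) κ) = C ((r + 1 : ℕ) : κ) := by simp
        rw [this]
        exact (IsUnit.mk0 _ (Nat.cast_ne_zero.2 (Nat.succ_ne_zero r))).map C
      exact hq.not_unit (isUnit_of_dvd_unit h' hun)
    · exact h'

theorem adj_dvd {N : ℕ} {κ : Type*} [Field κ] [CharZero κ] (h : PMap N κ)
    (hint : ∀ j, IsIntegral (Algebra.adjoin κ (Set.range h)) (X j : MvPolynomial (Fin N) κ))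
    (hJ : jac h ≠ 0) (ε : MvPolynomial (Fin N) κ) (hε : bind₁ h ε ≠ 0) (m : ℕ)
    (hm : ε.IsHomogeneous m) (hdvd : jac h ∣ bind₁ h ε) (j : Fin N) :
    jac h ∣ ((jacM h).adjugate.mulVec h) j := by
  classical
  set J := jac h with hJdef
  set b : Fin N → MvPolynomial (Fin N) κ := (jacM h).adjugate.mulVec h with hb
  letI : StrongNormalizationMonoid (MvPolynomial (Fin N) κ) :=
    UniqueFactorizationMonoid.strongNormalizationMonoid
  letI : NormalizedGCDMonoid (MvPolynomial (Fin N) κ) :=
    UniqueFactorizationMonoid.toNormalizedGCDMonoid _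
  set f : Option (Fin N) → MvPolynomial (Fin N) κ := fun o => o.elim J b with hf
  obtain ⟨g, hg, hg1⟩ := Finset.extract_gcd (s := (Finset.univ : Finset (Option (Fin N)))) f
    ⟨none, Finset.mem_univ _⟩
  set G := Finset.univ.gcd f with hG
  have hJG : J = G * g none := hg none (Finset.mem_univ _)
  have hbG : ∀ j, b j = G * g (some j) := fun j => hg (some j) (Finset.mem_univ _)
  have hG0 : G ≠ 0 := by
    intro h0
    rw [h0, zero_mul] at hJG
    exact hJ hJG
  set D : Derivation κ (MvPolynomial (Fin N) κ) (MvPolynomial (Fin N) κ) :=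
    ∑ j, g (some j) • pderiv j with hD
  have hDap : ∀ P, D P = ∑ j, g (some j) * pderiv j P := by
    intro P
    have : ∀ (t : Finset (Fin N)), (∑ j ∈ t, g (some j) • pderiv j :
        Derivation κ (MvPolynomial (Fin N) κ) (MvPolynomial (Fin N) κ)) P =
        ∑ j ∈ t, g (some j) * pderiv j P := by
      intro t
      induction t using Finset.induction_on with
      | empty => simp
      | insert a t ha ih =>
        rw [Finset.sum_insert ha, Finset.sum_insert ha, Derivation.add_apply, ih]
        rfl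
    exact this Finset.univ
  have hDX : ∀ j, D (X j) = g (some j) := by
    intro j
    rw [hDap]
    simp [pderiv_X, Pi.single_apply]
  have hmul : ∀ i, ∑ j, pderiv j (h i) * b j = J * h i := by
    intro i
    have h1 : (jacM h).mulVec ((jacM h).adjugate.mulVec h) = J • h := by
      rw [Matrix.mulVec_mulVec, Matrix.mul_adjugate, Matrix.smul_mulVec, Matrix.one_mulVec]
      rfl
    have := congrFun h1 i
    exact this
  have hDh : ∀ i, D (h i) = g none * h i := by
    intro i
    apply mul_left_cancel₀ hG0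
    rw [← mul_assoc, ← hJG, ← hmul i, hDap, Finset.mul_sum]
    refine Finset.sum_congr rfl fun j _ => ?_
    rw [hbG j]; ring
  have hDe : D (bind₁ h ε) = (g none * (m : MvPolynomial (Fin N) κ)) * bind₁ h ε := by
    rw [chain_rule]
    have h1 := congrArg (bind₁ h) hm.sum_X_mul_pderiv
    rw [map_sum] at h1
    simp only [map_mul, bind₁_X_right, nsmul_eq_mul, map_natCast] at h1
    rw [mul_assoc, ← h1, Finset.mul_sum]
    refine Finset.sum_congr rfl fun i _ => ?_
    rw [hDh i]; ring
  by_cases hu : IsUnit (g none)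
  · obtain ⟨u, hu⟩ := hu
    refine ⟨↑u⁻¹ * g (some j), ?_⟩
    change b j = _
    rw [hbG j, hJG, ← hu]
    have : G * (u : MvPolynomial (Fin N) κ) * (↑u⁻¹ * g (some j)) =
      G * ((u : MvPolynomial (Fin N) κ) * ↑u⁻¹) * g (some j) := by ring
    rw [this, Units.mul_inv, mul_one]
  · exfalso
    have hg0 : g none ≠ 0 := by
      intro h0; rw [h0, mul_zero] at hJG; exact hJ hJG
    obtain ⟨q, hqi, hqd⟩ := WfDvdMonoid.exists_irreducible_factor hu hg0
    have hq : Prime q := hqi.prime
    have hqJ : q ∣ J := by rw [hJG]; exact hqd.mul_left _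
    have hDq : q ∣ D q := dvd_deriv D q (bind₁ h ε) (g none * (m : MvPolynomial (Fin N) κ)) hq hε
      (hqJ.trans hdvd) (hqd.mul_right _) hDe
    have hall : ∀ o, q ∣ g o := by
      intro o
      cases o with
      | none => exact hqd
      | some k =>
        rw [← hDX k]
        exact quot_deriv h hint D q hq hDq (fun i => by rw [hDh i]; exact hqd.mul_right _) k
    have : q ∣ Finset.univ.gcd g := Finset.dvd_gcd fun o _ => hall o
    rw [hg1] at this
    exact hq.not_unit (isUnit_of_dvd_one this)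

end PCFib
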