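import Pool.Agent.H641.PCF.Defs

open MvPolynomial

namespace PCFib



theorem ev_comp_aux {N : ℕ} (f g : PMap N ℂ) (z : Fin N → ℂ) :
    ev (comp f g) z = ev f (ev g z) := by
  funext i
  exact eval₂Hom_bind₁ (RingHom.id ℂ) z g (f i)

theorem ev_affMap_aux {N : ℕ} (A : Matrix (Fin N) (Fin N) ℂ) (b z : Fin N → ℂ) :
    ev (affMap A b) z = A.mulVec z + b := by
  funext i
  simp [ev, affMap, Matrix.mulVec, dotProduct]

theorem pmap_ext_aux {N : ℕ} (f g : PMap N ℂ) : f = g ↔ ∀ z, ev f z = ev g z := by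
  constructor
  · rintro rfl z; rfl
  · intro h
    funext i
    exact MvPolynomial.funext fun z => congrFun (h z) i

theorem affConj_iff {N : ℕ} (f₁ f₂ : PMap N ℂ) :
    AffConj f₁ f₂ ↔ ∃ A A' b, PConj f₁ f₂ A A' b := by
  constructor
  · rintro ⟨e, he⟩
    have hev : ∀ z, e z = (LinearMap.toMatrix' (e.linear : (Fin N → ℂ) →ₗ[ℂ] (Fin N → ℂ))).mulVec z
        + e 0 := by
      intro z
      have h1 := e.map_vadd (0 : Fin N → ℂ) z
      rw [vadd_eq_add, add_zero, vadd_eq_add] at h1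
      rw [h1, LinearMap.toMatrix'_mulVec]
      rfl
    refine ⟨LinearMap.toMatrix' (e.linear : (Fin N → ℂ) →ₗ[ℂ] (Fin N → ℂ)),
      LinearMap.toMatrix' (e.linear.symm : (Fin N → ℂ) →ₗ[ℂ] (Fin N → ℂ)), e 0, ?_, ?_⟩
    · rw [← LinearMap.toMatrix'_comp]
      have : (e.linear : (Fin N → ℂ) →ₗ[ℂ] (Fin N → ℂ)) ∘ₗ
          (e.linear.symm : (Fin N → ℂ) →ₗ[ℂ] (Fin N → ℂ)) = LinearMap.id := by
        ext1 v
        simp
      rw [this, LinearMap.toMatrix'_id]
    · rw [pmap_ext_aux]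
      intro z
      rw [ev_comp_aux, ev_comp_aux, ev_affMap_aux, ev_affMap_aux, ← hev, ← hev, he z,
        AffineEquiv.apply_symm_apply]
  · rintro ⟨A, A', b, h1, h2⟩
    have h1' : A' * A = 1 := mul_eq_one_comm.1 h1
    let L : (Fin N → ℂ) ≃ₗ[ℂ] (Fin N → ℂ) := Matrix.toLin'OfInv h1' h1
    let e : (Fin N → ℂ) ≃ᵃ[ℂ] (Fin N → ℂ) :=
      L.toAffineEquiv.trans (AffineEquiv.constVAdd ℂ (Fin N → ℂ) b)
    have hev : ∀ z, e z = A.mulVec z + b := by
      intro z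
      have h5 : L z = A.mulVec z := Matrix.toLin'_apply _ _
      have h4 : e z = b +ᵥ L z := rfl
      rw [h4, h5, vadd_eq_add, add_comm]
    refine ⟨e, fun z => ?_⟩
    apply e.injective
    rw [AffineEquiv.apply_symm_apply, hev, hev]
    have h3 := (pmap_ext_aux _ _).1 h2 z
    rw [ev_comp_aux, ev_comp_aux, ev_affMap_aux, ev_affMap_aux] at h3
    exact h3.symm

end PCFib
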