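import Pool.Agent.H641.PCF.Defs

open MvPolynomial

namespace PCFib



theorem affConj_trans {N : ℕ} (f₁ f₂ f₃ : PMap N ℂ) (h₁ : AffConj f₁ f₂) (h₂ : AffConj f₂ f₃) :
    AffConj f₁ f₃ := by
  obtain ⟨e₁, h₁⟩ := h₁
  obtain ⟨e₂, h₂⟩ := h₂
  refine ⟨e₂.trans e₁, fun z => ?_⟩
  rw [h₂, h₁]
  rfl

end PCFib
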