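import Pool.Agent.H641.PCF.Defs

open MvPolynomial

namespace PCFib



theorem bind_inj_chain {N : ℕ} {κ : Type*} [Field κ] (g : PMap N κ)
    (P : MvPolynomial (Fin N) κ) (j : Fin N) :
    pderiv j (bind₁ g P) = ∑ i, bind₁ g (pderiv i P) * pderiv j (g i) := by
  induction P using MvPolynomial.induction_on with
  | C a => simp
  | add p q hp hq =>
    simp only [map_add, hp, hq, add_mul, Finset.sum_add_distrib]
  | mul_X p k hp =>
    rw [map_mul, bind₁_X_right, pderiv_mul, hp]
    have h : ∀ i, bind₁ g (pderiv i (p * X k)) * pderiv j (g i) =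
        g k * (bind₁ g (pderiv i p) * pderiv j (g i)) +
          (if i = k then bind₁ g p * pderiv j (g k) else 0) := by
      intro i
      rw [pderiv_mul, map_add, map_mul, map_mul, bind₁_X_right]
      by_cases hik : i = k
      · subst hik
        rw [pderiv_X_self, map_one, if_pos rfl]
        ring
      · rw [pderiv_X_of_ne (fun h => hik h.symm), map_zero, if_neg hik]
        ring
    rw [Finset.sum_congr rfl (fun i _ => h i), Finset.sum_add_distrib, ← Finset.mul_sum,
      Finset.sum_ite_eq' Finset.univ k]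
    simp only [Finset.mem_univ, if_true]
    ring

theorem bind_inj_deg {N : ℕ} {κ : Type*} [Field κ] (P : MvPolynomial (Fin N) κ) (i : Fin N)
    (n : ℕ) (h : P.totalDegree ≤ n + 1) : (pderiv i P).totalDegree ≤ n := by
  classical
  unfold totalDegree
  apply Finset.sup_le
  intro m hm
  rw [mem_support_iff, coeff_pderiv] at hm
  have h1 : coeff (m + Finsupp.single i 1) P ≠ 0 := left_ne_zero_of_mul hm
  have h2 := le_totalDegree (mem_support_iff.2 h1)
  rw [Finsupp.sum_add_index' (by intros; rfl) (by intros; rfl), Finsupp.sum_single_index rfl] at h2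
  omega

theorem bind_inj_const {N : ℕ} {κ : Type*} [Field κ] [CharZero κ] (P : MvPolynomial (Fin N) κ)
    (h : ∀ i, pderiv i P = 0) : P = C (coeff 0 P) := by
  classical
  ext m
  rw [coeff_C]
  split_ifs with hm
  · rw [← hm]
  · obtain ⟨i, hi⟩ : ∃ i, m i ≠ 0 := by
      by_contra hcon
      push Not at hcon
      exact hm (Finsupp.ext (fun i => (hcon i).symm))
    have h1 := coeff_pderiv (i := i) P (m - Finsupp.single i 1)
    have hle : Finsupp.single i 1 ≤ m := by
      rw [Finsupp.single_le_iff]
      omega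
    rw [h i, coeff_zero, tsub_add_cancel_of_le hle] at h1
    rcases mul_eq_zero.1 h1.symm with h2 | h2
    · exact h2
    · exfalso
      have h3 : (((m - Finsupp.single i 1 : Fin N →₀ ℕ) i + 1 : ℕ) : κ) = 0 := by
        push_cast
        exact h2
      exact Nat.cast_ne_zero.2 (Nat.succ_ne_zero _) h3

theorem bind_inj {N : ℕ} {κ : Type*} [Field κ] [CharZero κ] (g : PMap N κ) (hg : jac g ≠ 0)
    (P : MvPolynomial (Fin N) κ) (hP : bind₁ g P = 0) : P = 0 := by
  have hconst : ∀ Q : MvPolynomial (Fin N) κ, bind₁ g Q = 0 → (∀ i, pderiv i Q = 0) → Q = 0 := by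
    intro Q hQ hd
    have h1 := bind_inj_const Q hd
    rw [h1, bind₁_C_right] at hQ
    rw [h1, hQ]
  have key : ∀ n : ℕ, ∀ Q : MvPolynomial (Fin N) κ, Q.totalDegree ≤ n → bind₁ g Q = 0 → Q = 0 := by
    intro n
    induction n with
    | zero =>
      intro Q hQ hb
      apply hconst Q hb
      intro i
      have h1 := totalDegree_eq_zero_iff_eq_C.1 (Nat.le_zero.1 hQ)
      rw [h1, pderiv_C]
    | succ n ih =>
      intro Q hQ hb
      apply hconst Q hb
      have hv : (fun i => bind₁ g (pderiv i Q)) = 0 := by
        apply Matrix.eq_zero_of_vecMul_eq_zero (M := jacM g) hg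
        funext j
        have h1 := bind_inj_chain g Q j
        rw [hb, map_zero] at h1
        rw [Pi.zero_apply, h1]
        rfl
      intro i
      exact ih _ (bind_inj_deg Q i n hQ) (congrFun hv i)
  exact key _ P le_rfl hP

end PCFib
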