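import Pool.Agent.H641.PCF.Defs

open MvPolynomial

namespace PCFib



theorem aux_amalg {K K₁ K₂ : Type} [Field K] [Field K₁] [Field K₂] (f₁ : K →+* K₁)
    (f₂ : K →+* K₂) : ∃ (L : Type) (_ : Field L) (g₁ : K₁ →+* L) (g₂ : K₂ →+* L),
      g₁.comp f₁ = g₂.comp f₂ := by
  letI : Algebra K K₁ := f₁.toAlgebra
  letI : Algebra K K₂ := f₂.toAlgebra
  have hn : Nontrivial (TensorProduct K K₁ K₂) := inferInstance
  obtain ⟨m, hm⟩ := Ideal.exists_maximal (TensorProduct K K₁ K₂)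
  refine ⟨TensorProduct K K₁ K₂ ⧸ m, Ideal.Quotient.field m,
    (Ideal.Quotient.mk m).comp Algebra.TensorProduct.includeLeftRingHom,
    (Ideal.Quotient.mk m).comp (Algebra.TensorProduct.includeRight : K₂ →ₐ[K] _).toRingHom, ?_⟩
  ext k
  simp only [RingHom.comp_apply]
  congr 1
  have h1 : (Algebra.TensorProduct.includeLeftRingHom : K₁ →+* TensorProduct K K₁ K₂) (f₁ k) =
      algebraMap K (TensorProduct K K₁ K₂) k := rfl
  have h2 : (Algebra.TensorProduct.includeRight : K₂ →ₐ[K] TensorProduct K K₁ K₂).toRingHom (f₂ k) =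
      algebraMap K (TensorProduct K K₁ K₂) k :=
    (Algebra.TensorProduct.includeRight : K₂ →ₐ[K] TensorProduct K K₁ K₂).commutes k
  rw [h1, h2]

theorem aux_lift {σ : Type} {A : Type} [CommRing A] [Algebra ℂ A]
    (π : MvPolynomial σ ℂ →ₐ[ℂ] A) (hπ : Function.Surjective π) (x : MvPolynomial σ ℂ →ₐ[ℂ] ℂ)
    (hx : ∀ p, π p = 0 → x p = 0) : ∃ c : A →ₐ[ℂ] ℂ, ∀ p, c (π p) = x p := by
  refine ⟨(Ideal.Quotient.liftₐ (RingHom.ker π) x (fun a ha => hx a ha)).comp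
    (Ideal.quotientKerAlgEquivOfSurjective hπ).symm.toAlgHom, fun p => ?_⟩
  have h1 : (Ideal.quotientKerAlgEquivOfSurjective hπ).symm (π p) =
      Ideal.Quotient.mk (RingHom.ker π) p := by
    rw [AlgEquiv.symm_apply_eq]
    rfl
  show (Ideal.Quotient.liftₐ (RingHom.ker π) x (fun a ha => hx a ha))
    ((Ideal.quotientKerAlgEquivOfSurjective hπ).symm (π p)) = x p
  rw [h1]
  rfl

theorem common_point (B B₁ B₂ : Type) [CommRing B] [IsDomain B] [Algebra ℂ B]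
    [Algebra.FiniteType ℂ B] [CommRing B₁] [IsDomain B₁] [Algebra ℂ B₁] [Algebra.FiniteType ℂ B₁]
    [CommRing B₂] [IsDomain B₂] [Algebra ℂ B₂] [Algebra.FiniteType ℂ B₂]
    (ψ₁ : B →ₐ[ℂ] B₁) (ψ₂ : B →ₐ[ℂ] B₂) (h₁ : Function.Injective ψ₁)
    (h₂ : Function.Injective ψ₂) :
    ∃ (c₁ : B₁ →ₐ[ℂ] ℂ) (c₂ : B₂ →ₐ[ℂ] ℂ), c₁.comp ψ₁ = c₂.comp ψ₂ := by
  obtain ⟨L, hL, g₁, g₂, hg⟩ := aux_amalg
    (IsFractionRing.map (K := FractionRing B) (L := FractionRing B₁) (j := ψ₁.toRingHom) h₁)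
    (IsFractionRing.map (K := FractionRing B) (L := FractionRing B₂) (j := ψ₂.toRingHom) h₂)
  obtain ⟨i₁, hi₁⟩ : ∃ i : B₁ →+* L, i = g₁.comp (algebraMap B₁ (FractionRing B₁)) := ⟨_, rfl⟩
  obtain ⟨i₂, hi₂⟩ : ∃ i : B₂ →+* L, i = g₂.comp (algebraMap B₂ (FractionRing B₂)) := ⟨_, rfl⟩
  have hcomp : ∀ b, i₁ (ψ₁ b) = i₂ (ψ₂ b) := by
    intro b
    have h3 := RingHom.congr_fun hg (algebraMap B (FractionRing B) b)
    simp only [RingHom.comp_apply] at h3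
    have h4 : (IsFractionRing.map (K := FractionRing B) (L := FractionRing B₁)
        (j := ψ₁.toRingHom) h₁) (algebraMap B (FractionRing B) b) =
        algebraMap B₁ (FractionRing B₁) (ψ₁ b) := IsLocalization.map_eq _ b
    have h5 : (IsFractionRing.map (K := FractionRing B) (L := FractionRing B₂)
        (j := ψ₂.toRingHom) h₂) (algebraMap B (FractionRing B) b) =
        algebraMap B₂ (FractionRing B₂) (ψ₂ b) := IsLocalization.map_eq _ b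
    rw [h4, h5] at h3
    rw [hi₁, hi₂]
    exact h3
  letI algL : Algebra ℂ L := (i₁.comp (algebraMap ℂ B₁)).toAlgebra
  have hal1 : ∀ z : ℂ, algebraMap ℂ L z = i₁ (algebraMap ℂ B₁ z) := fun z => rfl
  have hal2 : ∀ z : ℂ, algebraMap ℂ L z = i₂ (algebraMap ℂ B₂ z) := by
    intro z
    rw [hal1, ← ψ₁.commutes, ← ψ₂.commutes, hcomp]
  obtain ⟨u₁, hu₁⟩ : ∃ u : B₁ →ₐ[ℂ] L, ∀ b, u b = i₁ b :=
    ⟨{ i₁ with commutes' := fun z => (hal1 z).symm }, fun b => rfl⟩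
  obtain ⟨u₂, hu₂⟩ : ∃ u : B₂ →ₐ[ℂ] L, ∀ b, u b = i₂ b :=
    ⟨{ i₂ with commutes' := fun z => (hal2 z).symm }, fun b => rfl⟩
  obtain ⟨n₁, π₁, hπ₁⟩ := Algebra.FiniteType.iff_quotient_mvPolynomial''.1
    (inferInstance : Algebra.FiniteType ℂ B₁)
  obtain ⟨n₂, π₂, hπ₂⟩ := Algebra.FiniteType.iff_quotient_mvPolynomial''.1
    (inferInstance : Algebra.FiniteType ℂ B₂)
  obtain ⟨g, hgdef⟩ : ∃ g : MvPolynomial (Fin n₁ ⊕ Fin n₂) ℂ →ₐ[ℂ] L,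
      g = aeval (Sum.elim (fun i => u₁ (π₁ (X i))) (fun i => u₂ (π₂ (X i)))) := ⟨_, rfl⟩
  have hg1 : ∀ p, g (rename Sum.inl p) = u₁ (π₁ p) := by
    intro p
    have : g.comp (rename Sum.inl) = u₁.comp π₁ := by
      apply MvPolynomial.algHom_ext
      intro i
      simp [hgdef]
    exact DFunLike.congr_fun this p
  have hg2 : ∀ p, g (rename Sum.inr p) = u₂ (π₂ p) := by
    intro p
    have : g.comp (rename Sum.inr) = u₂.comp π₂ := by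
      apply MvPolynomial.algHom_ext
      intro i
      simp [hgdef]
    exact DFunLike.congr_fun this p
  have hker : RingHom.ker g ≠ ⊤ := RingHom.ker_ne_top g
  obtain ⟨M, hM, hle⟩ := Ideal.exists_le_maximal _ hker
  obtain ⟨x, hx⟩ := (isMaximal_iff_eq_vanishingIdeal_singleton (K := ℂ)).1 hM
  have hev : ∀ p, g p = 0 → aeval x p = 0 := by
    intro p hp
    have h6 : p ∈ M := hle hp
    rw [hx] at h6
    exact h6 x rfl
  obtain ⟨c₁, hc₁⟩ := aux_lift π₁ hπ₁ ((aeval x : MvPolynomial (Fin n₁ ⊕ Fin n₂) ℂ →ₐ[ℂ] ℂ).comp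
    (rename Sum.inl)) (fun p hp => hev _ ((hg1 p).trans (by rw [hp, map_zero])))
  obtain ⟨c₂, hc₂⟩ := aux_lift π₂ hπ₂ ((aeval x : MvPolynomial (Fin n₁ ⊕ Fin n₂) ℂ →ₐ[ℂ] ℂ).comp
    (rename Sum.inr)) (fun p hp => hev _ ((hg2 p).trans (by rw [hp, map_zero])))
  refine ⟨c₁, c₂, AlgHom.ext fun b => ?_⟩
  obtain ⟨p₁, hp₁⟩ := hπ₁ (ψ₁ b)
  obtain ⟨p₂, hp₂⟩ := hπ₂ (ψ₂ b)
  show c₁ (ψ₁ b) = c₂ (ψ₂ b)
  rw [← hp₁, ← hp₂, hc₁, hc₂]
  have h7 : g (rename Sum.inl p₁ - rename Sum.inr p₂) = 0 := by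
    rw [map_sub, hg1, hg2, hp₁, hp₂, hu₁, hu₂, hcomp, sub_self]
  have h8 := hev _ h7
  rw [map_sub, sub_eq_zero] at h8
  exact h8

end PCFib
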