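import Pool.Agent.H641.PCF.Defs

open MvPolynomial

namespace PCFib



theorem scale_monomial' {N : ℕ} {K : Type*} [CommRing K] (T : K) (α : Fin N →₀ ℕ) (c : K) :
    scale T (monomial α c) = monomial α (T ^ Finsupp.degree α * c) := by
  unfold scale
  rw [bind₁_monomial]
  simp only [mul_pow]
  rw [Finset.prod_mul_distrib, Finset.prod_pow_eq_pow_sum, monomial_eq, Finsupp.degree,
    Finsupp.prod]
  simp only [← C_pow, C_mul]
  show C c * (C (T ^ (∑ i ∈ α.support, α i)) * _) = C (T ^ (∑ i ∈ α.support, α i)) * C c * _
  ring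

theorem coeff_scale' {N : ℕ} {K : Type*} [CommRing K] (T : K) (p : MvPolynomial (Fin N) K)
    (α : Fin N →₀ ℕ) : coeff α (scale T p) = T ^ Finsupp.degree α * coeff α p := by
  induction p using MvPolynomial.induction_on' with
  | monomial u a =>
    rw [scale_monomial', coeff_monomial, coeff_monomial]
    split_ifs with h
    · rw [h]
    · rw [mul_zero]
  | add p q hp hq =>
    have : scale T (p + q) = scale T p + scale T q := by
      unfold scale
      rw [map_add]
    rw [this, coeff_add, coeff_add, hp, hq]
    ring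

theorem twist {O K κ : Type*} [CommRing O] [Field K] [Algebra O K] [Field κ] (red : O →+* κ)
    {N d : ℕ} (P g : MvPolynomial (Fin N) O) (hg : g.IsHomogeneous d)
    (hP : (P - g).totalDegree < d) (T : K) (τ : O) (hτ : algebraMap O K τ * T = 1)
    (hτ0 : red τ = 0) :
    ∃ P' : MvPolynomial (Fin N) O,
      scale T (MvPolynomial.map (algebraMap O K) P) = C (T ^ d) * MvPolynomial.map (algebraMap O K) P'
      ∧ MvPolynomial.map red P' = MvPolynomial.map red g := by
  have hdiff : ∀ α : Fin N →₀ ℕ, d ≤ Finsupp.degree α → coeff α P = coeff α g := by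
    intro α hα
    have h1 : coeff α (P - g) = 0 := by
      apply coeff_eq_zero_of_totalDegree_lt
      exact lt_of_lt_of_le hP hα
    rw [coeff_sub] at h1
    exact sub_eq_zero.1 h1
  have hhom : ∀ α : Fin N →₀ ℕ, Finsupp.degree α ≠ d → coeff α g = 0 := fun α hα =>
    hg.coeff_eq_zero hα
  set P' : MvPolynomial (Fin N) O :=
    ∑ α ∈ P.support, monomial α (τ ^ (d - Finsupp.degree α) * coeff α P) with hP'
  have hc : ∀ α, coeff α P' = τ ^ (d - Finsupp.degree α) * coeff α P := by
    intro α
    rw [hP', coeff_sum]
    simp only [coeff_monomial]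
    rw [Finset.sum_ite_eq' P.support α]
    split_ifs with h
    · rfl
    · rw [notMem_support_iff.1 h, mul_zero]
  refine ⟨P', ?_, ?_⟩
  · ext α
    rw [coeff_scale', coeff_C_mul, coeff_map, coeff_map, hc, map_mul, map_pow]
    rcases le_or_gt (Finsupp.degree α) d with h | h
    · have : T ^ d = T ^ Finsupp.degree α * T ^ (d - Finsupp.degree α) := by
        rw [← pow_add, Nat.add_sub_cancel' h]
      rw [this]
      have h2 : T ^ (d - Finsupp.degree α) * algebraMap O K τ ^ (d - Finsupp.degree α) = 1 := by
        rw [← mul_pow, mul_comm T, hτ, one_pow]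
      linear_combination (-(T ^ Finsupp.degree α) * algebraMap O K (coeff α P)) * h2
    · rw [hdiff α h.le, hhom α h.ne']
      simp
  · ext α
    rw [coeff_map, coeff_map, hc, map_mul, map_pow, hτ0]
    rcases lt_trichotomy (Finsupp.degree α) d with h | h | h
    · rw [zero_pow (by omega), zero_mul, hhom α h.ne, map_zero]
    · rw [hdiff α h.ge, h, Nat.sub_self, pow_zero, one_mul]
    · rw [hdiff α h.le, hhom α h.ne']
      simp

end PCFib
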