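import Pool.Agent.H641.PCF.Defs
import Pool.Agent.H641.PCF.P_twist

open MvPolynomial

namespace PCFib



theorem is_bb {N : ℕ} {R : Type*} [CommRing R] (f g : PMap N R) (P : MvPolynomial (Fin N) R) :
    bind₁ f (bind₁ g P) = bind₁ (fun i => bind₁ f (g i)) P := bind₁_bind₁ _ _ _

theorem is_cassoc {N : ℕ} {R : Type*} [CommRing R] (a b c : PMap N R) :
    comp (comp a b) c = comp a (comp b c) := by
  funext i
  show bind₁ c (bind₁ b (a i)) = bind₁ (fun j => bind₁ c (b j)) (a i)
  exact is_bb _ _ _

theorem is_scale_mul {N : ℕ} {R : Type*} [CommRing R] (a b : R) (P : MvPolynomial (Fin N) R) :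
    scale (a * b) P = scale b (scale a P) := by
  unfold scale
  rw [is_bb]
  congr 1
  congr 1
  funext j
  rw [C_mul, map_mul (bind₁ _), bind₁_C_right, bind₁_X_right, mul_assoc]

theorem is_scale_C {N : ℕ} {R : Type*} [CommRing R] (a b : R) (P : MvPolynomial (Fin N) R) :
    scale a (C b * P) = C b * scale a P := by
  unfold scale
  rw [map_mul, bind₁_C_right]

theorem iter_scale {O K κ : Type*} [CommRing O] [Field K] [Algebra O K] [Field κ] (red : O →+* κ)
    {N d : ℕ} (hd : 2 ≤ d) (f : PMap N K) (h g : PMap N O) (hh : HasTop d h g)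
    (R : K) (ρ : O) (hρ : algebraMap O K ρ * R = 1) (hρ0 : red ρ = 0)
    (hs : ∀ i, scale R (f i) = C (R ^ d) * MvPolynomial.map (algebraMap O K) (h i))
    (n : ℕ) :
    ∃ H : PMap N O,
      (∀ i, scale R (iter f (n + 1) i)
        = C (R ^ (d ^ (n + 1))) * MvPolynomial.map (algebraMap O K) (H i)) ∧
      mapc red H = comp (iter (mapc red g) n) (mapc red h) := by
  induction n with
  | zero =>
    refine ⟨h, fun i => ?_, ?_⟩
    · have h1 : iter f (0 + 1) i = f i := by
        show bind₁ (X : Fin N → MvPolynomial (Fin N) K) (f i) = f i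
        rw [bind₁_X_left]
        rfl
      rw [h1, hs i, zero_add, pow_one]
    · funext i
      show mapc red h i = bind₁ (mapc red h) (X i)
      rw [bind₁_X_right]
  | succ n ih =>
    obtain ⟨H, hH1, hH2⟩ := ih
    have hpos : 2 ≤ d ^ (n + 1) := by
      calc 2 ≤ d := hd
        _ = d ^ 1 := (pow_one d).symm
        _ ≤ d ^ (n + 1) := Nat.pow_le_pow_right (by omega) (by omega)
    have hτ : algebraMap O K (ρ ^ (d ^ (n + 1) - 1)) * R ^ (d ^ (n + 1) - 1) = 1 := by
      rw [map_pow, ← mul_pow, hρ, one_pow]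
    have hτ0 : red (ρ ^ (d ^ (n + 1) - 1)) = 0 := by
      rw [map_pow, hρ0, zero_pow (by omega)]
    have htw := fun i => twist (K := K) red (h i) (g i) (hh i).1 (hh i).2 _ _ hτ hτ0
    choose P' hP1 hP2 using htw
    have hS : R * R ^ (d ^ (n + 1) - 1) = R ^ (d ^ (n + 1)) := by
      rw [← pow_succ', Nat.sub_add_cancel (by omega)]
    have hscS : ∀ i, scale (R ^ (d ^ (n + 1))) (f i) =
        C (R ^ (d ^ (n + 1 + 1))) * MvPolynomial.map (algebraMap O K) (P' i) := by
      intro i
      have e1 : R ^ (d ^ (n + 1 + 1)) = R ^ d * (R ^ (d ^ (n + 1) - 1)) ^ d := by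
        rw [← mul_pow, hS, ← pow_mul, pow_succ d (n + 1)]
      rw [← hS, is_scale_mul, hs i, is_scale_C, hP1 i, e1, C_mul, mul_assoc]
    refine ⟨fun i => bind₁ H (P' i), fun i => ?_, ?_⟩
    · show scale R (bind₁ (iter f (n + 1)) (f i)) = _
      have e2 : scale R (bind₁ (iter f (n + 1)) (f i)) =
          bind₁ (fun j => scale R (iter f (n + 1) j)) (f i) := is_bb _ _ _
      rw [e2]
      have e3 : (fun j => scale R (iter f (n + 1) j)) = fun j =>
          C (R ^ (d ^ (n + 1))) * MvPolynomial.map (algebraMap O K) (H j) := funext hH1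
      rw [e3]
      have e4 : bind₁ (fun j => C (R ^ (d ^ (n + 1))) * MvPolynomial.map (algebraMap O K) (H j))
          (f i) = bind₁ (fun j => MvPolynomial.map (algebraMap O K) (H j))
            (scale (R ^ (d ^ (n + 1))) (f i)) := by
        unfold scale
        rw [is_bb]
        congr 1
        congr 1
        funext j
        rw [map_mul, bind₁_C_right, bind₁_X_right]
      rw [e4, hscS i, map_mul, bind₁_C_right, map_bind₁]
    · have e5 : comp (iter (mapc red g) (n + 1)) (mapc red h) =
          comp (mapc red g) (mapc red H) := by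
        show comp (comp (mapc red g) (iter (mapc red g) n)) (mapc red h) = _
        rw [is_cassoc, hH2]
      rw [e5]
      funext i
      show MvPolynomial.map red (bind₁ H (P' i)) = bind₁ (mapc red H) (mapc red g i)
      rw [map_bind₁, hP2 i]
      rfl

end PCFib
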