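import Pool.Agent.H641.PCF.Defs

open MvPolynomial

namespace PCFib



theorem i66_hc_sum {N : ℕ} {κ : Type*} [Field κ] (c g : MvPolynomial (Fin N) κ) {d n : ℕ}
    (hg : g.IsHomogeneous d) :
    homogeneousComponent n (c * g) = ∑ k ∈ Finset.range (c.totalDegree + 1),
      if n = k + d then homogeneousComponent k c * g else 0 := by
  conv_lhs => rw [← sum_homogeneousComponent c, Finset.sum_mul, map_sum]
  refine Finset.sum_congr rfl fun k _ => ?_
  have h1 : (homogeneousComponent k c * g).IsHomogeneous (k + d) :=
    (homogeneousComponent_isHomogeneous k c).mul hg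
  exact homogeneousComponent_of_mem h1

theorem i66_hc_mul {N : ℕ} {κ : Type*} [Field κ] (c g : MvPolynomial (Fin N) κ) {d n : ℕ}
    (hg : g.IsHomogeneous d) (hn : d ≤ n) :
    homogeneousComponent n (c * g) = homogeneousComponent (n - d) c * g := by
  rw [i66_hc_sum c g hg]
  by_cases h : c.totalDegree < n - d
  · rw [homogeneousComponent_eq_zero _ _ h, zero_mul]
    refine Finset.sum_eq_zero fun k hk => ?_
    rw [if_neg]
    have := Finset.mem_range.1 hk
    omega
  · rw [Finset.sum_eq_single (n - d)]
    · rw [if_pos (by omega)]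
    · intro k _ hk
      rw [if_neg (by omega)]
    · intro hk
      exact absurd (Finset.mem_range.2 (by omega)) hk

theorem i66_hc_mul' {N : ℕ} {κ : Type*} [Field κ] (c g : MvPolynomial (Fin N) κ) {d n : ℕ}
    (hg : g.IsHomogeneous d) (hn : ¬ d ≤ n) :
    homogeneousComponent n (c * g) = 0 := by
  rw [i66_hc_sum c g hg]
  refine Finset.sum_eq_zero fun k _ => ?_
  rw [if_neg (by omega)]

theorem i66_coef {N d : ℕ} {κ : Type*} [Field κ] (g : PMap N κ)
    (hg : ∀ i, (g i).IsHomogeneous d) (M : ℕ) (j : Fin N)
    (hM : (X j : MvPolynomial (Fin N) κ) ^ M ∈ Ideal.span (Set.range g)) :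
    ∃ c : Fin N → MvPolynomial (Fin N) κ, d ≤ M ∧ (∀ i, (c i).totalDegree ≤ M - d) ∧
      ∑ i, c i * g i = (X j : MvPolynomial (Fin N) κ) ^ M := by
  obtain ⟨c, hc⟩ := Ideal.mem_span_range_iff_exists_fun.1 hM
  have hXh : ((X j : MvPolynomial (Fin N) κ) ^ M).IsHomogeneous M := by
    have := (isHomogeneous_X κ j).pow M
    simpa using this
  have hX : homogeneousComponent M ((X j : MvPolynomial (Fin N) κ) ^ M)
      = (X j : MvPolynomial (Fin N) κ) ^ M := by
    rw [homogeneousComponent_of_mem hXh, if_pos rfl]
  have hdM : d ≤ M := by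
    by_contra hcon
    have h0 : homogeneousComponent M (∑ i, c i * g i) = 0 := by
      rw [map_sum]
      exact Finset.sum_eq_zero fun i _ => i66_hc_mul' (c i) (g i) (hg i) hcon
    rw [hc, hX] at h0
    exact pow_ne_zero M (X_ne_zero j) h0
  refine ⟨fun i => homogeneousComponent (M - d) (c i), hdM, fun i => ?_, ?_⟩
  · exact (homogeneousComponent_isHomogeneous (M - d) (c i)).totalDegree_le
  · rw [← hX, ← hc, map_sum]
    exact Finset.sum_congr rfl fun i _ => (i66_hc_mul (c i) (g i) (hg i) hdM).symm

theorem i66_span {N d : ℕ} {κ : Type*} [Field κ] (hd : 1 ≤ d) (h g : PMap N κ)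
    (ht : HasTop d h g) (M : ℕ)
    (hM : ∀ j, (X j : MvPolynomial (Fin N) κ) ^ M ∈ Ideal.span (Set.range g))
    (F : Submodule (Algebra.adjoin κ (Set.range h)) (MvPolynomial (Fin N) κ))
    (hF : ∀ α : Fin N →₀ ℕ, (∀ j, α j < M) → monomial α (1 : κ) ∈ F) (n : ℕ) :
    ∀ p : MvPolynomial (Fin N) κ, p.totalDegree < n → p ∈ F := by
  induction n with
  | zero => intro p hp; exact absurd hp (Nat.not_lt_zero _)
  | succ n ih =>
    intro p hp
    have hmon : ∀ α : Fin N →₀ ℕ, α.degree ≤ n → monomial α (1 : κ) ∈ F := by
      intro α hα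
      by_cases hlt : α.degree < n
      · apply ih
        refine lt_of_le_of_lt (totalDegree_monomial_le α 1) ?_
        simpa [Finsupp.degree, Finsupp.sum] using hlt
      by_cases hbox : ∀ j, α j < M
      · exact hF α hbox
      push Not at hbox
      obtain ⟨j, hj⟩ := hbox
      obtain ⟨c, hdM, hc1, hc2⟩ := i66_coef g (fun i => (ht i).1) M j (hM j)
      set β : Fin N →₀ ℕ := α - Finsupp.single j M with hβ
      have hle : Finsupp.single j M ≤ α := by
        rw [Finsupp.single_le_iff]; exact hj
      have hαβ : α = β + Finsupp.single j M := (tsub_add_cancel_of_le hle).symm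
      have hdeg : α.degree = β.degree + M := by
        rw [hαβ, map_add, Finsupp.degree_single]
      have hdn : β.degree + M ≤ n := by rw [← hdeg]; exact hα
      have hβd : (monomial β (1 : κ)).totalDegree ≤ β.degree := by
        refine (totalDegree_monomial_le β 1).trans ?_
        simp [Finsupp.degree, Finsupp.sum]
      have hq : ∀ i, (monomial β (1 : κ) * c i).totalDegree ≤ β.degree + (M - d) := by
        intro i
        refine (totalDegree_mul _ _).trans ?_
        exact Nat.add_le_add hβd (hc1 i)
      have heq : monomial α (1 : κ) = ∑ i, (h i * (monomial β (1 : κ) * c i)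
          - (monomial β (1 : κ) * c i) * (h i - g i)) := by
        have h1 : monomial α (1 : κ) = monomial β (1 : κ) * (X j) ^ M := by
          rw [hαβ, X_pow_eq_monomial, monomial_mul, one_mul]
        rw [h1, ← hc2, Finset.mul_sum]
        refine Finset.sum_congr rfl fun i _ => ?_
        ring
      rw [heq]
      refine F.sum_mem fun i _ => F.sub_mem ?_ ?_
      · have h2 : monomial β (1 : κ) * c i ∈ F := by
          apply ih
          have := hq i
          omega
        have h3 := F.smul_mem (⟨h i, Algebra.subset_adjoin ⟨i, rfl⟩⟩ :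
          Algebra.adjoin κ (Set.range h)) h2
        exact h3
      · apply ih
        refine lt_of_le_of_lt (totalDegree_mul _ _) ?_
        have h4 := hq i
        have h5 := (ht i).2
        omega
    have hsum : p = ∑ α ∈ p.support, monomial α (coeff α p) := p.as_sum
    rw [hsum]
    refine F.sum_mem fun α hα => ?_
    have h6 : α.degree ≤ n := by
      have h7 := le_totalDegree hα
      have h8 : α.degree = α.sum fun _ e => e := by simp [Finsupp.degree, Finsupp.sum]
      omega
    have h9 := F.smul_mem (algebraMap κ (Algebra.adjoin κ (Set.range h)) (coeff α p)) (hmon α h6)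
    have h10 : (algebraMap κ (Algebra.adjoin κ (Set.range h)) (coeff α p)) • monomial α (1 : κ)
        = monomial α (coeff α p) := by
      rw [algebraMap_smul, smul_monomial, smul_eq_mul, mul_one]
    rwa [h10] at h9

theorem integral_of_reg {N d : ℕ} {κ : Type*} [Field κ] (hd : 1 ≤ d) (h g : PMap N κ)
    (hg : Reg g) (ht : HasTop d h g) (j : Fin N) :
    IsIntegral (Algebra.adjoin κ (Set.range h)) (X j : MvPolynomial (Fin N) κ) := by
  classical
  obtain ⟨M, hM⟩ := hg
  let T : Set (MvPolynomial (Fin N) κ) :=
    Set.range (fun β : Fin N → Fin M => monomial (Finsupp.equivFunOnFinite.symm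
      (fun i => (β i : ℕ))) (1 : κ))
  have hTfin : T.Finite := Set.finite_range _
  have hF : ∀ α : Fin N →₀ ℕ, (∀ j, α j < M) → monomial α (1 : κ) ∈
      Submodule.span (Algebra.adjoin κ (Set.range h)) T := by
    intro α hα
    apply Submodule.subset_span
    refine ⟨fun i => ⟨α i, hα i⟩, ?_⟩
    show monomial _ (1 : κ) = monomial α 1
    congr 1
    ext i
    simp
  have htop : Submodule.span (Algebra.adjoin κ (Set.range h)) T = ⊤ := by
    rw [eq_top_iff]
    intro p _
    exact i66_span hd h g ht M hM _ hF (p.totalDegree + 1) p (Nat.lt_succ_self _)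
  have hfin : Module.Finite (Algebra.adjoin κ (Set.range h)) (MvPolynomial (Fin N) κ) :=
    ⟨hTfin.toFinset, by rw [hTfin.coe_toFinset, htop]⟩
  exact IsIntegral.of_finite _ _

end PCFib
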