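import Pool.Agent.H641.PCF.Defs
import Pool.Agent.H641.PCF.P_deriv_zero
import Pool.Agent.H641.PCF.P_integral_of_reg

open MvPolynomial

namespace PCFib



theorem jac_ne_zero {N d : ℕ} {κ : Type*} [Field κ] [CharZero κ] (hd : 1 ≤ d) (h g : PMap N κ)
    (hg : Reg g) (ht : HasTop d h g) : jac h ≠ 0 := by
  classical
  intro h0
  obtain ⟨v, hv, hmv⟩ := (Matrix.exists_mulVec_eq_zero_iff (M := jacM h)).2 h0
  let D : Derivation κ (MvPolynomial (Fin N) κ) (MvPolynomial (Fin N) κ) :=
    ∑ j, v j • pderiv j
  have hD : ∀ p, D p = ∑ j, v j * pderiv j p := by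
    intro p
    show Derivation.coeFnAddMonoidHom
      (∑ j, v j • (pderiv j : Derivation κ (MvPolynomial (Fin N) κ) (MvPolynomial (Fin N) κ))) p = _
    rw [map_sum, Finset.sum_apply]
    rfl
  have hDh : ∀ i, D (h i) = 0 := by
    intro i
    rw [hD]
    have := congrFun hmv i
    rw [Pi.zero_apply] at this
    rw [← this]
    show _ = ∑ j, jacM h i j * v j
    apply Finset.sum_congr rfl
    intro j _
    rw [mul_comm]; rfl
  have hDA : ∀ a ∈ Algebra.adjoin κ (Set.range h), D a = 0 := by
    intro a ha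
    induction ha using Algebra.adjoin_induction with
    | mem x hx =>
      obtain ⟨i, rfl⟩ := hx
      exact hDh i
    | algebraMap r => exact D.map_algebraMap r
    | add x y _ _ hx hy => rw [map_add, hx, hy, add_zero]
    | mul x y _ _ hx hy => rw [D.leibniz, hx, hy, smul_zero, smul_zero, add_zero]
  apply hv
  funext j
  have h1 := deriv_zero D _ hDA (X j) (integral_of_reg hd h g hg ht j)
  rw [hD] at h1
  rw [Finset.sum_eq_single j] at h1
  · rw [pderiv_X_self, mul_one] at h1
    exact h1
  · intro b _ hb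
    rw [pderiv_X_of_ne (Ne.symm hb), mul_zero]
  · intro hj
    exact absurd (Finset.mem_univ j) hj

end PCFib
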