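import Pool.Agent.H641.PCF.Defs

open MvPolynomial

namespace PCFib



theorem jac_scale_pderiv {K : Type*} [CommRing K] {N : ℕ} (R : K) (P : MvPolynomial (Fin N) K)
    (j : Fin N) : pderiv j (scale R P) = C R * scale R (pderiv j P) := by
  unfold scale
  induction P using MvPolynomial.induction_on with
  | C a => simp
  | add p q hp hq => simp only [map_add, hp, hq, mul_add]
  | mul_X p i hp =>
    simp only [map_mul, Derivation.leibniz, bind₁_X_right, smul_eq_mul, hp, map_add, pderiv_C,
      mul_zero, add_zero]
    rw [pderiv_X]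
    by_cases hij : i = j
    · subst hij
      simp
      ring
    · have h1 : (Pi.single j (1 : MvPolynomial (Fin N) K) : Fin N → MvPolynomial (Fin N) K) i = 0 :=
        Pi.single_eq_of_ne hij _
      rw [h1]
      simp
      ring

theorem jac_scale {O K : Type*} [CommRing O] [Field K] [Algebra O K]
    {N d : ℕ} (hd : 1 ≤ d) (f : PMap N K) (h : PMap N O) (R : K) (hR : R ≠ 0)
    (hs : ∀ i, scale R (f i) = C (R ^ d) * MvPolynomial.map (algebraMap O K) (h i)) :
    scale R (jac f) = C (R ^ (N * (d - 1))) * MvPolynomial.map (algebraMap O K) (jac h) := by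
  have hij : ∀ i j, scale R (pderiv j (f i))
      = C (R ^ (d - 1)) * MvPolynomial.map (algebraMap O K) (pderiv j (h i)) := by
    intro i j
    have h1 := jac_scale_pderiv R (f i) j
    rw [hs i, pderiv_C_mul] at h1
    have h2 : pderiv j (MvPolynomial.map (algebraMap O K) (h i))
        = MvPolynomial.map (algebraMap O K) (pderiv j (h i)) := by
      rw [pderiv_map]
    rw [h2] at h1
    have hC : (C R : MvPolynomial (Fin N) K) ≠ 0 := by
      rw [Ne, MvPolynomial.C_eq_zero]; exact hR
    apply mul_left_cancel₀ hC
    rw [← h1, ← mul_assoc, ← C_mul]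
    congr 2
    rw [← pow_succ']
    congr 1
    omega
  unfold jac
  have e1 : scale R (jacM f).det = ((jacM f).map (fun P => scale R P)).det := by
    unfold scale
    rw [AlgHom.map_det]
    rfl
  rw [e1]
  have e2 : (jacM f).map (fun P => scale R P)
      = (C (R ^ (d - 1)) : MvPolynomial (Fin N) K) •
        (MvPolynomial.map (algebraMap O K)).mapMatrix (jacM h) := by
    ext1 i j
    simp only [jacM, Matrix.map_apply, Matrix.of_apply, Matrix.smul_apply, RingHom.mapMatrix_apply,
      smul_eq_mul]
    exact hij i j
  rw [e2, Matrix.det_smul, Fintype.card_fin, ← RingHom.map_det, ← C_pow, ← pow_mul, mul_comm (d - 1) N]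

end PCFib
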