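import Pool.Agent.H641.PCF.Defs

open MvPolynomial

namespace PCFib



theorem exists_min833 {O K : Type*} [CommRing O] [IsDomain O] [ValuationRing O] [Field K]
    [Algebra O K] [IsFractionRing O K] {ι : Type*} (c : ι → K) (S : Finset ι) (hS : S.Nonempty)
    (hc : ∀ a ∈ S, c a ≠ 0) :
    ∃ a₀ ∈ S, ∀ a ∈ S, ∃ r : O, c a = algebraMap O K r * c a₀ := by
  classical
  induction S using Finset.induction_on with
  | empty => exact absurd hS Finset.not_nonempty_empty
  | insert a S ha ih =>
    rcases S.eq_empty_or_nonempty with h | h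
    · subst h
      refine ⟨a, Finset.mem_insert_self _ _, fun b hb => ⟨1, ?_⟩⟩
      rw [Finset.mem_insert] at hb
      rcases hb with rfl | hb
      · simp
      · simp at hb
    · obtain ⟨a₀, ha₀, hmin⟩ := ih h (fun b hb => hc b (Finset.mem_insert_of_mem hb))
      have hca : c a ≠ 0 := hc a (Finset.mem_insert_self _ _)
      have hca₀ : c a₀ ≠ 0 := hc a₀ (Finset.mem_insert_of_mem ha₀)
      rcases ValuationRing.isInteger_or_isInteger O (c a / c a₀) with ⟨r, hr⟩ | ⟨r, hr⟩
      · refine ⟨a₀, Finset.mem_insert_of_mem ha₀, fun b hb => ?_⟩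
        rw [Finset.mem_insert] at hb
        rcases hb with rfl | hb
        · refine ⟨r, ?_⟩
          rw [hr]
          field_simp
        · exact hmin b hb
      · refine ⟨a, Finset.mem_insert_self _ _, fun b hb => ?_⟩
        rw [Finset.mem_insert] at hb
        have h1 : c a₀ = algebraMap O K r * c a := by
          rw [hr]
          field_simp
        rcases hb with rfl | hb
        · exact ⟨1, by simp⟩
        · obtain ⟨t, ht⟩ := hmin b hb
          refine ⟨t * r, ?_⟩
          rw [ht, h1, map_mul]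
          ring

theorem exists_primitive {O K κ : Type*} [CommRing O] [IsDomain O] [ValuationRing O] [Field K]
    [Algebra O K] [IsFractionRing O K] [Field κ] (red : O →+* κ) (hred : ∀ x, red x = 0 ↔ ¬ IsUnit x)
    {N : ℕ} (Q : MvPolynomial (Fin N) K) (hQ : Q ≠ 0) :
    ∃ s : K, s ≠ 0 ∧ ∃ Q₁ : MvPolynomial (Fin N) O,
      Q = C s * MvPolynomial.map (algebraMap O K) Q₁ ∧ MvPolynomial.map red Q₁ ≠ 0 := by
  classical
  have hne : Q.support.Nonempty := by
    rw [Finset.nonempty_iff_ne_empty]
    intro h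
    exact hQ (MvPolynomial.support_eq_empty.1 h)
  obtain ⟨α₀, hα₀, hmin⟩ := exists_min833 (O := O) (fun α => coeff α Q) Q.support hne
    (fun α hα => MvPolynomial.mem_support_iff.1 hα)
  have hs : coeff α₀ Q ≠ 0 := MvPolynomial.mem_support_iff.1 hα₀
  have hmin' : ∀ α : Fin N →₀ ℕ, ∃ r : O, coeff α Q = algebraMap O K r * coeff α₀ Q ∧
      (α = α₀ → r = 1) := by
    intro α
    by_cases h0 : α = α₀
    · exact ⟨1, by rw [h0]; simp, fun _ => rfl⟩
    · by_cases h : α ∈ Q.support
      · obtain ⟨r, hr⟩ := hmin α h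
        exact ⟨r, hr, fun h1 => absurd h1 h0⟩
      · exact ⟨0, by rw [MvPolynomial.notMem_support_iff.1 h]; simp, fun h1 => absurd h1 h0⟩
  choose R hR hR1 using hmin'
  refine ⟨coeff α₀ Q, hs, ∑ α ∈ Q.support, monomial α (R α), ?_, ?_⟩
  · conv_lhs => rw [MvPolynomial.as_sum Q]
    rw [map_sum, Finset.mul_sum]
    apply Finset.sum_congr rfl
    intro α _
    rw [MvPolynomial.map_monomial, MvPolynomial.C_mul_monomial, hR α, mul_comm]
  · intro h
    have h1 := congrArg (coeff α₀) h
    rw [MvPolynomial.coeff_map, MvPolynomial.coeff_sum, Finset.sum_eq_single α₀, MvPolynomial.coeff_zero,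
      MvPolynomial.coeff_monomial, if_pos rfl, hR1 α₀ rfl, map_one] at h1
    · exact one_ne_zero h1
    · intro b _ hb
      rw [MvPolynomial.coeff_monomial, if_neg hb]
    · intro h2
      exact absurd hα₀ h2

end PCFib
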