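import Pool.Agent.H641.PCF.Defs
import Pool.Agent.H641.PCF.P_exists_primitive

open MvPolynomial

namespace PCFib



theorem j16053_coeff_scale {N : ℕ} {K : Type*} [CommRing K] (c : K)
    (P : MvPolynomial (Fin N) K) (α : Fin N →₀ ℕ) :
    coeff α (scale c P) = c ^ α.degree * coeff α P := by
  have key : ∀ (s : Fin N →₀ ℕ) (a : K), scale c (monomial s a) = monomial s (c ^ s.degree * a) := by
    intro s a
    unfold scale
    rw [bind₁_monomial, monomial_eq, Finsupp.prod]
    have h1 : ∏ i ∈ s.support, (C c * X i : MvPolynomial (Fin N) K) ^ s i =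
        C (c ^ s.degree) * ∏ i ∈ s.support, (X i : MvPolynomial (Fin N) K) ^ s i := by
      simp_rw [mul_pow]
      rw [Finset.prod_mul_distrib]
      congr 1
      rw [Finsupp.degree_apply, ← Finset.prod_pow_eq_pow_sum, map_prod]
      simp_rw [map_pow]
    rw [h1, C_mul]
    ring
  induction P using MvPolynomial.induction_on' with
  | monomial s a =>
    rw [key, coeff_monomial, coeff_monomial]
    split_ifs with h
    · rw [h]
    · simp
  | add p q hp hq =>
    have : scale c (p + q) = scale c p + scale c q := by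
      unfold scale
      rw [map_add]
    rw [this, coeff_add, hp, hq, coeff_add, mul_add]

theorem j16053_unit {O K : Type*} [CommRing O] [Field K] [Algebra O K] {N : ℕ} {S s : K}
    (hS : S ≠ 0) {δ : MvPolynomial (Fin N) K} {δ₁ : MvPolynomial (Fin N) O}
    (h : scale S δ = C s * MvPolynomial.map (algebraMap O K) δ₁) {α β : Fin N →₀ ℕ}
    (hα : IsUnit (coeff α δ₁)) (hβ : IsUnit (coeff β δ₁)) (hlt : α.degree < β.degree) :
    ∃ u : Oˣ, S ^ (β.degree - α.degree) * coeff β δ = algebraMap O K u * coeff α δ := by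
  obtain ⟨ua, hua⟩ := hα
  obtain ⟨ub, hub⟩ := hβ
  have h1 : S ^ α.degree * coeff α δ = s * algebraMap O K ua := by
    rw [← j16053_coeff_scale, h, coeff_C_mul, coeff_map, hua]
  have h2 : S ^ β.degree * coeff β δ = s * algebraMap O K ub := by
    rw [← j16053_coeff_scale, h, coeff_C_mul, coeff_map, hub]
  refine ⟨ub * ua⁻¹, ?_⟩
  have h3 : S ^ α.degree ≠ 0 := pow_ne_zero _ hS
  have h4 : S ^ β.degree = S ^ (β.degree - α.degree) * S ^ α.degree := by
    rw [← pow_add]
    congr 1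
    omega
  have h5 : algebraMap O K ((ub * ua⁻¹ : Oˣ) : O) * algebraMap O K ua = algebraMap O K ub := by
    rw [← map_mul, ← Units.val_mul]
    simp
  apply mul_right_cancel₀ h3
  calc S ^ (β.degree - α.degree) * coeff β δ * S ^ α.degree = S ^ β.degree * coeff β δ := by
        rw [h4]; ring
    _ = s * algebraMap O K ub := h2
    _ = algebraMap O K ((ub * ua⁻¹ : Oˣ) : O) * (s * algebraMap O K ua) := by rw [← h5]; ring
    _ = _ := by rw [← h1]; ring

theorem pigeon {O K κ : Type*} [CommRing O] [IsDomain O] [ValuationRing O] [Field K]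
    [Algebra O K] [IsFractionRing O K] [Field κ] (red : O →+* κ) (hred : ∀ x, red x = 0 ↔ ¬ IsUnit x)
    {N d : ℕ} (hd : 2 ≤ d) (R : K) (ρ : O) (hρ : algebraMap O K ρ * R = 1) (hρ0 : red ρ = 0)
    (δ : MvPolynomial (Fin N) K) (hδ : δ ≠ 0) :
    ∃ n : ℕ, 1 ≤ n ∧ ∃ s : K, s ≠ 0 ∧ ∃ δ₁ : MvPolynomial (Fin N) O,
      scale (R ^ (d ^ n)) δ = C s * MvPolynomial.map (algebraMap O K) δ₁ ∧
      MvPolynomial.map red δ₁ ≠ 0 ∧ ∃ m, (MvPolynomial.map red δ₁).IsHomogeneous m := by
  classical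
  by_contra hcon
  push Not at hcon
  have hR : R ≠ 0 := by
    rintro rfl
    simp at hρ
  have hSn : ∀ n : ℕ, R ^ (d ^ n) ≠ 0 := fun n => pow_ne_zero _ hR
  -- the pair for each n
  have hpair : ∀ n : {n : ℕ // 1 ≤ n}, ∃ p : (δ.support × δ.support : Type _),
      p.1.1.degree < p.2.1.degree ∧ ∃ u : Oˣ, (R ^ (d ^ n.1)) ^ (p.2.1.degree - p.1.1.degree) *
        coeff p.2.1 δ = algebraMap O K u * coeff p.1.1 δ := by
    rintro ⟨n, hn⟩
    have hne : scale (R ^ (d ^ n)) δ ≠ 0 := by
      obtain ⟨α, hα⟩ := MvPolynomial.ne_zero_iff.1 hδ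
      rw [MvPolynomial.ne_zero_iff]
      refine ⟨α, ?_⟩
      rw [j16053_coeff_scale]
      exact mul_ne_zero (pow_ne_zero _ (hSn n)) hα
    obtain ⟨s, hs, δ₁, h1, h2⟩ := exists_primitive red hred _ hne
    have h3 := hcon n hn s hs δ₁ h1 h2
    obtain ⟨α, hα⟩ := MvPolynomial.ne_zero_iff.1 h2
    have h4 := h3 α.degree
    have h5 : ∃ β, coeff β (MvPolynomial.map red δ₁) ≠ 0 ∧ β.degree ≠ α.degree := by
      by_contra h6
      push Not at h6
      apply h4
      intro β hβ
      have := h6 β hβ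
      rw [← this, Finsupp.degree_eq_weight_one (R := ℕ)]
      rfl
    obtain ⟨β, hβ, hne'⟩ := h5
    have hunit : ∀ γ, coeff γ (MvPolynomial.map red δ₁) ≠ 0 → IsUnit (coeff γ δ₁) := by
      intro γ hγ
      by_contra h7
      apply hγ
      rw [coeff_map]
      exact (hred _).2 h7
    have hsup : ∀ γ, IsUnit (coeff γ δ₁) → γ ∈ δ.support := by
      intro γ hγ
      rw [mem_support_iff]
      intro h8
      have h9 : (R ^ (d ^ n)) ^ γ.degree * coeff γ δ = s * algebraMap O K (coeff γ δ₁) := by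
        rw [← j16053_coeff_scale, h1, coeff_C_mul, coeff_map]
      rw [h8, mul_zero] at h9
      have h10 : algebraMap O K (coeff γ δ₁) ≠ 0 := (hγ.map (algebraMap O K)).ne_zero
      exact (mul_ne_zero hs h10) h9.symm
    rcases lt_or_gt_of_ne hne' with hlt | hlt
    · exact ⟨(⟨β, hsup β (hunit β hβ)⟩, ⟨α, hsup α (hunit α hα)⟩), hlt,
        j16053_unit (hSn n) h1 (hunit β hβ) (hunit α hα) hlt⟩
    · exact ⟨(⟨α, hsup α (hunit α hα)⟩, ⟨β, hsup β (hunit β hβ)⟩), hlt,
        j16053_unit (hSn n) h1 (hunit α hα) (hunit β hβ) hlt⟩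
  choose f hf1 hf2 using hpair
  have hinf : Infinite {n : ℕ // 1 ≤ n} :=
    Infinite.of_injective (fun n : ℕ => (⟨n + 1, by omega⟩ : {n : ℕ // 1 ≤ n})) (by
      intro a b hab
      simpa using hab)
  obtain ⟨n, n', hnn, hff⟩ := Finite.exists_ne_map_eq_of_infinite f
  have main : ∀ n n' : {n : ℕ // 1 ≤ n}, n.1 < n'.1 → f n = f n' → False := by
    intro n n' hlt hff
    obtain ⟨u, hu⟩ := hf2 n
    obtain ⟨u', hu'⟩ := hf2 n'
    have hk := hf1 n
    rw [← hff] at hu'
    set α := (f n).1.1 with hα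
    set β := (f n).2.1 with hβ
    set k := β.degree - α.degree with hkd
    have ha : coeff α δ ≠ 0 := mem_support_iff.1 (f n).1.2
    have hdlt : d ^ n.1 < d ^ n'.1 := Nat.pow_lt_pow_right (by omega) hlt
    set E := (d ^ n'.1 - d ^ n.1) * k with hE
    have hE0 : E ≠ 0 := by
      rw [hE]
      apply Nat.mul_ne_zero <;> omega
    have e1 : (R ^ d ^ n'.1) ^ k = (R ^ d ^ n.1) ^ k * R ^ E := by
      rw [← pow_mul, ← pow_mul, ← pow_add, hE, ← Nat.add_mul]
      congr 2
      omega
    have e2 : R ^ E * algebraMap O K u = algebraMap O K u' := by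
      apply mul_right_cancel₀ ha
      rw [← hu', e1, mul_assoc, ← hu]
      ring
    have e3 : R ^ E = algebraMap O K ((u' * u⁻¹ : Oˣ) : O) := by
      have : algebraMap O K (u : O) * algebraMap O K ((u⁻¹ : Oˣ) : O) = 1 := by
        rw [← map_mul]; simp
      rw [Units.val_mul, map_mul, ← e2, mul_assoc, this, mul_one]
    have e4 : algebraMap O K (ρ ^ E * ((u' * u⁻¹ : Oˣ) : O)) = algebraMap O K 1 := by
      rw [map_mul, ← e3, map_pow, ← mul_pow, hρ, one_pow, map_one]
    have e5 := IsFractionRing.injective O K e4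
    have e6 := congrArg red e5
    rw [map_mul, map_pow, hρ0, zero_pow hE0, zero_mul, map_one] at e6
    exact zero_ne_one e6
  rcases lt_or_gt_of_ne (fun h => hnn (Subtype.ext h) : n.1 ≠ n'.1) with h | h
  · exact main n n' h hff
  · exact main n' n h hff.symm

end PCFib
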