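import Pool.Agent.H641.PCF.Defs
import Pool.Agent.H641.PCF.P_exists_primitive

open MvPolynomial

namespace PCFib



theorem red_dvd {O K κ : Type*} [CommRing O] [IsDomain O] [ValuationRing O] [Field K]
    [Algebra O K] [IsFractionRing O K] [Field κ] (red : O →+* κ) (hred : ∀ x, red x = 0 ↔ ¬ IsUnit x)
    {N : ℕ} (J P : MvPolynomial (Fin N) O) (hJ : MvPolynomial.map red J ≠ 0)
    (h : MvPolynomial.map (algebraMap O K) J ∣ MvPolynomial.map (algebraMap O K) P) :
    MvPolynomial.map red J ∣ MvPolynomial.map red P := by
  have hinj : Function.Injective (MvPolynomial.map (σ := Fin N) (algebraMap O K)) :=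
    MvPolynomial.map_injective _ (IsFractionRing.injective O K)
  obtain ⟨Q, hQ⟩ := h
  by_cases hQ0 : Q = 0
  · rw [hQ0, mul_zero] at hQ
    have hP : P = 0 := hinj (by rw [hQ, map_zero])
    rw [hP, map_zero]
    exact dvd_zero _
  · obtain ⟨s, hs, Q₁, hQs, hQ₁⟩ := exists_primitive (K := K) red hred Q hQ0
    have key : ∀ s' : O, algebraMap O K s' = s →
        MvPolynomial.map red J ∣ MvPolynomial.map red P := by
      intro s' hs'
      have hP : P = J * (C s' * Q₁) := by
        apply hinj
        rw [hQ, hQs, map_mul, map_mul, MvPolynomial.map_C, hs']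
      rw [hP, map_mul]
      exact dvd_mul_right _ _
    rcases ValuationRing.isInteger_or_isInteger O s with ⟨s', hs'⟩ | ⟨t, ht⟩
    · exact key s' hs'
    · by_cases hu : IsUnit t
      · obtain ⟨u, rfl⟩ := hu
        refine key ((u⁻¹ : Oˣ) : O) ?_
        have h1 : algebraMap O K ((u⁻¹ : Oˣ) : O) * algebraMap O K (u : O) = 1 := by
          rw [← map_mul, Units.inv_mul, map_one]
        rw [ht] at h1
        have h2 := congrArg (fun y => y * s) h1
        simp only [mul_assoc, inv_mul_cancel₀ hs, mul_one, one_mul] at h2
        exact h2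
      · exfalso
        have hrt : red t = 0 := (hred t).mpr hu
        have hP : C t * P = J * Q₁ := by
          apply hinj
          rw [map_mul, map_mul, MvPolynomial.map_C, ht, hQ, hQs]
          have h3 : (C s⁻¹ : MvPolynomial (Fin N) K) * C s = 1 := by
            rw [← C_mul, inv_mul_cancel₀ hs, C_1]
          calc (C s⁻¹ : MvPolynomial (Fin N) K) * (MvPolynomial.map (algebraMap O K) J *
              (C s * MvPolynomial.map (algebraMap O K) Q₁))
              = (C s⁻¹ * C s) * (MvPolynomial.map (algebraMap O K) J *
                MvPolynomial.map (algebraMap O K) Q₁) := by ring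
            _ = _ := by rw [h3, one_mul]
        have h4 := congrArg (MvPolynomial.map red) hP
        rw [map_mul, map_mul, MvPolynomial.map_C, hrt, C_0, zero_mul] at h4
        exact mul_ne_zero hJ hQ₁ h4.symm

end PCFib
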