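import Pool.Agent.H641.PCF.Defs
import Pool.Agent.H641.PCF.P_jac_ne_zero
import Pool.Agent.H641.PCF.P_bind_inj
import Pool.Agent.H641.PCF.P_red_dvd
import Pool.Agent.H641.PCF.P_iter_scale
import Pool.Agent.H641.PCF.P_pigeon
import Pool.Agent.H641.PCF.P_jac_scale

open MvPolynomial

namespace PCFib



theorem jac_map137 {N : ℕ} {R S : Type*} [CommRing R] [CommRing S] (φ : R →+* S) (f : PMap N R) :
    jac (mapc φ f) = MvPolynomial.map φ (jac f) := by
  unfold jac
  rw [RingHom.map_det]
  congr 1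
  ext1 i j
  simp only [jacM, mapc, Matrix.of_apply, RingHom.mapMatrix_apply, Matrix.map_apply]
  rw [pderiv_map]

theorem tdmap137 {N : ℕ} {R S : Type*} [CommRing R] [CommRing S] (φ : R →+* S)
    (p : MvPolynomial (Fin N) R) : (MvPolynomial.map φ p).totalDegree ≤ p.totalDegree := by
  unfold totalDegree
  exact Finset.sup_mono (support_map_subset φ p)

theorem hasTop_map137 {N d : ℕ} {R S : Type*} [CommRing R] [CommRing S] (φ : R →+* S)
    (f g : PMap N R) (h : HasTop d f g) : HasTop d (mapc φ f) (mapc φ g) := by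
  intro i
  refine ⟨(h i).1.map φ, ?_⟩
  show (MvPolynomial.map φ (f i) - MvPolynomial.map φ (g i)).totalDegree < d
  rw [← map_sub]
  exact (tdmap137 _ _).trans_lt (h i).2

theorem scale_bind137 {N : ℕ} {K : Type*} [CommRing K] (c : K) (F : PMap N K)
    (P : MvPolynomial (Fin N) K) : scale c (bind₁ F P) = bind₁ (fun i => scale c (F i)) P := by
  unfold scale
  rw [bind₁_bind₁]

theorem bind_scale137 {N : ℕ} {K : Type*} [CommRing K] (c : K) (F : PMap N K)
    (P : MvPolynomial (Fin N) K) : bind₁ F (scale c P) = bind₁ (fun i => C c * F i) P := by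
  unfold scale
  rw [bind₁_bind₁]
  congr 1
  congr 1
  funext i
  rw [map_mul, bind₁_X_right, bind₁_C_right]

theorem iter_homog137 {N d : ℕ} {R : Type*} [CommRing R] (g : PMap N R)
    (hg : ∀ i, (g i).IsHomogeneous d) (n : ℕ) : ∀ i, (iter g n i).IsHomogeneous (d ^ n) := by
  induction n with
  | zero =>
    intro i
    rw [pow_zero]
    exact isHomogeneous_X R i
  | succ n ih =>
    intro i
    have := (hg i).aeval (iter g n) ih
    rw [pow_succ]
    exact this

theorem iter_ne137 {N : ℕ} {κ : Type*} [Field κ] [CharZero κ] (g : PMap N κ) (hg : jac g ≠ 0)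
    (n : ℕ) : ∀ P : MvPolynomial (Fin N) κ, P ≠ 0 → bind₁ (iter g n) P ≠ 0 := by
  induction n with
  | zero =>
    intro P hP
    show bind₁ X P ≠ 0
    rw [bind₁_X_left]
    exact hP
  | succ n ih =>
    intro P hP
    have h1 : bind₁ (iter g (n + 1)) P = bind₁ (iter g n) (bind₁ g P) := by
      rw [bind₁_bind₁]
      rfl
    rw [h1]
    refine ih _ fun h => hP ?_
    exact bind_inj g hg P h

theorem core_red {O K κ : Type*} [CommRing O] [IsDomain O] [ValuationRing O] [Field K]
    [Algebra O K] [IsFractionRing O K] [Field κ] [CharZero κ]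
    (red : O →+* κ) (hred : ∀ x, red x = 0 ↔ ¬ IsUnit x)
    {N d : ℕ} (hd : 2 ≤ d) (R : K) (ρ : O) (hρ : algebraMap O K ρ * R = 1) (hρ0 : red ρ = 0)
    (f : PMap N K) (h g : PMap N O) (hh : HasTop d h g) (hg : Reg (mapc red g))
    (hs : ∀ i, scale R (f i) = C (R ^ d) * MvPolynomial.map (algebraMap O K) (h i))
    (hPC : PC f) :
    ∃ ε : MvPolynomial (Fin N) κ, ε ≠ 0 ∧ (∃ m, ε.IsHomogeneous m) ∧
      jac (mapc red h) ∣ bind₁ (mapc red h) ε := by
  obtain ⟨δ, hδ, hdvd⟩ := hPC
  have hR : R ≠ 0 := by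
    rintro rfl
    rw [mul_zero] at hρ
    exact zero_ne_one hρ
  obtain ⟨n, hn, s, hs0, δ₁, hδ₁, hδ₁0, m, hm⟩ := pigeon red hred hd R ρ hρ hρ0 δ hδ
  obtain ⟨k, rfl⟩ : ∃ k, n = k + 1 := ⟨n - 1, by omega⟩
  obtain ⟨H, hH1, hH2⟩ := iter_scale red hd f h g hh R ρ hρ hρ0 hs k
  have ht : HasTop d (mapc red h) (mapc red g) := hasTop_map137 red h g hh
  have ht' : HasTop d (mapc red g) (mapc red g) := fun i => ⟨(ht i).1, by
    rw [sub_self, totalDegree_zero]; omega⟩
  have hjh : jac (mapc red h) ≠ 0 := jac_ne_zero (by omega) _ _ hg ht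
  have hjg : jac (mapc red g) ≠ 0 := jac_ne_zero (by omega) _ _ hg ht'
  refine ⟨bind₁ (iter (mapc red g) k) (MvPolynomial.map red δ₁),
    iter_ne137 _ hjg k _ hδ₁0, ⟨d ^ k * m, ?_⟩, ?_⟩
  · exact hm.aeval (iter (mapc red g) k) (iter_homog137 _ (fun i => (ht i).1) k)
  · have h1 : bind₁ (mapc red h) (bind₁ (iter (mapc red g) k) (MvPolynomial.map red δ₁)) =
        MvPolynomial.map red (bind₁ H δ₁) := by
      rw [bind₁_bind₁, map_bind₁]
      have h2 : (fun i => MvPolynomial.map red (H i)) = mapc red H := rfl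
      rw [h2, hH2]
      rfl
    rw [h1, jac_map137]
    refine red_dvd (K := K) red hred _ _ (by rw [← jac_map137]; exact hjh) ?_
    have h3 : scale R (jac f) ∣ scale R (bind₁ (iter f (k + 1)) δ) :=
      map_dvd (bind₁ fun i => C R * X i) (hdvd (k + 1) hn)
    rw [jac_scale (by omega) f h R hR hs] at h3
    have h4 : scale R (bind₁ (iter f (k + 1)) δ) =
        C s * MvPolynomial.map (algebraMap O K) (bind₁ H δ₁) := by
      rw [scale_bind137, map_bind₁]
      have h5 : C s * bind₁ (fun i => MvPolynomial.map (algebraMap O K) (H i))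
          (MvPolynomial.map (algebraMap O K) δ₁) =
          bind₁ (fun i => MvPolynomial.map (algebraMap O K) (H i))
          (C s * MvPolynomial.map (algebraMap O K) δ₁) := by
        rw [map_mul, bind₁_C_right]
      rw [h5, ← hδ₁, bind_scale137]
      have h6 : (fun i => scale R (iter f (k + 1) i)) = fun i =>
          C (R ^ d ^ (k + 1)) * MvPolynomial.map (algebraMap O K) (H i) := funext hH1
      rw [h6]
    rw [h4] at h3
    have h7 : MvPolynomial.map (algebraMap O K) (jac h) ∣
        C s * MvPolynomial.map (algebraMap O K) (bind₁ H δ₁) := (Dvd.intro_left _ rfl).trans h3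
    have hu : IsUnit (C s : MvPolynomial (Fin N) K) := (IsUnit.mk0 s hs0).map C
    exact (hu.dvd_mul_left).1 h7

end PCFib
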