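import Pool.Agent.H641.PCF.Defs

open MvPolynomial

namespace PCFib



theorem countable_subfield (S : Set ℂ) (hS : S.Countable) :
    ∃ K₀ : Subfield ℂ, (K₀ : Set ℂ).Countable ∧ S ⊆ K₀ ∧ ∀ z : ℂ, IsIntegral K₀ z → z ∈ K₀ := by
  let F : Subfield ℂ := Subfield.closure S
  have hF : Cardinal.mk F ≤ Cardinal.aleph0 := by
    refine (Subfield.cardinalMk_closure_le_max S).trans ?_
    apply max_le _ le_rfl
    exact Cardinal.mk_le_aleph0_iff.2 hS.to_subtype
  let L : IntermediateField F ℂ := algebraicClosure F ℂ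
  have hL : Cardinal.mk L ≤ Cardinal.aleph0 := by
    refine (Algebra.IsAlgebraic.cardinalMk_le_max F L).trans ?_
    exact max_le hF le_rfl
  refine ⟨L.toSubfield, ?_, ?_, ?_⟩
  · have h1 : Countable L := Cardinal.mk_le_aleph0_iff.1 hL
    exact Set.countable_coe_iff.1 h1
  · intro x hx
    have hxF : x ∈ F := Subfield.subset_closure hx
    show x ∈ L
    have := L.algebraMap_mem ⟨x, hxF⟩
    exact this
  · intro z hz
    have hz' : IsIntegral L z := hz
    have h2 : IsIntegral F z := isIntegral_trans z hz'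
    show z ∈ L
    rw [mem_algebraicClosure_iff]
    exact h2.isAlgebraic

end PCFib
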