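import Pool.Agent.H641.PCF.Defs
import Pool.Agent.H641.PCF.P_deriv_zero
import Pool.Agent.H641.PCF.P_integral_of_reg

open MvPolynomial

namespace PCFib



/-- the derivation with constant coefficients `c` -/
private noncomputable def dercst {k : Type*} [Field k] {N : ℕ} (c : Fin N → k) :
    Derivation k (MvPolynomial (Fin N) k) (MvPolynomial (Fin N) k) :=
  Derivation.mk' (∑ j, c j • (pderiv (R := k) j).toLinearMap) (by
    intro a b
    simp only [LinearMap.sum_apply, LinearMap.smul_apply]
    rw [Finset.smul_sum, Finset.smul_sum, ← Finset.sum_add_distrib]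
    apply Finset.sum_congr rfl
    intro j _
    show c j • (pderiv j) (a * b) = a • (c j • (pderiv j) b) + b • (c j • (pderiv j) a)
    rw [Derivation.leibniz, smul_add, smul_comm, smul_comm (c j) b])

private theorem dercst_apply {k : Type*} [Field k] {N : ℕ} (c : Fin N → k)
    (p : MvPolynomial (Fin N) k) : dercst c p = ∑ j, c j • pderiv j p := by
  show (∑ j, c j • (pderiv (R := k) j).toLinearMap) p = _
  simp only [LinearMap.sum_apply, LinearMap.smul_apply]
  rfl

/-- the linear map `c ↦ Σ c_j ∂_j g` -/
private noncomputable def Tmap {k : Type*} [Field k] {N : ℕ} (g : PMap N k) :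
    (Fin N → k) →ₗ[k] (Fin N → MvPolynomial (Fin N) k) where
  toFun c := fun i => ∑ j, c j • pderiv j (g i)
  map_add' c c' := by
    funext i
    simp only [Pi.add_apply, add_smul, Finset.sum_add_distrib]
  map_smul' r c := by
    funext i
    simp only [Pi.smul_apply, smul_eq_mul, RingHom.id_apply, Finset.smul_sum, mul_smul]

theorem lam_exists {k : Type*} [Field k] [CharZero k] {N d : ℕ} (hd : 1 ≤ d) (g : PMap N k)
    (hg : Reg g) (hgh : ∀ i, (g i).IsHomogeneous d) :
    ∃ a : Fin N → Fin N → (Fin N →₀ ℕ) → k, (∀ l i α, a l i α ≠ 0 → α.degree = d - 1) ∧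
      ∀ l j, Lam a (RingHom.id k) (fun i => pderiv j (g i)) l = if l = j then 1 else 0 := by
  classical
  have htop : HasTop d g g := fun i => ⟨hgh i, by rw [sub_self, totalDegree_zero]; omega⟩
  have hker : LinearMap.ker (Tmap g) = ⊥ := by
    rw [LinearMap.ker_eq_bot']
    intro c hc
    funext j
    have hDg : ∀ i, dercst c (g i) = 0 := by
      intro i
      rw [dercst_apply]
      exact congrFun hc i
    have hA : ∀ a ∈ Algebra.adjoin k (Set.range g), dercst c a = 0 := by
      intro a ha
      induction ha using Algebra.adjoin_induction with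
      | mem x hx =>
        obtain ⟨i, rfl⟩ := hx
        exact hDg i
      | algebraMap r => exact (dercst c).map_algebraMap r
      | add x y _ _ hx hy => rw [map_add, hx, hy, add_zero]
      | mul x y _ _ hx hy => rw [Derivation.leibniz, hx, hy, smul_zero, smul_zero, add_zero]
    have h1 := deriv_zero (dercst c) (Algebra.adjoin k (Set.range g)) hA (X j)
      (integral_of_reg hd g g hg htop j)
    rw [dercst_apply, Finset.sum_eq_single j] at h1
    · rw [pderiv_X_self] at h1
      have h2 : c j • (1 : MvPolynomial (Fin N) k) = C (c j) := by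
        rw [smul_eq_C_mul, mul_one]
      rw [h2, C_eq_zero] at h1
      exact h1
    · intro i _ hij
      rw [pderiv_X_of_ne (Ne.symm hij), smul_zero]
    · intro h
      exact absurd (Finset.mem_univ j) h
  obtain ⟨Λ, hΛ⟩ := LinearMap.exists_leftInverse_of_injective (Tmap g) hker
  have hT : ∀ j, Λ (fun i => pderiv j (g i)) = Pi.single j 1 := by
    intro j
    have h1 : Tmap g (Pi.single j 1) = fun i => pderiv j (g i) := by
      funext i
      show ∑ j', (Pi.single j (1:k) : Fin N → k) j' • pderiv j' (g i) = _
      rw [Finset.sum_eq_single j]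
      · rw [Pi.single_eq_same, one_smul]
      · intro b _ hb
        rw [Pi.single_eq_of_ne hb, zero_smul]
      · intro h
        exact absurd (Finset.mem_univ j) h
    rw [← h1]
    have := LinearMap.congr_fun hΛ (Pi.single j 1)
    simpa using this
  refine ⟨fun l i α => if α.degree = d - 1 then Λ (Pi.single i (monomial α 1)) l else 0,
    fun l i α h => ?_, fun l j => ?_⟩
  · by_contra hcon
    exact h (if_neg hcon)
  · have h1 : (fun i => pderiv j (g i)) = ∑ i, Pi.single i (pderiv j (g i)) := by
      funext i
      rw [Finset.sum_apply, Finset.sum_eq_single i]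
      · rw [Pi.single_eq_same]
      · intro b _ hb
        rw [Pi.single_eq_of_ne (Ne.symm hb)]
      · intro h
        exact absurd (Finset.mem_univ i) h
    have h2 : Λ (fun i => pderiv j (g i)) l = ∑ i, ∑ α ∈ (pderiv j (g i)).support,
        coeff α (pderiv j (g i)) * Λ (Pi.single i (monomial α 1)) l := by
      rw [h1, map_sum, Finset.sum_apply]
      apply Finset.sum_congr rfl
      intro i _
      have h3 : (Pi.single i (pderiv j (g i)) : Fin N → MvPolynomial (Fin N) k)
          = ∑ α ∈ (pderiv j (g i)).support, coeff α (pderiv j (g i)) •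
            (Pi.single i (monomial α 1) : Fin N → MvPolynomial (Fin N) k) := by
        conv_lhs => rw [(pderiv j (g i)).as_sum]
        funext i'
        by_cases hi : i' = i
        · subst hi
          rw [Pi.single_eq_same, Finset.sum_apply]
          apply Finset.sum_congr rfl
          intro α _
          rw [Pi.smul_apply, Pi.single_eq_same, smul_monomial, smul_eq_mul, mul_one]
        · rw [Pi.single_eq_of_ne hi, Finset.sum_apply, Finset.sum_eq_zero]
          intro α _
          rw [Pi.smul_apply, Pi.single_eq_of_ne hi, smul_zero]
      rw [h3, map_sum, Finset.sum_apply]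
      apply Finset.sum_congr rfl
      intro α _
      rw [map_smul, Pi.smul_apply, smul_eq_mul]
    rw [hT j] at h2
    have h4 : Lam (fun l i α => if α.degree = d - 1 then Λ (Pi.single i (monomial α 1)) l else 0)
        (RingHom.id k) (fun i => pderiv j (g i)) l = (Pi.single j (1:k) : Fin N → k) l := by
      rw [h2]
      unfold Lam
      apply Finset.sum_congr rfl
      intro i _
      apply Finset.sum_congr rfl
      intro α hα
      have h5 : (pderiv j (g i)).IsHomogeneous (d - 1) := (hgh i).pderiv
      have h6 : α.degree = d - 1 := by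
        have := h5 (mem_support_iff.1 hα)
        rw [← this, Finsupp.degree_eq_weight_one]
        rfl
      simp only [if_pos h6, RingHom.id_apply]
      rw [mul_comm]
    rw [h4]
    by_cases hlj : l = j
    · subst hlj; simp
    · rw [if_neg hlj, Pi.single_eq_of_ne hlj]

end PCFib
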