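import Pool.Agent.H641.PCF.Defs

open MvPolynomial

namespace PCFib



theorem j16192_eval_iter {N : ℕ} (f : PMap N ℂ) (n : ℕ) (z : Fin N → ℂ) :
    (fun i => eval z (iter f n i)) = (ev f)^[n] z := by
  induction n with
  | zero => funext i; simp [iter]
  | succ n ih =>
    rw [Function.iterate_succ_apply', ← ih]
    funext i
    show eval z (bind₁ (iter f n) (f i)) = eval (fun i => eval z (iter f n i)) (f i)
    rw [← MvPolynomial.coe_aeval_eq_eval, AlgHom.coe_toRingHom, MvPolynomial.aeval_bind₁,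
      ← MvPolynomial.coe_aeval_eq_eval, AlgHom.coe_toRingHom]

theorem j16192_eval_bind {N : ℕ} (f : PMap N ℂ) (n : ℕ) (z : Fin N → ℂ)
    (δ : MvPolynomial (Fin N) ℂ) :
    eval z (bind₁ (iter f n) δ) = eval ((ev f)^[n] z) δ := by
  rw [← j16192_eval_iter]
  rw [← MvPolynomial.coe_aeval_eq_eval, AlgHom.coe_toRingHom, MvPolynomial.aeval_bind₁,
      ← MvPolynomial.coe_aeval_eq_eval, AlgHom.coe_toRingHom]

theorem j16192_prime_dvd {N : ℕ} (p P : MvPolynomial (Fin N) ℂ) (hp : Prime p)
    (h : ∀ z, eval z p = 0 → eval z P = 0) : p ∣ P := by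
  have hI : (Ideal.span {p}).IsPrime := (Ideal.span_singleton_prime hp.ne_zero).2 hp
  have h1 := MvPolynomial.IsPrime.vanishingIdeal_zeroLocus (K := ℂ) (Ideal.span {p})
  rw [← Ideal.mem_span_singleton, ← h1, MvPolynomial.mem_vanishingIdeal_iff]
  intro z hz
  rw [MvPolynomial.mem_zeroLocus_iff] at hz
  have h2 := hz p (Ideal.mem_span_singleton_self p)
  have h3 := h z (by rw [← MvPolynomial.coe_aeval_eq_eval]; exact h2)
  rw [← MvPolynomial.coe_aeval_eq_eval] at h3
  exact h3

theorem j16192_prod_dvd {R : Type*} [CommRing R] (P : R) (s : Multiset R)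
    (h : ∀ p ∈ s, p ∣ P) : s.prod ∣ P ^ (Multiset.card s) := by
  induction s using Multiset.induction_on with
  | empty => simp
  | cons a s ih =>
    rw [Multiset.prod_cons, Multiset.card_cons, pow_succ']
    exact mul_dvd_mul (h a (Multiset.mem_cons_self a s))
      (ih fun p hp => h p (Multiset.mem_cons_of_mem hp))

theorem pc_of_pcset {N : ℕ} (f : PMap N ℂ) (hJ : jac f ≠ 0) (hp : PCset f) : PC f := by
  obtain ⟨δ, hδ, h⟩ := hp
  set s := UniqueFactorizationMonoid.factors (jac f) with hs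
  refine ⟨δ ^ (Multiset.card s), pow_ne_zero _ hδ, fun n hn => ?_⟩
  have h1 : ∀ p ∈ s, p ∣ bind₁ (iter f n) δ := by
    intro p hps
    have hprime : Prime p := UniqueFactorizationMonoid.prime_of_factor p hps
    apply j16192_prime_dvd _ _ hprime
    intro z hz
    rw [j16192_eval_bind]
    apply h n hn z
    obtain ⟨q, hq⟩ := UniqueFactorizationMonoid.dvd_of_mem_factors hps
    rw [hq, map_mul, hz, zero_mul]
  have h2 := j16192_prod_dvd _ s h1
  rw [map_pow]
  exact (UniqueFactorizationMonoid.factors_prod hJ).symm.dvd.trans h2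

end PCFib
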