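import Pool.Agent.H641.PCF.Defs

open MvPolynomial

namespace PCFib


theorem pcset_conj_eval_bind {N : ℕ} (z : Fin N → ℂ) (g : PMap N ℂ) (p : MvPolynomial (Fin N) ℂ) :
    eval z (bind₁ g p) = eval (ev g z) p := by
  exact eval₂Hom_bind₁ (RingHom.id ℂ) z g p

theorem pcset_conj_ev_comp {N : ℕ} (f g : PMap N ℂ) (z : Fin N → ℂ) :
    ev (comp f g) z = ev f (ev g z) := by
  funext i
  exact pcset_conj_eval_bind z g (f i)

theorem pcset_conj_chain {N : ℕ} (v : PMap N ℂ) (k : Fin N) (p : MvPolynomial (Fin N) ℂ) :
    pderiv k (bind₁ v p) = ∑ j, bind₁ v (pderiv j p) * pderiv k (v j) := by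
  induction p using MvPolynomial.induction_on with
  | C a => simp
  | add p q hp hq =>
    simp only [map_add, hp, hq, add_mul, Finset.sum_add_distrib]
  | mul_X p i hp =>
    rw [map_mul, bind₁_X_right, pderiv_mul, hp]
    simp only [pderiv_mul, map_add, map_mul, bind₁_X_right, add_mul, Finset.sum_add_distrib]
    congr 1
    · rw [Finset.sum_mul]
      refine Finset.sum_congr rfl (fun j _ => ?_)
      ring
    · rw [Finset.sum_eq_single i]
      · simp
      · intro j _ hj
        rw [pderiv_X_of_ne (Ne.symm hj)]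
        simp
      · intro h
        exact absurd (Finset.mem_univ _) h

theorem pcset_conj_jac_comp {N : ℕ} (u v : PMap N ℂ) :
    jac (comp u v) = bind₁ v (jac u) * jac v := by
  unfold jac
  have h1 : jacM (comp u v) = ((bind₁ v).mapMatrix (jacM u)) * jacM v := by
    ext1 i k
    rw [Matrix.mul_apply]
    simp only [jacM, Matrix.of_apply, comp, AlgHom.mapMatrix_apply, Matrix.map_apply]
    exact pcset_conj_chain v k (u i)
  rw [h1, Matrix.det_mul, AlgHom.map_det]

theorem pcset_conj_jac_X {N : ℕ} : jac (X : PMap N ℂ) = 1 := by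
  unfold jac
  have h1 : jacM (X : PMap N ℂ) = 1 := by
    ext1 i k
    simp only [jacM, Matrix.of_apply, Matrix.one_apply]
    by_cases h : i = k
    · subst h; simp
    · rw [if_neg h, pderiv_X_of_ne h]
  rw [h1, Matrix.det_one]

theorem pcset_conj_aff {N : ℕ} (e : (Fin N → ℂ) ≃ᵃ[ℂ] (Fin N → ℂ)) :
    ∃ L : PMap N ℂ, ∀ z, ev L z = e z := by
  refine ⟨fun i => C (e 0 i) + ∑ j, C ((e.linear (Pi.single j 1)) i) * X j, ?_⟩
  intro z
  have h1 : e z = e.linear z + e 0 := by
    have := e.map_vadd 0 z
    simpa using this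
  have h2 : e.linear z = ∑ j, z j • e.linear (Pi.single j 1) := by
    conv_lhs => rw [pi_eq_sum_univ' z]
    rw [map_sum]
    refine Finset.sum_congr rfl (fun j _ => ?_)
    rw [map_smul]
  funext i
  rw [h1, h2]
  simp only [ev, map_add, eval_C, map_sum, map_mul, eval_X, Pi.add_apply, Finset.sum_apply,
    Pi.smul_apply, smul_eq_mul]
  rw [add_comm]
  congr 1
  refine Finset.sum_congr rfl (fun j _ => ?_)
  ring

theorem pcset_conj {N : ℕ} (f f' : PMap N ℂ) (hc : AffConj f f') (hp : PCset f) : PCset f' := by
  obtain ⟨e, he⟩ := hc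
  obtain ⟨δ, hδ, hδ2⟩ := hp
  obtain ⟨L, hL⟩ := pcset_conj_aff e
  obtain ⟨L', hL'⟩ := pcset_conj_aff e.symm
  have hf' : f' = comp L' (comp f L) := by
    funext i
    apply MvPolynomial.funext
    intro z
    have h1 : ev f' z = ev (comp L' (comp f L)) z := by
      rw [pcset_conj_ev_comp, pcset_conj_ev_comp, hL, hL', he]
    exact congrFun h1 i
  have hX : comp L' L = X := by
    funext i
    apply MvPolynomial.funext
    intro z
    have h1 : ev (comp L' L) z = z := by
      rw [pcset_conj_ev_comp, hL, hL', e.symm_apply_apply]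
    have h2 := congrFun h1 i
    rw [eval_X]
    exact h2
  have hone : ∀ z, eval (e z) (jac L') * eval z (jac L) = 1 := by
    intro z
    have h1 := pcset_conj_jac_comp L' L
    rw [hX, pcset_conj_jac_X] at h1
    have h2 := congrArg (eval z) h1
    rw [map_one, map_mul, pcset_conj_eval_bind, hL] at h2
    exact h2.symm
  have hnL : ∀ z, eval z (jac L) ≠ 0 := by
    intro z h
    have := hone z
    rw [h, mul_zero] at this
    exact zero_ne_one this
  have hnL' : ∀ z, eval z (jac L') ≠ 0 := by
    intro z h
    have := hone (e.symm z)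
    rw [e.apply_symm_apply, h, zero_mul] at this
    exact zero_ne_one this
  refine ⟨bind₁ L δ, ?_, ?_⟩
  · intro h
    apply hδ
    apply MvPolynomial.funext
    intro y
    have h1 := congrArg (eval (e.symm y)) h
    rw [pcset_conj_eval_bind, hL, e.apply_symm_apply] at h1
    rw [h1, map_zero, map_zero]
  · intro n hn z hz
    have h1 : eval (e z) (jac f) = 0 := by
      rw [hf', pcset_conj_jac_comp, pcset_conj_jac_comp, map_mul, map_mul,
        pcset_conj_eval_bind, pcset_conj_eval_bind, hL] at hz
      rcases mul_eq_zero.1 hz with h | h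
      · exact absurd h (hnL' _)
      · rcases mul_eq_zero.1 h with h | h
        · exact h
        · exact absurd h (hnL _)
    have h2 := hδ2 n hn (e z) h1
    have hsemi : Function.Semiconj e (ev f') (ev f) := by
      intro w
      rw [he, e.apply_symm_apply]
    have h3 := (hsemi.iterate_right n) z
    rw [pcset_conj_eval_bind, hL, h3]
    exact h2

end PCFib
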