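import Pool.Agent.H641.PCF.Defs

open MvPolynomial

namespace PCFib



theorem hasTop_of_regular {N d : ℕ} (hd : 1 ≤ d) (f : PMap N ℂ) (hf : IsRegularEndo d f) :
    HasTop d f (topPart d f) := by
  intro i
  refine ⟨homogeneousComponent_isHomogeneous d _, ?_⟩
  rw [MvPolynomial.totalDegree]
  rw [Finset.sup_lt_iff (by rw [Nat.bot_eq_zero]; omega)]
  intro s hs
  rw [MvPolynomial.mem_support_iff, coeff_sub, topPart, coeff_homogeneousComponent] at hs
  have h1 : s.degree ≠ d := by
    intro h
    rw [if_pos h, sub_self] at hs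
    exact hs rfl
  rw [if_neg h1, sub_zero] at hs
  have h2 := (MvPolynomial.le_totalDegree (MvPolynomial.mem_support_iff.mpr hs)).trans (hf.1 i)
  have h3 : (s.sum fun _ e => e) = s.degree := rfl
  rw [h3] at h2 ⊢
  omega

end PCFib
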