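import Pool.Agent.H641.PCF.Defs

open MvPolynomial

namespace PCFib



theorem nonvanish {N : ℕ} (P : ℕ → MvPolynomial (Fin N) ℂ) (hP : ∀ n, P n ≠ 0) :
    ∃ z : Fin N → ℂ, ∀ n, eval z (P n) ≠ 0 := by
  induction N with
  | zero =>
    refine ⟨fun _ => 0, fun n => ?_⟩
    have h1 := MvPolynomial.eq_C_of_isEmpty (P n)
    intro h2
    apply hP n
    rw [h1] at h2 ⊢
    rw [eval_C] at h2
    rw [h2, map_zero]
  | succ N ih =>
    have hQ : ∀ n, finSuccEquiv ℂ N (P n) ≠ 0 := by
      intro n h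
      exact hP n ((finSuccEquiv ℂ N).map_eq_zero_iff.mp h)
    obtain ⟨z', hz'⟩ := ih (fun n => (finSuccEquiv ℂ N (P n)).leadingCoeff)
      (fun n => Polynomial.leadingCoeff_ne_zero.mpr (hQ n))
    have hmap : ∀ n, Polynomial.map (eval z') (finSuccEquiv ℂ N (P n)) ≠ 0 := by
      intro n h
      apply hz' n
      have h1 := congrArg (fun q => Polynomial.coeff q (finSuccEquiv ℂ N (P n)).natDegree) h
      simp only [Polynomial.coeff_map, Polynomial.coeff_zero] at h1
      exact h1
    obtain ⟨t, ht⟩ : ∃ t : ℂ, t ∉ ⋃ n, {t : ℂ | Polynomial.IsRoot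
        (Polynomial.map (eval z') (finSuccEquiv ℂ N (P n))) t} := by
      by_contra hcon
      push Not at hcon
      apply not_countable_complex
      refine (Set.countable_iUnion fun n => ?_).mono (fun t _ => hcon t)
      exact (Polynomial.finite_setOfPred_isRoot (hmap n)).countable
    refine ⟨Fin.cons t z', fun n => ?_⟩
    rw [eval_eq_eval_mv_eval']
    intro h
    exact ht (Set.mem_iUnion.mpr ⟨n, h⟩)

end PCFib
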