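import Pool.Agent.H641.PCF.Defs

open MvPolynomial

namespace PCFib



theorem eval_smul_hom {n k : ℕ} {p : MvPolynomial (Fin n) ℂ} (hp : p.IsHomogeneous k) (c : ℂ)
    (u : Fin n → ℂ) : eval (c • u) p = c ^ k * eval u p := by
  rw [eval_eq, eval_eq, Finset.mul_sum]
  refine Finset.sum_congr rfl fun s hs => ?_
  have h1 := hp.degree_eq_sum_deg_support hs
  have h2 : ∏ i ∈ s.support, (c • u) i ^ s i = c ^ k * ∏ i ∈ s.support, u i ^ s i := by
    simp only [Pi.smul_apply, smul_eq_mul, mul_pow]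
    rw [Finset.prod_mul_distrib, Finset.prod_pow_eq_pow_sum, ← h1]
  rw [h2]
  ring

theorem sum_hc {N d : ℕ} (p : MvPolynomial (Fin N) ℂ) (hp : p.totalDegree ≤ d) :
    ∑ j ∈ Finset.range (d + 1), homogeneousComponent j p = p := by
  conv_rhs => rw [← sum_homogeneousComponent p]
  symm
  apply Finset.sum_subset
  · intro j hj
    rw [Finset.mem_range] at hj ⊢
    omega
  · intro j _ hj
    rw [Finset.mem_range, not_lt] at hj
    exact homogeneousComponent_eq_zero _ _ (by omega)

theorem homog_zero {N d : ℕ} (f : PMap N ℂ) : homog d f 0 = X 0 ^ d := rfl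

theorem homog_succ {N d : ℕ} (f : PMap N ℂ) (i : Fin N) : homog d f i.succ =
    ∑ j ∈ Finset.range (d + 1), X 0 ^ (d - j) * rename Fin.succ (homogeneousComponent j (f i)) :=
  rfl

theorem homog_isHom {N d : ℕ} (f : PMap N ℂ) (i : Fin (N + 1)) :
    (homog d f i).IsHomogeneous d := by
  refine Fin.cases ?_ (fun i => ?_) i
  · rw [homog_zero]
    have := (isHomogeneous_X ℂ (0 : Fin (N + 1))).pow d
    rwa [one_mul] at this
  · rw [homog_succ]
    apply IsHomogeneous.sum
    intro j hj
    have h1 := (isHomogeneous_X ℂ (0 : Fin (N + 1))).pow (d - j)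
    have h2 : (rename (Fin.succ : Fin N → Fin (N + 1)) (homogeneousComponent j (f i))).IsHomogeneous
      j := (homogeneousComponent_isHomogeneous j (f i)).rename_isHomogeneous
    have h3 := h1.mul h2
    rw [Finset.mem_range] at hj
    have e : 1 * (d - j) + j = d := by omega
    rwa [e] at h3

theorem ev_homog_zero {N d : ℕ} (f : PMap N ℂ) (u : Fin (N + 1) → ℂ) :
    ev (homog d f) u 0 = u 0 ^ d := by
  show eval u (homog d f 0) = _
  rw [homog_zero, map_pow, eval_X]

theorem eval_rename_cons {N : ℕ} (z : Fin N → ℂ) (p : MvPolynomial (Fin N) ℂ) :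
    eval (Fin.cons 1 z : Fin (N + 1) → ℂ) (rename Fin.succ p) = eval z p := by
  rw [eval_rename]
  congr 1

theorem ev_homog_cons {N d : ℕ} (f : PMap N ℂ) (hf : ∀ i, (f i).totalDegree ≤ d) (z : Fin N → ℂ) :
    ev (homog d f) (Fin.cons 1 z : Fin (N + 1) → ℂ) = (Fin.cons 1 (ev f z) : Fin (N + 1) → ℂ) := by
  funext i
  refine Fin.cases ?_ (fun i => ?_) i
  · rw [ev_homog_zero, Fin.cons_zero, one_pow, Fin.cons_zero]
  · rw [Fin.cons_succ]
    show eval _ (homog d f i.succ) = eval z (f i)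
    rw [homog_succ, map_sum]
    conv_rhs => rw [← sum_hc (f i) (hf i), map_sum]
    refine Finset.sum_congr rfl fun j _ => ?_
    rw [map_mul, map_pow, eval_X, Fin.cons_zero, one_pow, one_mul, eval_rename_cons]

theorem ev_homog_smul {N d : ℕ} (f : PMap N ℂ) (c : ℂ) (u : Fin (N + 1) → ℂ) :
    ev (homog d f) (c • u) = c ^ d • ev (homog d f) u := by
  funext i
  exact eval_smul_hom (homog_isHom f i) c u

theorem iter_homog_cons {N d : ℕ} (f : PMap N ℂ) (hf : ∀ i, (f i).totalDegree ≤ d) (m : ℕ)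
    (z : Fin N → ℂ) : (ev (homog d f))^[m] (Fin.cons 1 z : Fin (N + 1) → ℂ) =
      (Fin.cons 1 ((ev f)^[m] z) : Fin (N + 1) → ℂ) := by
  induction m with
  | zero => rfl
  | succ m ih =>
    rw [Function.iterate_succ_apply', ih, ev_homog_cons f hf, Function.iterate_succ_apply' (ev f)]

theorem iter_homog_smul {N d : ℕ} (f : PMap N ℂ) (m : ℕ) (c : ℂ) (u : Fin (N + 1) → ℂ) :
    (ev (homog d f))^[m] (c • u) = c ^ (d ^ m) • (ev (homog d f))^[m] u := by
  induction m with
  | zero => simp
  | succ m ih =>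
    rw [Function.iterate_succ_apply', ih, ev_homog_smul, ← pow_mul, ← pow_succ,
      Function.iterate_succ_apply' _ m u]

theorem iter_homog_zero {N d : ℕ} (f : PMap N ℂ) (m : ℕ) (u : Fin (N + 1) → ℂ) :
    (ev (homog d f))^[m] u 0 = u 0 ^ (d ^ m) := by
  induction m with
  | zero => simp
  | succ m ih =>
    rw [Function.iterate_succ_apply', ev_homog_zero, ih, ← pow_mul, ← pow_succ]

theorem eval_jac {n : ℕ} (G : PMap n ℂ) (u : Fin n → ℂ) :
    eval u (jac G) = (Matrix.of fun i j => eval u (pderiv j (G i))).det := by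
  unfold jac
  rw [RingHom.map_det]
  rfl

theorem eval_jac_smul {N d : ℕ} (f : PMap N ℂ) (c : ℂ) (u : Fin (N + 1) → ℂ) :
    eval (c • u) (jac (homog d f)) = (c ^ (d - 1)) ^ (N + 1) * eval u (jac (homog d f)) := by
  rw [eval_jac, eval_jac]
  have h1 : (Matrix.of fun i j => eval (c • u) (pderiv j (homog d f i))) =
      (c ^ (d - 1)) • (Matrix.of fun i j => eval u (pderiv j (homog d f i))) := by
    ext i j
    rw [Matrix.smul_apply, Matrix.of_apply, Matrix.of_apply, smul_eq_mul]
    exact eval_smul_hom (homog_isHom f i).pderiv c u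
  rw [h1, Matrix.det_smul, Fintype.card_fin]

theorem eval_jac_cons {N d : ℕ} (f : PMap N ℂ) (hf : ∀ i, (f i).totalDegree ≤ d)
    (z : Fin N → ℂ) : eval (Fin.cons 1 z : Fin (N + 1) → ℂ) (jac (homog d f)) =
      d * eval z (jac f) := by
  rw [eval_jac, eval_jac, Matrix.det_succ_row_zero, Finset.sum_eq_single 0]
  · have h0 : (Matrix.of fun i j => eval (Fin.cons 1 z : Fin (N + 1) → ℂ)
        (pderiv j (homog d f i))) 0 0 = d := by
      rw [Matrix.of_apply, homog_zero, pderiv_pow, pderiv_X_self]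
      simp
    rw [h0]
    have h1 : (Matrix.of fun i j => eval (Fin.cons 1 z : Fin (N + 1) → ℂ)
        (pderiv j (homog d f i))).submatrix Fin.succ (Fin.succAbove 0) =
        (Matrix.of fun i j => eval z (pderiv j (f i))) := by
      ext i j
      rw [Matrix.submatrix_apply, Matrix.of_apply, Matrix.of_apply, Fin.succAbove_zero, homog_succ,
        map_sum, map_sum]
      conv_rhs => rw [← sum_hc (f i) (hf i), map_sum, map_sum]
      refine Finset.sum_congr rfl fun l _ => ?_
      have h2 : pderiv j.succ (X (0 : Fin (N + 1)) ^ (d - l) : MvPolynomial (Fin (N + 1)) ℂ) = 0 := by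
        rw [pderiv_pow, pderiv_X_of_ne (Fin.succ_ne_zero j).symm, mul_zero]
      rw [pderiv_mul, h2, zero_mul, zero_add, pderiv_rename (Fin.succ_injective N), map_mul,
        map_pow, eval_X, Fin.cons_zero, one_pow, one_mul, eval_rename_cons]
    rw [h1]
    simp
  · intro j _ hj
    have h0 : (Matrix.of fun i j => eval (Fin.cons 1 z : Fin (N + 1) → ℂ)
        (pderiv j (homog d f i))) 0 j = 0 := by
      rw [Matrix.of_apply, homog_zero, pderiv_pow, pderiv_X_of_ne (Ne.symm hj), mul_zero, map_zero]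
    rw [h0, mul_zero, zero_mul]
  · intro h
    exact absurd (Finset.mem_univ _) h

theorem postcrit_affine {N d : ℕ} (hd : 1 ≤ d) (f : PMap N ℂ) (hf : IsRegularEndo d f)
    (y : Fin N → ℂ) :
    (Fin.cons 1 y : Fin (N + 1) → ℂ) ∈ postcritical (homog d f) ↔
      ∃ m : ℕ, 1 ≤ m ∧ ∃ z : Fin N → ℂ, eval z (jac f) = 0 ∧ (ev f)^[m] z = y := by
  have hf' := hf.1
  constructor
  · rintro ⟨m, hm, u, hu, hju, c, hc, he⟩
    have h0 : (1 : ℂ) = c * u 0 ^ (d ^ m) := by
      have := congrFun he 0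
      rw [Fin.cons_zero, Pi.smul_apply, iter_homog_zero, smul_eq_mul] at this
      exact this
    have hu0 : u 0 ≠ 0 := by
      intro h
      rw [h, zero_pow (pow_pos (by omega) m).ne', mul_zero] at h0
      exact one_ne_zero h0
    set z : Fin N → ℂ := fun i => u i.succ / u 0 with hz
    have hue : u = u 0 • (Fin.cons 1 z : Fin (N + 1) → ℂ) := by
      funext i
      refine Fin.cases ?_ (fun i => ?_) i
      · rw [Pi.smul_apply, Fin.cons_zero, smul_eq_mul, mul_one]
      · rw [Pi.smul_apply, Fin.cons_succ, smul_eq_mul, hz]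
        field_simp
    refine ⟨m, hm, z, ?_, ?_⟩
    · rw [hue, eval_jac_smul, eval_jac_cons f hf'] at hju
      have h1 : (u 0 ^ (d - 1)) ^ (N + 1) ≠ 0 := pow_ne_zero _ (pow_ne_zero _ hu0)
      have h2 : (d : ℂ) ≠ 0 := Nat.cast_ne_zero.2 (by omega)
      exact (mul_eq_zero.1 ((mul_eq_zero.1 hju).resolve_left h1)).resolve_left h2
    · have h1 : (ev (homog d f))^[m] u = u 0 ^ (d ^ m) •
          (Fin.cons 1 ((ev f)^[m] z) : Fin (N + 1) → ℂ) := by
        conv_lhs => rw [hue]
        rw [iter_homog_smul, iter_homog_cons f hf']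
      rw [h1, smul_smul, ← h0, one_smul] at he
      exact ((Fin.cons_right_injective (α := fun _ => ℂ) (1 : ℂ)) he).symm
  · rintro ⟨m, hm, z, hz, hy⟩
    refine ⟨m, hm, Fin.cons 1 z, ?_, ?_, 1, one_ne_zero, ?_⟩
    · intro h
      have := congrFun h 0
      rw [Fin.cons_zero] at this
      exact one_ne_zero this
    · rw [eval_jac_cons f hf', hz, mul_zero]
    · rw [one_smul, iter_homog_cons f hf', hy]

end PCFib
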