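import Pool.Agent.H641.PCF.Defs

open MvPolynomial

namespace PCFib



theorem push_hyp {N : ℕ} {κ : Type*} [Field κ] (h : PMap N κ)
    (hint : ∀ j, IsIntegral (Algebra.adjoin κ (Set.range h)) (X j : MvPolynomial (Fin N) κ))
    (Q : MvPolynomial (Fin N) κ) (hQ : Q ≠ 0) :
    ∃ Ψ : MvPolynomial (Fin N) κ, Ψ ≠ 0 ∧ Q ∣ bind₁ h Ψ := by
  have hQi : ∀ Q : MvPolynomial (Fin N) κ, IsIntegral (Algebra.adjoin κ (Set.range h)) Q := by
    intro Q
    induction Q using MvPolynomial.induction_on with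
    | C r =>
      have hr : (C r : MvPolynomial (Fin N) κ) ∈ Algebra.adjoin κ (Set.range h) :=
        Subalgebra.algebraMap_mem (Algebra.adjoin κ (Set.range h)) r
      exact isIntegral_algebraMap (R := Algebra.adjoin κ (Set.range h)) (x := ⟨C r, hr⟩)
    | add p q hp hq => exact hp.add hq
    | mul_X p j hp => exact hp.mul (hint j)
  obtain ⟨r, hr0, hr⟩ := (hQi Q).isAlgebraic.exists_nonzero_dvd (mem_nonZeroDivisors_of_ne_zero hQ)
  have hmem : ∀ z : MvPolynomial (Fin N) κ, z ∈ Algebra.adjoin κ (Set.range h) →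
      ∃ Ψ : MvPolynomial (Fin N) κ, aeval h Ψ = z := by
    intro z hz
    rw [Algebra.adjoin_range_eq_range_aeval] at hz
    exact hz
  obtain ⟨Ψ, hΨ⟩ := hmem r r.2
  have hΨ' : bind₁ h Ψ = (r : MvPolynomial (Fin N) κ) := hΨ
  refine ⟨Ψ, ?_, ?_⟩
  · intro h0
    rw [h0, map_zero] at hΨ'
    exact hr0 (Subtype.ext hΨ'.symm)
  · rw [hΨ']
    exact hr

end PCFib
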