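import Pool.Agent.H641.PCF.Defs

open MvPolynomial

namespace PCFib



theorem reg_of_nonsing {N : ℕ} (g : PMap N ℂ) (hg : ∀ z : Fin N → ℂ, ev g z = 0 → z = 0) :
    Reg g := by
  have hX : ∀ j : Fin N, (X j : MvPolynomial (Fin N) ℂ) ∈ (Ideal.span (Set.range g)).radical := by
    intro j
    rw [← MvPolynomial.vanishingIdeal_zeroLocus_eq_radical (K := ℂ) (Ideal.span (Set.range g)),
      MvPolynomial.mem_vanishingIdeal_iff]
    intro x hx
    rw [MvPolynomial.mem_zeroLocus_iff] at hx
    have h0 : x = 0 := by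
      apply hg
      funext i
      have h1 := hx (g i) (Ideal.subset_span ⟨i, rfl⟩)
      rw [MvPolynomial.aeval_eq_eval] at h1
      exact h1
    rw [h0]
    simp
  choose M hM using hX
  refine ⟨∑ j, M j, fun j => ?_⟩
  have hle : M j ≤ ∑ j, M j := Finset.single_le_sum (f := M) (fun _ _ => Nat.zero_le _) (Finset.mem_univ j)
  obtain ⟨c, hc⟩ := Nat.exists_eq_add_of_le hle
  rw [hc, pow_add]
  exact Ideal.mul_mem_right _ _ (hM j)

end PCFib
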