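import Pool.Agent.H641.PCF.Defs
import Pool.Agent.H641.PCF.P_integral_of_reg
import Pool.Agent.H641.PCF.P_jac_ne_zero
import Pool.Agent.H641.PCF.P_reg_of_nonsing
import Pool.Agent.H641.PCF.P_nonvanish
import Pool.Agent.H641.PCF.P_push_hyp
import Pool.Agent.H641.PCF.P_postcrit_affine
import Pool.Agent.H641.PCF.P_hasTop_of_regular

open MvPolynomial

namespace PCFib



theorem pcset_of_pcf {N d : ℕ} (hd : 1 ≤ d) (f : PMap N ℂ) (hf : IsRegularEndo d f)
    (hp : IsPCF d f) : PCset f := by
  obtain ⟨I, -, hI⟩ := hp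
  have hev : ∀ (y : Fin N → ℂ) (p : MvPolynomial (Fin (N + 1)) ℂ),
      eval y (aeval (Fin.cons 1 X : Fin (N + 1) → MvPolynomial (Fin N) ℂ) p) =
        eval (Fin.cons 1 y : Fin (N + 1) → ℂ) p := by
    intro y p
    induction p using MvPolynomial.induction_on with
    | C a => simp
    | add p q hp hq => rw [map_add, map_add, map_add, hp, hq]
    | mul_X p i hp =>
      rw [map_mul, map_mul, map_mul, hp, aeval_X, eval_X]
      congr 1
      refine Fin.cases ?_ (fun j => ?_) i
      · simp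
      · simp
  have hne : ∀ y : Fin N → ℂ, (Fin.cons 1 y : Fin (N + 1) → ℂ) ≠ 0 := by
    intro y h
    have := congrFun h 0
    simp at this
  by_cases hcase : ∃ p ∈ I, aeval (Fin.cons 1 X : Fin (N + 1) → MvPolynomial (Fin N) ℂ) p ≠ 0
  · obtain ⟨p, hpI, hp0⟩ := hcase
    refine ⟨_, hp0, ?_⟩
    intro n hn z hz
    rw [hev]
    have hmem : (Fin.cons 1 ((ev f)^[n] z) : Fin (N + 1) → ℂ) ∈ postcritical (homog d f) :=
      (postcrit_affine hd f hf _).2 ⟨n, hn, z, hz, rfl⟩
    exact (hI _ (hne _)).1 hmem p hpI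
  · exfalso
    push Not at hcase
    have hall : ∀ y : Fin N → ℂ, ∃ m : ℕ, 1 ≤ m ∧ ∃ z : Fin N → ℂ,
        eval z (jac f) = 0 ∧ (ev f)^[m] z = y := by
      intro y
      refine (postcrit_affine hd f hf y).1 ((hI _ (hne y)).2 ?_)
      intro p hpI
      rw [← hev, hcase p hpI, map_zero]
    have hreg : Reg (topPart d f) := reg_of_nonsing _ hf.2
    have htop : HasTop d f (topPart d f) := hasTop_of_regular hd f hf
    have hj0 : jac f ≠ 0 := jac_ne_zero hd f _ hreg htop
    have hint := integral_of_reg hd f _ hreg htop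
    have hpush : ∀ Q : {Q : MvPolynomial (Fin N) ℂ // Q ≠ 0},
        ∃ Ψ : {Q : MvPolynomial (Fin N) ℂ // Q ≠ 0}, Q.1 ∣ bind₁ f Ψ.1 := by
      intro Q
      obtain ⟨Ψ, h1, h2⟩ := push_hyp f hint Q.1 Q.2
      exact ⟨⟨Ψ, h1⟩, h2⟩
    choose F hF using hpush
    let Q : ℕ → {Q : MvPolynomial (Fin N) ℂ // Q ≠ 0} := fun n => F^[n] ⟨jac f, hj0⟩
    have hQs : ∀ n, (Q n).1 ∣ bind₁ f (Q (n + 1)).1 := by
      intro n
      have : Q (n + 1) = F (Q n) := by
        simp only [Q, Function.iterate_succ_apply']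
      rw [this]
      exact hF _
    have hvan : ∀ (z : Fin N → ℂ), eval z (jac f) = 0 → ∀ n, eval ((ev f)^[n] z) (Q n).1 = 0 := by
      intro z hz n
      induction n with
      | zero => exact hz
      | succ n ih =>
        obtain ⟨R, hR⟩ := hQs n
        have h1 : eval ((ev f)^[n] z) (bind₁ f (Q (n + 1)).1) = 0 := by
          rw [hR, map_mul, ih, zero_mul]
        rw [Function.iterate_succ_apply']
        have h2 : ∀ (w : Fin N → ℂ) (P : MvPolynomial (Fin N) ℂ),
            eval w (bind₁ f P) = eval (ev f w) P := by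
          intro w P
          induction P using MvPolynomial.induction_on with
          | C a => simp
          | add p q hp hq => simp [hp, hq]
          | mul_X p i hp => simp [hp, ev]
        rw [← h2]
        exact h1
    obtain ⟨y, hy⟩ := nonvanish (fun n => (Q n).1) (fun n => (Q n).2)
    obtain ⟨m, -, z, hz, hm⟩ := hall y
    apply hy m
    rw [← hm]
    exact hvan z hz m

end PCFib
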