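import Pool.Agent.H641.PCF.Defs

open MvPolynomial

namespace PCFib



/-- apply a map to the coefficients -/
noncomputable def rdL {k K : Type*} [Field k] [Field K] {N : ℕ} (l : K → k)
    (p : MvPolynomial (Fin N) K) : MvPolynomial (Fin N) k :=
  ∑ m ∈ p.support, monomial m (l (coeff m p))

theorem coeff_rdL {k K : Type*} [Field k] [Field K] {N : ℕ} (l : K → k) (hl : l 0 = 0)
    (p : MvPolynomial (Fin N) K) (m : Fin N →₀ ℕ) : coeff m (rdL l p) = l (coeff m p) := by
  classical
  unfold rdL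
  rw [coeff_sum]
  simp only [coeff_monomial]
  rw [Finset.sum_ite_eq' p.support m]
  split_ifs with h
  · rfl
  · rw [notMem_support_iff.1 h, hl]

theorem reg_descend {k K : Type*} [Field k] [Field K] (φ : k →+* K) {N : ℕ} (g : PMap N k)
    (hg : Reg (mapc φ g)) : Reg g := by
  obtain ⟨l, hl0, hladd, hl1, hlmul⟩ : ∃ l : K → k, l 0 = 0 ∧ (∀ x y, l (x + y) = l x + l y) ∧
      l 1 = 1 ∧ ∀ x y, l (x * φ y) = l x * y := by
    let _ : Algebra k K := φ.toAlgebra
    obtain ⟨f, hf⟩ := LinearMap.exists_leftInverse_of_injective (Algebra.linearMap k K)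
      (LinearMap.ker_eq_bot.2 (by
        intro x y hxy
        exact φ.injective hxy))
    refine ⟨f, map_zero f, map_add f, ?_, ?_⟩
    · have := LinearMap.congr_fun hf 1
      simpa using this
    · intro x y
      have h1 : x * φ y = y • x := by
        rw [Algebra.smul_def, mul_comm]
        rfl
      rw [h1, map_smul, smul_eq_mul, mul_comm]
  let lh : K →+ k := ⟨⟨l, hl0⟩, hladd⟩
  obtain ⟨M, hM⟩ := hg
  refine ⟨M, fun j => ?_⟩
  have h1 := hM j
  rw [Ideal.mem_span_range_iff_exists_fun] at h1 ⊢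
  obtain ⟨c, hc⟩ := h1
  refine ⟨fun i => rdL l (c i), ?_⟩
  ext m
  have h2 : ∀ i, coeff m (rdL l (c i) * g i) = l (coeff m (c i * mapc φ g i)) := by
    intro i
    unfold mapc
    rw [coeff_mul, coeff_mul]
    have : l (∑ x ∈ Finset.HasAntidiagonal.antidiagonal m, coeff x.1 (c i) * coeff x.2 (map φ (g i)))
        = ∑ x ∈ Finset.HasAntidiagonal.antidiagonal m, l (coeff x.1 (c i) * coeff x.2 (map φ (g i))) :=
      map_sum lh _ _
    rw [this]
    apply Finset.sum_congr rfl
    intro x _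
    rw [coeff_rdL l hl0, coeff_map, hlmul]
  rw [coeff_sum]
  simp only [h2]
  have h3 : ∑ i, l (coeff m (c i * mapc φ g i)) = l (∑ i, coeff m (c i * mapc φ g i)) :=
    (map_sum lh _ _).symm
  rw [h3, ← coeff_sum, hc]
  have h4 : (X j : MvPolynomial (Fin N) K) ^ M = map φ (X j ^ M) := by
    rw [map_pow, map_X]
  rw [h4, coeff_map, ← one_mul (φ _), hlmul, hl1, one_mul]

end PCFib
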