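import Pool.Agent.H641.PCF.Defs

open MvPolynomial

namespace PCFib



/-- `p` is `q` (homogeneous of degree `e`) plus terms of lower degree -/
def jt_Top {N : ℕ} {R : Type*} [CommRing R] (e : ℕ) (p q : MvPolynomial (Fin N) R) : Prop :=
  (∀ α : Fin N →₀ ℕ, e < α.degree → coeff α p = 0) ∧
  (∀ α : Fin N →₀ ℕ, α.degree = e → coeff α p = coeff α q) ∧
  (∀ α : Fin N →₀ ℕ, α.degree ≠ e → coeff α q = 0)

theorem jt_of_hasTop {N d : ℕ} {R : Type*} [CommRing R] {h g : PMap N R} (ht : HasTop d h g)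
    (i : Fin N) : jt_Top d (h i) (g i) := by
  obtain ⟨h1, h2⟩ := ht i
  have h3 : ∀ α : Fin N →₀ ℕ, d ≤ α.degree → coeff α (h i) = coeff α (g i) := by
    intro α hα
    have h4 : coeff α (h i - g i) = 0 :=
      coeff_eq_zero_of_totalDegree_lt (lt_of_lt_of_le h2 hα)
    rw [coeff_sub, sub_eq_zero] at h4
    exact h4
  refine ⟨fun α hα => ?_, fun α hα => h3 α hα.ge, fun α hα => h1.coeff_eq_zero hα⟩
  rw [h3 α hα.le]
  exact h1.coeff_eq_zero hα.ne'

theorem jt_mul {N a b : ℕ} {R : Type*} [CommRing R] {p q p' q' : MvPolynomial (Fin N) R}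
    (h : jt_Top a p q) (h' : jt_Top b p' q') : jt_Top (a + b) (p * p') (q * q') := by
  obtain ⟨h1, h2, h3⟩ := h
  obtain ⟨h1', h2', h3'⟩ := h'
  refine ⟨fun γ hγ => ?_, fun γ hγ => ?_, fun γ hγ => ?_⟩
  · rw [coeff_mul]
    refine Finset.sum_eq_zero fun x hx => ?_
    rw [Finset.HasAntidiagonal.mem_antidiagonal] at hx
    have h4 : x.1.degree + x.2.degree = γ.degree := by rw [← hx, map_add]
    by_cases h5 : a < x.1.degree
    · rw [h1 _ h5, zero_mul]
    · rw [h1' _ (by omega), mul_zero]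
  · rw [coeff_mul, coeff_mul]
    refine Finset.sum_congr rfl fun x hx => ?_
    rw [Finset.HasAntidiagonal.mem_antidiagonal] at hx
    have h4 : x.1.degree + x.2.degree = γ.degree := by rw [← hx, map_add]
    rcases lt_trichotomy x.1.degree a with h5 | h5 | h5
    · rw [h1' _ (by omega), h3 _ h5.ne, mul_zero, zero_mul]
    · rw [h2 _ h5, h2' _ (by omega)]
    · rw [h1 _ h5, h3 _ h5.ne', zero_mul, zero_mul]
  · rw [coeff_mul]
    refine Finset.sum_eq_zero fun x hx => ?_
    rw [Finset.HasAntidiagonal.mem_antidiagonal] at hx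
    have h4 : x.1.degree + x.2.degree = γ.degree := by rw [← hx, map_add]
    by_cases h5 : x.1.degree = a
    · rw [h3' _ (by omega), mul_zero]
    · rw [h3 _ h5, zero_mul]

theorem jt_one {N : ℕ} {R : Type*} [CommRing R] :
    jt_Top 0 (1 : MvPolynomial (Fin N) R) 1 := by
  have h : ∀ α : Fin N →₀ ℕ, α.degree ≠ 0 → coeff α (1 : MvPolynomial (Fin N) R) = 0 := by
    intro α hα
    rw [coeff_one, if_neg]
    rintro rfl
    exact hα (map_zero _)
  exact ⟨fun α hα => h α hα.ne', fun α _ => rfl, h⟩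

theorem jt_prod {N : ℕ} {R : Type*} [CommRing R] {ι : Type} (s : Finset ι) (e : ℕ)
    (p q : ι → MvPolynomial (Fin N) R) (h : ∀ i ∈ s, jt_Top e (p i) (q i)) :
    jt_Top (s.card * e) (∏ i ∈ s, p i) (∏ i ∈ s, q i) := by
  classical
  induction s using Finset.induction_on with
  | empty =>
    rw [Finset.prod_empty, Finset.prod_empty, Finset.card_empty, zero_mul]
    exact jt_one
  | insert a s ha ih =>
    rw [Finset.prod_insert ha, Finset.prod_insert ha, Finset.card_insert_of_notMem ha, add_mul,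
      one_mul, add_comm (s.card * e) e]
    exact jt_mul (h a (Finset.mem_insert_self a s))
      (ih fun i hi => h i (Finset.mem_insert_of_mem hi))

theorem jt_sum {N : ℕ} {R : Type*} [CommRing R] {ι : Type} (s : Finset ι) (e : ℕ)
    (p q : ι → MvPolynomial (Fin N) R) (h : ∀ i ∈ s, jt_Top e (p i) (q i)) :
    jt_Top e (∑ i ∈ s, p i) (∑ i ∈ s, q i) := by
  refine ⟨fun α hα => ?_, fun α hα => ?_, fun α hα => ?_⟩
  · rw [coeff_sum]
    exact Finset.sum_eq_zero fun i hi => (h i hi).1 α hα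
  · rw [coeff_sum, coeff_sum]
    exact Finset.sum_congr rfl fun i hi => (h i hi).2.1 α hα
  · rw [coeff_sum]
    exact Finset.sum_eq_zero fun i hi => (h i hi).2.2 α hα

theorem jt_zsmul {N e : ℕ} {R : Type*} [CommRing R] {p q : MvPolynomial (Fin N) R} (n : ℤˣ)
    (h : jt_Top e p q) : jt_Top e (n • p) (n • q) := by
  rcases Int.units_eq_one_or n with rfl | rfl
  · rw [one_smul, one_smul]
    exact h
  · have e1 : ((-1 : ℤˣ) • p) = -p := by
      rw [Units.smul_def]
      simp
    have e2 : ((-1 : ℤˣ) • q) = -q := by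
      rw [Units.smul_def]
      simp
    rw [e1, e2]
    refine ⟨fun α hα => ?_, fun α hα => ?_, fun α hα => ?_⟩
    · rw [coeff_neg, h.1 α hα, neg_zero]
    · rw [coeff_neg, coeff_neg, h.2.1 α hα]
    · rw [coeff_neg, h.2.2 α hα, neg_zero]

theorem jt_pderiv {N d : ℕ} {R : Type*} [CommRing R] (hd : 1 ≤ d)
    {p q : MvPolynomial (Fin N) R} (j : Fin N) (h : jt_Top d p q) :
    jt_Top (d - 1) (pderiv j p) (pderiv j q) := by
  have hdeg : ∀ α : Fin N →₀ ℕ, (α + Finsupp.single j 1).degree = α.degree + 1 := by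
    intro α
    rw [map_add, Finsupp.degree_single]
  refine ⟨fun α hα => ?_, fun α hα => ?_, fun α hα => ?_⟩
  · rw [coeff_pderiv, h.1 _ (by rw [hdeg]; omega), zero_mul]
  · rw [coeff_pderiv, coeff_pderiv, h.2.1 _ (by rw [hdeg]; omega)]
  · rw [coeff_pderiv, h.2.2 _ (by rw [hdeg]; omega), zero_mul]

theorem jac_top {N d : ℕ} {R : Type*} [CommRing R] (hd : 1 ≤ d) (h g : PMap N R)
    (ht : HasTop d h g) :
    (jac h).totalDegree ≤ N * (d - 1) ∧
      homogeneousComponent (N * (d - 1)) (jac h) = jac g := by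
  have hT : jt_Top (N * (d - 1)) (jac h) (jac g) := by
    unfold jac
    rw [Matrix.det_apply, Matrix.det_apply]
    apply jt_sum
    intro σ _
    apply jt_zsmul
    have h1 := jt_prod (Finset.univ : Finset (Fin N)) (d - 1) (fun i => jacM h (σ i) i)
      (fun i => jacM g (σ i) i) (fun i _ => jt_pderiv hd i (jt_of_hasTop ht (σ i)))
    rwa [Finset.card_univ, Fintype.card_fin] at h1
  constructor
  · unfold totalDegree
    refine Finset.sup_le fun α hα => ?_
    by_contra hlt
    rw [mem_support_iff] at hα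
    exact hα (hT.1 α (not_le.1 hlt))
  · ext α
    rw [coeff_homogeneousComponent]
    split_ifs with h1
    · exact hT.2.1 α h1
    · exact (hT.2.2 α h1).symm

end PCFib
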