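import Pool.Agent.H641.PCF.Defs
import Pool.Agent.H641.PCF.P_integral_of_reg
import Pool.Agent.H641.PCF.P_jac_ne_zero
import Pool.Agent.H641.PCF.P_bind_inj
import Pool.Agent.H641.PCF.P_jac_top
import Pool.Agent.H641.PCF.P_adj_dvd
import Pool.Agent.H641.PCF.P_adj_deg

open MvPolynomial

namespace PCFib



theorem hC_mul_top {σ R : Type*} [CommRing R] {p q : MvPolynomial σ R} {a b : ℕ}
    (hp : p.totalDegree ≤ a) (hq : q.totalDegree ≤ b) :
    homogeneousComponent (a + b) (p * q) = homogeneousComponent a p * homogeneousComponent b q := by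
  classical
  have hp' : ∀ x : σ →₀ ℕ, a < x.degree → coeff x p = 0 := by
    intro x hx
    apply coeff_eq_zero_of_totalDegree_lt
    have : x.degree = ∑ i ∈ x.support, x i := rfl
    rw [← this]
    omega
  have hq' : ∀ x : σ →₀ ℕ, b < x.degree → coeff x q = 0 := by
    intro x hx
    apply coeff_eq_zero_of_totalDegree_lt
    have : x.degree = ∑ i ∈ x.support, x i := rfl
    rw [← this]
    omega
  ext m
  rw [coeff_homogeneousComponent, coeff_mul, coeff_mul]
  split_ifs with hm
  · refine Finset.sum_congr rfl fun xy hxy => ?_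
    have hxy' : xy.1 + xy.2 = m := by simpa using hxy
    have hdeg : xy.1.degree + xy.2.degree = a + b := by
      rw [← hm, ← hxy']; simp
    rw [coeff_homogeneousComponent, coeff_homogeneousComponent]
    by_cases h1 : xy.1.degree = a
    · have h2 : xy.2.degree = b := by omega
      rw [if_pos h1, if_pos h2]
    · rw [if_neg h1, zero_mul]
      rcases lt_or_gt_of_ne h1 with h3 | h3
      · rw [hq' xy.2 (by omega), mul_zero]
      · rw [hp' xy.1 h3, zero_mul]
  · symm
    refine Finset.sum_eq_zero fun xy hxy => ?_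
    have hxy' : xy.1 + xy.2 = m := by simpa using hxy
    have hdeg : xy.1.degree + xy.2.degree = m.degree := by
      rw [← hxy']; simp
    rw [coeff_homogeneousComponent, coeff_homogeneousComponent]
    by_cases h1 : xy.1.degree = a
    · have h2 : xy.2.degree ≠ b := by
        intro h2
        exact hm (by omega)
      rw [if_neg h2, mul_zero]
    · rw [if_neg h1, zero_mul]

theorem eq_C_add_hC {σ R : Type*} [CommRing R] {p : MvPolynomial σ R} (hp : p.totalDegree ≤ 1) :
    p = C (coeff 0 p) + homogeneousComponent 1 p := by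
  classical
  have hp' : ∀ x : σ →₀ ℕ, 1 < x.degree → coeff x p = 0 := by
    intro x hx
    apply coeff_eq_zero_of_totalDegree_lt
    have : x.degree = ∑ i ∈ x.support, x i := rfl
    rw [← this]
    omega
  ext m
  rw [coeff_add, coeff_C, coeff_homogeneousComponent]
  by_cases h0 : m = 0
  · subst h0
    simp
  · have h1 : m.degree ≠ 0 := by
      intro h
      exact h0 ((Finsupp.degree_eq_zero_iff m).mp h)
    rw [if_neg (Ne.symm h0), zero_add]
    split_ifs with h2
    · rfl
    · exact hp' m (by omega)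

theorem euler_of_dvd {N d : ℕ} {κ : Type*} [Field κ] [CharZero κ] (hd : 1 ≤ d) (h g : PMap N κ)
    (hg : Reg g) (ht : HasTop d h g) (ε : MvPolynomial (Fin N) κ) (hε : ε ≠ 0)
    (hm : ∃ m, ε.IsHomogeneous m) (hdvd : jac h ∣ bind₁ h ε) :
    ∃ w : Fin N → κ, ∀ i, ∑ j, (X j - C (w j)) * pderiv j (h i) = C (d : κ) * h i := by
  obtain ⟨m, hm⟩ := hm
  have hJ : jac h ≠ 0 := jac_ne_zero hd h g hg ht
  have hgg : HasTop d g g := fun i => ⟨(ht i).1, by simp; omega⟩
  have hJg : jac g ≠ 0 := jac_ne_zero hd g g hg hgg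
  have hbε : bind₁ h ε ≠ 0 := fun h0 => hε (bind_inj h hJ ε h0)
  have hint := fun j => integral_of_reg hd h g hg ht j
  have hdv : ∀ j, jac h ∣ ((jacM h).adjugate.mulVec h) j :=
    fun j => adj_dvd h hint hJ ε hbε m hm hdvd j
  choose U hU using hdv
  obtain ⟨hJd, hJt⟩ := jac_top hd h g ht
  have hJd' : N * (d - 1) ≤ (jac h).totalDegree := by
    by_contra hlt
    push Not at hlt
    have := homogeneousComponent_eq_zero _ _ hlt
    rw [hJt] at this
    exact hJg this
  have hUd : ∀ j, (U j).totalDegree ≤ 1 := by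
    intro j
    by_cases hUj : U j = 0
    · rw [hUj]; simp
    have h1 := (adj_deg hd h g ht j).1
    rw [hU j, totalDegree_mul_of_isDomain hJ hUj] at h1
    omega
  have hU1 : ∀ j, C (d : κ) * homogeneousComponent 1 (U j) = X j := by
    intro j
    have h1 := (adj_deg hd h g ht j).2
    rw [hU j, hC_mul_top hJd (hUd j), hJt] at h1
    have h2 : jac g * (C (d : κ) * homogeneousComponent 1 (U j)) = jac g * X j := by
      rw [← h1]; ring
    exact mul_left_cancel₀ hJg h2
  refine ⟨fun j => -((d : κ) * coeff 0 (U j)), fun i => ?_⟩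
  have hCU : ∀ j, C (d : κ) * U j = X j - C (-((d : κ) * coeff 0 (U j))) := by
    intro j
    conv_lhs => rw [eq_C_add_hC (hUd j)]
    rw [mul_add, hU1 j, ← C_mul, C_neg]
    ring
  have hsum : ∑ j, pderiv j (h i) * U j = h i := by
    have h3 : (jacM h).mulVec ((jacM h).adjugate.mulVec h) = (jac h) • h := by
      rw [Matrix.mulVec_mulVec, Matrix.mul_adjugate]
      rw [Matrix.smul_mulVec, Matrix.one_mulVec]
      rfl
    have h4 := congrFun h3 i
    have h5 : (jacM h).mulVec ((jacM h).adjugate.mulVec h) i =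
        jac h * ∑ j, pderiv j (h i) * U j := by
      rw [Matrix.mulVec, dotProduct, Finset.mul_sum]
      refine Finset.sum_congr rfl fun j _ => ?_
      rw [hU j]
      simp only [jacM, Matrix.of_apply]
      ring
    rw [h5] at h4
    exact mul_left_cancel₀ hJ h4
  calc ∑ j, (X j - C (-((d : κ) * coeff 0 (U j)))) * pderiv j (h i)
      = ∑ j, C (d : κ) * (pderiv j (h i) * U j) := by
        refine Finset.sum_congr rfl fun j _ => ?_
        rw [← hCU j]; ring
    _ = C (d : κ) * h i := by rw [← Finset.mul_sum, hsum]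

end PCFib
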