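import Pool.Agent.H641.PCF.Defs

open MvPolynomial

namespace PCFib



theorem coeff_euler {κ : Type*} [CommRing κ] {N : ℕ} (p : MvPolynomial (Fin N) κ)
    (α : Fin N →₀ ℕ) : coeff α (∑ j, X j * pderiv j p) = (α.degree : κ) * coeff α p := by
  induction p using MvPolynomial.induction_on' with
  | add p q hp hq =>
    simp only [map_add, mul_add, Finset.sum_add_distrib, coeff_add, hp, hq]
  | monomial n a =>
    simp only [X_mul_pderiv_monomial, ← Finset.sum_smul]
    rw [coeff_smul, coeff_monomial]
    by_cases h : n = α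
    · subst h
      simp [Finsupp.degree_eq_sum]
    · simp [h]

theorem lam_eq {k R : Type*} [CommRing k] [CommRing R] {N d : ℕ}
    (a : Fin N → Fin N → (Fin N →₀ ℕ) → k) (ha : ∀ l i α, a l i α ≠ 0 → α.degree = d)
    (φ : k →+* R) (f : PMap N R) (l : Fin N) :
    Lam a φ f l = ∑ i, ∑ α ∈ Finset.finsuppAntidiag Finset.univ d,
      φ (a l i α) * coeff α (f i) := by
  unfold Lam
  refine Finset.sum_congr rfl fun i _ => ?_
  have h1 : ∑ α ∈ (f i).support, φ (a l i α) * coeff α (f i) =
      ∑ α ∈ (f i).support ∪ Finset.finsuppAntidiag Finset.univ d, φ (a l i α) * coeff α (f i) := by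
    refine Finset.sum_subset Finset.subset_union_left fun α _ hα => ?_
    rw [notMem_support_iff.mp hα, mul_zero]
  have h2 : ∑ α ∈ Finset.finsuppAntidiag Finset.univ d, φ (a l i α) * coeff α (f i) =
      ∑ α ∈ (f i).support ∪ Finset.finsuppAntidiag Finset.univ d, φ (a l i α) * coeff α (f i) := by
    refine Finset.sum_subset Finset.subset_union_right fun α _ hα => ?_
    have : a l i α = 0 := by
      by_contra hne
      apply hα
      have := ha l i α hne
      rw [Finset.mem_finsuppAntidiag]
      refine ⟨?_, Finset.subset_univ _⟩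
      rw [← this, Finsupp.degree_eq_sum]
    rw [this, map_zero, zero_mul]
  rw [h1, h2]

theorem degree_of_mem {N d : ℕ} {α : Fin N →₀ ℕ}
    (h : α ∈ Finset.finsuppAntidiag (Finset.univ : Finset (Fin N)) d) : α.degree = d := by
  rw [Finset.mem_finsuppAntidiag] at h
  rw [Finsupp.degree_eq_sum, ← h.1]

theorem coeff_eq_of_top {κ : Type*} [CommRing κ] {N d : ℕ} {p q : MvPolynomial (Fin N) κ}
    (h : (p - q).totalDegree < d) {α : Fin N →₀ ℕ} (hα : d ≤ α.degree) :
    coeff α p = coeff α q := by
  have : coeff α (p - q) = 0 := by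
    apply coeff_eq_zero_of_totalDegree_lt
    refine lt_of_lt_of_le h (le_trans hα ?_)
    rw [Finsupp.degree_apply]
  rw [coeff_sub, sub_eq_zero] at this
  exact this

theorem lam_euler {k κ : Type*} [Field k] [Field κ] [CharZero κ] {N d : ℕ} (hd : 1 ≤ d)
    (φ : k →+* κ) (g : PMap N k) (hgh : ∀ i, (g i).IsHomogeneous d)
    (a : Fin N → Fin N → (Fin N →₀ ℕ) → k) (ha : ∀ l i α, a l i α ≠ 0 → α.degree = d - 1)
    (ha' : ∀ l j, Lam a (RingHom.id k) (fun i => pderiv j (g i)) l = if l = j then 1 else 0)
    (h : PMap N κ) (ht : HasTop d h (mapc φ g)) (w : Fin N → κ)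
    (hw : ∀ i, ∑ j, (X j - C (w j)) * pderiv j (h i) = C (d : κ) * h i)
    (hl : ∀ l, Lam a φ h l = 0) : h = mapc φ g := by
  have hdeg : ∀ i, ∀ α : Fin N →₀ ℕ, (α.degree : κ) * coeff α (h i)
      - ∑ j, w j * coeff α (pderiv j (h i)) = (d : κ) * coeff α (h i) := by
    intro i α
    have h1 := congrArg (coeff α) (hw i)
    rw [coeff_C_mul] at h1
    rw [← h1]
    simp only [sub_mul, Finset.sum_sub_distrib, coeff_sub]
    rw [coeff_euler, coeff_sum]
    simp only [coeff_C_mul]
  have hpd : ∀ i j, ∀ α : Fin N →₀ ℕ, α.degree = d - 1 →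
      coeff α (pderiv j (h i)) = coeff α (pderiv j (mapc φ g i)) := by
    intro i j α hα
    rw [coeff_pderiv, coeff_pderiv]
    congr 1
    apply coeff_eq_of_top (ht i).2
    rw [map_add, hα, Finsupp.degree_single]
    omega
  have hw0 : ∀ l, w l = 0 := by
    intro l
    have h0 := hl l
    rw [lam_eq a ha] at h0
    have h1 : ∀ i, ∀ α ∈ Finset.finsuppAntidiag (Finset.univ : Finset (Fin N)) (d - 1),
        φ (a l i α) * coeff α (h i) =
          - ∑ j, w j * (φ (a l i α) * coeff α (pderiv j (mapc φ g i))) := by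
      intro i α hα
      have hα' := degree_of_mem hα
      have h2 := hdeg i α
      rw [hα', Nat.cast_sub hd] at h2
      have h3 : coeff α (h i) = - ∑ j, w j * coeff α (pderiv j (mapc φ g i)) := by
        have h4 : ∑ j, w j * coeff α (pderiv j (h i)) =
            ∑ j, w j * coeff α (pderiv j (mapc φ g i)) := by
          refine Finset.sum_congr rfl fun j _ => ?_
          rw [hpd i j α hα']
        rw [← h4]
        push_cast at h2
        linear_combination -h2
      rw [h3, mul_neg, Finset.mul_sum]
      congr 1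
      refine Finset.sum_congr rfl fun j _ => ?_
      ring
    have h5 : ∀ j, ∑ i, ∑ α ∈ Finset.finsuppAntidiag (Finset.univ : Finset (Fin N)) (d - 1),
        φ (a l i α) * coeff α (pderiv j (mapc φ g i)) = if l = j then 1 else 0 := by
      intro j
      have h6 := ha' l j
      rw [lam_eq a ha] at h6
      have h7 := congrArg φ h6
      rw [map_sum] at h7
      simp only [map_sum, map_mul, RingHom.id_apply] at h7
      rw [apply_ite φ, map_one, map_zero] at h7
      rw [← h7]
      refine Finset.sum_congr rfl fun i _ => Finset.sum_congr rfl fun α _ => ?_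
      congr 1
      unfold mapc
      rw [pderiv_map, coeff_map]
    have h8 : ∑ i, ∑ α ∈ Finset.finsuppAntidiag (Finset.univ : Finset (Fin N)) (d - 1),
        φ (a l i α) * coeff α (h i) = - ∑ j, w j * (if l = j then 1 else 0) := by
      rw [Finset.sum_congr rfl fun i _ => Finset.sum_congr rfl (h1 i)]
      simp only [Finset.sum_neg_distrib]
      congr 1
      rw [Finset.sum_congr rfl fun i _ => Finset.sum_comm, Finset.sum_comm]
      refine Finset.sum_congr rfl fun j _ => ?_
      rw [← h5 j, Finset.mul_sum]
      refine Finset.sum_congr rfl fun i _ => ?_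
      rw [Finset.mul_sum]
    rw [h8] at h0
    simpa using h0
  funext i
  ext α
  have h2 := hdeg i α
  simp only [hw0, zero_mul, Finset.sum_const_zero, sub_zero] at h2
  by_cases hα : α.degree = d
  · exact coeff_eq_of_top (ht i).2 hα.ge
  · have h3 : coeff α (h i) = 0 := by
      have h4 : ((α.degree : κ) - d) * coeff α (h i) = 0 := by
        linear_combination h2
      rcases mul_eq_zero.mp h4 with h5 | h5
      · exfalso
        apply hα
        exact_mod_cast sub_eq_zero.mp h5
      · exact h5
    rw [h3]
    symm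
    by_contra hne
    apply hα
    have h6 := (ht i).1 hne
    rw [Finsupp.degree_eq_weight_one]
    exact h6

end PCFib
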