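import Pool.Agent.H641.PCF.Defs

open MvPolynomial

namespace PCFib



theorem lam_map {k R S : Type*} [CommRing k] [CommRing R] [CommRing S] {N : ℕ}
    (a : Fin N → Fin N → (Fin N →₀ ℕ) → k) (φ : k →+* R) (ψ : R →+* S) (f : PMap N R) (l : Fin N) :
    Lam a (ψ.comp φ) (mapc ψ f) l = ψ (Lam a φ f l) := by
  unfold Lam mapc
  rw [map_sum]
  refine Finset.sum_congr rfl fun i _ => ?_
  rw [map_sum]
  have h1 : (MvPolynomial.map ψ (f i)).support ⊆ (f i).support := by
    intro α hα
    rw [MvPolynomial.mem_support_iff] at hα ⊢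
    rw [MvPolynomial.coeff_map] at hα
    intro h0
    rw [h0, map_zero] at hα
    exact hα rfl
  rw [Finset.sum_subset h1]
  · refine Finset.sum_congr rfl fun α _ => ?_
    rw [MvPolynomial.coeff_map, map_mul]
    rfl
  · intro α _ hα
    rw [MvPolynomial.notMem_support_iff] at hα
    rw [hα, mul_zero]

end PCFib
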