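import Pool.Agent.H641.PCF.Defs

open MvPolynomial

namespace PCFib



theorem j16162_mon {N : ℕ} {K : Type*} [CommRing K] (c : K) (u : Fin N →₀ ℕ) (a : K) :
    scale c (monomial u a) = monomial u (c ^ u.degree * a) := by
  unfold scale
  rw [bind₁_monomial, MvPolynomial.monomial_eq]
  simp only [mul_pow]
  rw [Finset.prod_mul_distrib, Finset.prod_pow_eq_pow_sum]
  rw [map_mul, map_pow, Finsupp.prod, Finsupp.degree_apply]
  ring

theorem j16162_coeff {N : ℕ} {K : Type*} [CommRing K] (c : K) (P : MvPolynomial (Fin N) K)
    (α : Fin N →₀ ℕ) : coeff α (scale c P) = c ^ α.degree * coeff α P := by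
  induction P using MvPolynomial.induction_on' with
  | monomial u a =>
    rw [j16162_mon, coeff_monomial, coeff_monomial]
    by_cases h : u = α
    · rw [if_pos h, if_pos h, h]
    · rw [if_neg h, if_neg h, mul_zero]
  | add p q hp hq =>
    have : scale c (p + q) = scale c p + scale c q := map_add _ _ _
    rw [this, coeff_add, hp, hq, coeff_add, mul_add]

theorem lam_scale {k O K : Type*} [Field k] [CommRing O] [IsDomain O] [Field K] [Algebra O K]
    [IsFractionRing O K] {N d e : ℕ} (a : Fin N → Fin N → (Fin N →₀ ℕ) → k)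
    (ha : ∀ l i α, a l i α ≠ 0 → α.degree = e) (φ : k →+* O) (f : PMap N K) (h : PMap N O)
    (R : K) (hR : R ≠ 0)
    (hs : ∀ i, scale R (f i) = C (R ^ d) * MvPolynomial.map (algebraMap O K) (h i)) (l : Fin N)
    (hl : Lam a ((algebraMap O K).comp φ) f l = 0) : Lam a φ h l = 0 := by
  have hinj : Function.Injective (algebraMap O K) := IsFractionRing.injective O K
  have hco : ∀ i α, R ^ α.degree * coeff α (f i) = R ^ d * algebraMap O K (coeff α (h i)) := by
    intro i α
    have := congrArg (coeff α) (hs i)
    rwa [j16162_coeff, coeff_C_mul, coeff_map] at this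
  have hsupp : ∀ i, (f i).support = (h i).support := by
    intro i
    ext α
    rw [mem_support_iff, mem_support_iff]
    have h1 := hco i α
    have hRa : R ^ α.degree ≠ 0 := pow_ne_zero _ hR
    have hRd : R ^ d ≠ 0 := pow_ne_zero _ hR
    constructor
    · intro h2 h3
      rw [h3, map_zero, mul_zero] at h1
      exact h2 ((mul_eq_zero.1 h1).resolve_left hRa)
    · intro h2 h3
      rw [h3, mul_zero] at h1
      exact h2 (hinj (by rw [(mul_eq_zero.1 h1.symm).resolve_left hRd, map_zero]))
  have key : R ^ e * Lam a ((algebraMap O K).comp φ) f l = R ^ d * algebraMap O K (Lam a φ h l) := by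
    unfold Lam
    rw [map_sum, Finset.mul_sum, Finset.mul_sum]
    refine Finset.sum_congr rfl fun i _ => ?_
    rw [map_sum, Finset.mul_sum, Finset.mul_sum, hsupp i]
    refine Finset.sum_congr rfl fun α _ => ?_
    by_cases h0 : a l i α = 0
    · rw [h0, map_zero, map_zero]
      simp
    · have h1 := hco i α
      rw [ha l i α h0] at h1
      rw [map_mul, RingHom.comp_apply]
      calc R ^ e * (algebraMap O K (φ (a l i α)) * coeff α (f i))
          = algebraMap O K (φ (a l i α)) * (R ^ e * coeff α (f i)) := by ring
        _ = algebraMap O K (φ (a l i α)) * (R ^ d * algebraMap O K (coeff α (h i))) := by rw [h1]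
        _ = R ^ d * (algebraMap O K (φ (a l i α)) * algebraMap O K (coeff α (h i))) := by ring
  rw [hl, mul_zero] at key
  refine hinj ?_
  rw [map_zero]
  exact (mul_eq_zero.1 key.symm).resolve_left (pow_ne_zero _ hR)

end PCFib
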