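import Pool.Agent.H641.PCF.Defs

open MvPolynomial

namespace PCFib



theorem scale_monomial {N : ℕ} {R : Type*} [CommRing R] (c : R) (u : Fin N →₀ ℕ) (a : R) :
    scale c (monomial u a) = monomial u (c ^ u.degree * a) := by
  unfold scale
  rw [bind₁_monomial, monomial_eq, Finsupp.prod]
  have h1 : ∏ i ∈ u.support, (C c * X i : MvPolynomial (Fin N) R) ^ u i =
      C (c ^ u.degree) * ∏ i ∈ u.support, (X i : MvPolynomial (Fin N) R) ^ u i := by
    rw [Finsupp.degree_apply, ← Finset.prod_pow_eq_pow_sum, map_prod, ← Finset.prod_mul_distrib]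
    refine Finset.prod_congr rfl fun i _ => ?_
    rw [mul_pow, map_pow]
  rw [h1, map_mul]
  ring

theorem coeff_scale {N : ℕ} {R : Type*} [CommRing R] (c : R) (P : MvPolynomial (Fin N) R)
    (α : Fin N →₀ ℕ) : coeff α (scale c P) = c ^ α.degree * coeff α P := by
  classical
  induction P using MvPolynomial.induction_on' with
  | monomial u a =>
    rw [scale_monomial, coeff_monomial, coeff_monomial]
    split_ifs with h
    · rw [h]
    · rw [mul_zero]
  | add p q hp hq =>
    have : scale c (p + q) = scale c p + scale c q := by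
      unfold scale
      rw [map_add]
    rw [this, coeff_add, coeff_add, hp, hq, mul_add]

theorem scale_choice {k O K κ : Type*} [Field k] [CommRing O] [IsDomain O] [ValuationRing O]
    [Field K] [IsAlgClosed K] [Algebra O K] [IsFractionRing O K] [Field κ] (φ : k →+* O)
    (red : O →+* κ) (hred : ∀ x, red x = 0 ↔ ¬ IsUnit x) {N d : ℕ} (f : PMap N K) (g : PMap N k)
    (hf : HasTop d f (mapc ((algebraMap O K).comp φ) g))
    (hgh : ∀ i, (g i).IsHomogeneous d)
    (hnot : ¬ ∀ i α, coeff α (f i) ∈ Set.range (algebraMap O K)) :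
    ∃ (R : K) (ρ : O), algebraMap O K ρ * R = 1 ∧ red ρ = 0 ∧ ∃ h : PMap N O,
      HasTop d h (mapc φ g) ∧
      (∀ i, scale R (f i) = C (R ^ d) * MvPolynomial.map (algebraMap O K) (h i)) ∧
      ∃ i, MvPolynomial.map red (h i) ≠ MvPolynomial.map red (mapc φ g i) := by
  classical
  have hinj : Function.Injective (algebraMap O K) := IsFractionRing.injective O K
  set v := ValuationRing.valuation O K with hv
  have hmem : ∀ x : K, v x ≤ 1 ↔ ∃ a : O, algebraMap O K a = x := by
    intro x
    rw [← ValuationRing.mem_integer_iff O K x]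
    rfl
  -- high coefficients
  have hhigh : ∀ i α, d ≤ Finsupp.degree α → coeff α (f i) = algebraMap O K (φ (coeff α (g i))) := by
    intro i α hα
    have h1 : coeff α (f i - mapc ((algebraMap O K).comp φ) g i) = 0 := by
      apply coeff_eq_zero_of_totalDegree_lt
      have := (hf i).2
      rw [Finsupp.degree_apply] at hα
      omega
    rw [coeff_sub, sub_eq_zero] at h1
    rw [h1]
    unfold mapc
    rw [coeff_map]
    rfl
  have hglow : ∀ i α, Finsupp.degree α ≠ d → coeff α (g i) = 0 := fun i α h => (hgh i).coeff_eq_zero h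
  -- roots
  have hroot : ∀ (i : Fin N) (α : Fin N →₀ ℕ), ∃ r : K, Finsupp.degree α < d →
      r ^ (d - Finsupp.degree α) = coeff α (f i) := by
    intro i α
    by_cases h : Finsupp.degree α < d
    · obtain ⟨r, hr⟩ := IsAlgClosed.exists_pow_nat_eq (coeff α (f i)) (n := d - Finsupp.degree α) (by omega)
      exact ⟨r, fun _ => hr⟩
    · exact ⟨0, fun h' => absurd h' h⟩
  choose r hr using hroot
  -- the finite set
  set E : Finset (Σ _ : Fin N, Fin N →₀ ℕ) := (Finset.univ : Finset (Fin N)).sigma
    (fun i => (f i).support.filter (fun α => Finsupp.degree α < d)) with hE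
  have hmemE : ∀ i α, (⟨i, α⟩ : Σ _ : Fin N, Fin N →₀ ℕ) ∈ E ↔ coeff α (f i) ≠ 0 ∧ Finsupp.degree α < d := by
    intro i α
    rw [hE, Finset.mem_sigma, Finset.mem_filter, mem_support_iff]
    simp
  have hEne : E.Nonempty := by
    by_contra hcon
    rw [Finset.not_nonempty_iff_eq_empty] at hcon
    apply hnot
    intro i α
    by_cases hα : Finsupp.degree α < d
    · by_cases hc : coeff α (f i) = 0
      · rw [hc]
        exact ⟨0, map_zero _⟩
      · exfalso
        have := (hmemE i α).2 ⟨hc, hα⟩
        rw [hcon] at this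
        simp at this
    · rw [hhigh i α (by omega)]
      exact ⟨_, rfl⟩
  obtain ⟨⟨i₀, α₀⟩, hmem0, hmax⟩ := Finset.exists_max_image E (fun p => v (r p.1 p.2)) hEne
  obtain ⟨hc0, hd0⟩ := (hmemE i₀ α₀).1 hmem0
  set R : K := r i₀ α₀ with hR
  have hRpow : R ^ (d - Finsupp.degree α₀) = coeff α₀ (f i₀) := hr i₀ α₀ hd0
  have hR0 : R ≠ 0 := by
    intro h
    rw [h, zero_pow (by omega)] at hRpow
    exact hc0 hRpow.symm
  have hRnot : ¬ v R ≤ 1 := by
    intro hle
    apply hnot
    intro i α
    by_cases hα : Finsupp.degree α < d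
    · by_cases hc : coeff α (f i) = 0
      · rw [hc]
        exact ⟨0, map_zero _⟩
      · have h1 := hmax ⟨i, α⟩ ((hmemE i α).2 ⟨hc, hα⟩)
        have h2 : v (r i α) ≤ 1 := h1.trans hle
        have h3 : v (coeff α (f i)) ≤ 1 := by
          rw [← hr i α hα, map_pow]
          exact pow_le_one₀ zero_le h2
        exact (hmem _).1 h3
    · rw [hhigh i α (by omega)]
      exact ⟨_, rfl⟩
  have hRlt : 1 < v R := not_le.1 hRnot
  obtain ⟨ρ, hρ⟩ := (hmem R⁻¹).1 (by
    rw [map_inv₀]
    exact inv_le_one_of_one_le₀ hRlt.le)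
  -- low coefficients
  have hlow : ∀ (i : Fin N) (α : Fin N →₀ ℕ), ∃ a : O, Finsupp.degree α < d →
      algebraMap O K a = coeff α (f i) * R ^ Finsupp.degree α / R ^ d := by
    intro i α
    by_cases hα : Finsupp.degree α < d
    · have e1 : coeff α (f i) * R ^ Finsupp.degree α / R ^ d = (r i α / R) ^ (d - Finsupp.degree α) := by
        rw [div_pow, hr i α hα]
        have : R ^ d = R ^ (d - Finsupp.degree α) * R ^ Finsupp.degree α := by
          rw [← pow_add]
          congr 1
          omega
        rw [this]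
        field_simp
      have h2 : v (coeff α (f i) * R ^ Finsupp.degree α / R ^ d) ≤ 1 := by
        rw [e1, map_pow]
        apply pow_le_one₀ zero_le
        by_cases hc : coeff α (f i) = 0
        · have hr0 : r i α = 0 := by
            have := hr i α hα
            rw [hc] at this
            exact pow_eq_zero_iff (by omega) |>.1 this
          rw [hr0, zero_div, map_zero]
          exact zero_le
        · have h1 : v (r i α) ≤ v R := hmax ⟨i, α⟩ ((hmemE i α).2 ⟨hc, hα⟩)
          rw [map_div₀]
          exact div_le_one_of_le₀ h1 zero_le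
      obtain ⟨a, ha⟩ := (hmem _).1 h2
      exact ⟨a, fun _ => ha⟩
    · exact ⟨0, fun h => absurd h hα⟩
  choose lo hlo using hlow
  set low : Fin N → MvPolynomial (Fin N) O := fun i =>
    ∑ α ∈ (f i).support.filter (fun α => Finsupp.degree α < d), monomial α (lo i α) with hlowdef
  have hcoefflow : ∀ i α, coeff α (low i) = if Finsupp.degree α < d then lo i α else 0 := by
    intro i α
    rw [hlowdef]
    simp only [coeff_sum, coeff_monomial]
    rw [Finset.sum_ite_eq']
    by_cases hα : Finsupp.degree α < d
    · rw [if_pos hα]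
      by_cases hc : coeff α (f i) = 0
      · rw [if_neg]
        · have := hlo i α hα
          rw [hc, zero_mul, zero_div] at this
          have h0 : lo i α = 0 := hinj (by rw [this, map_zero])
          exact h0.symm
        · rw [Finset.mem_filter, mem_support_iff]
          exact fun h => h.1 hc
      · rw [if_pos]
        rw [Finset.mem_filter, mem_support_iff]
        exact ⟨hc, hα⟩
    · rw [if_neg hα, if_neg]
      rw [Finset.mem_filter]
      exact fun h => hα h.2
  refine ⟨R, ρ, ?_, ?_, fun i => mapc φ g i + low i, ?_, ?_, ?_⟩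
  · rw [hρ, inv_mul_cancel₀ hR0]
  · rw [hred]
    intro hu
    obtain ⟨u, hu⟩ := hu
    apply hRnot
    rw [hmem]
    refine ⟨((u⁻¹ : Oˣ) : O), ?_⟩
    have h1 : algebraMap O K ((u⁻¹ : Oˣ) : O) * algebraMap O K ρ = 1 := by
      rw [← map_mul, ← hu, Units.inv_mul, map_one]
    rw [hρ] at h1
    field_simp at h1
    exact h1
  · intro i
    refine ⟨(hgh i).map φ, ?_⟩
    show (mapc φ g i + low i - mapc φ g i).totalDegree < d
    rw [add_sub_cancel_left]
    have hdpos : 0 < d := lt_of_le_of_lt (Nat.zero_le _) (hf i).2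
    have hle : (low i).totalDegree ≤ d - 1 := by
      rw [hlowdef]
      apply totalDegree_finsetSum_le
      intro α hα
      rw [Finset.mem_filter] at hα
      refine (totalDegree_monomial_le _ _).trans ?_
      have := hα.2
      have e : (α.sum fun _ ↦ id) = Finsupp.degree α := rfl
      rw [e]
      omega
    omega
  · intro i
    ext α
    rw [coeff_scale, coeff_C_mul, coeff_map, coeff_add, hcoefflow, map_add]
    have e1 : coeff α (mapc φ g i) = φ (coeff α (g i)) := by
      unfold mapc
      rw [coeff_map]
    rw [e1]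
    by_cases hα : Finsupp.degree α < d
    · rw [if_pos hα, hlo i α hα, hglow i α (by omega), map_zero, map_zero, zero_add]
      have : R ^ d ≠ 0 := pow_ne_zero _ hR0
      field_simp
    · rw [if_neg hα, map_zero, add_zero, hhigh i α (by omega)]
      by_cases h2 : Finsupp.degree α = d
      · rw [h2]
      · rw [hglow i α h2, map_zero, map_zero, mul_zero, mul_zero]
  · refine ⟨i₀, ?_⟩
    intro heq
    have h1 := congrArg (coeff α₀) heq
    rw [coeff_map, coeff_map, coeff_add, hcoefflow, if_pos hd0] at h1
    have e1 : coeff α₀ (mapc φ g i₀) = 0 := by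
      unfold mapc
      rw [coeff_map, hglow i₀ α₀ (by omega), map_zero]
    have e2 : lo i₀ α₀ = 1 := by
      apply hinj
      rw [hlo i₀ α₀ hd0, map_one, ← hRpow, ← pow_add]
      have : d - Finsupp.degree α₀ + Finsupp.degree α₀ = d := by omega
      rw [this]
      exact div_self (pow_ne_zero _ hR0)
    rw [e1, e2, zero_add, map_one, map_zero] at h1
    exact one_ne_zero h1

end PCFib
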