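import Pool.Agent.H641.PCF.Defs
import Pool.Agent.H641.PCF.P_euler_of_dvd
import Pool.Agent.H641.PCF.P_scale_choice
import Pool.Agent.H641.PCF.P_core_red
import Pool.Agent.H641.PCF.P_lam_map
import Pool.Agent.H641.PCF.P_lam_scale
import Pool.Agent.H641.PCF.P_lam_euler

open MvPolynomial

namespace PCFib



theorem rt_core_mapc_mapc {N : ℕ} {k O κ : Type*} [CommRing k] [CommRing O] [CommRing κ]
    (φ : k →+* O) (red : O →+* κ) (g : PMap N k) :
    mapc red (mapc φ g) = mapc (red.comp φ) g := by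
  funext i
  show MvPolynomial.map red (MvPolynomial.map φ (g i)) = MvPolynomial.map (red.comp φ) (g i)
  rw [MvPolynomial.map_map]

theorem rt_core_reg {N : ℕ} {k κ : Type*} [CommRing k] [CommRing κ] (ψ : k →+* κ)
    (g : PMap N k) (hg : Reg g) : Reg (mapc ψ g) := by
  obtain ⟨M, hM⟩ := hg
  refine ⟨M, fun j => ?_⟩
  have h1 := Ideal.mem_map_of_mem (MvPolynomial.map ψ) (hM j)
  rw [Ideal.map_span, map_pow, MvPolynomial.map_X, ← Set.range_comp] at h1
  exact h1

theorem rt_core_top {N d : ℕ} {O κ : Type*} [CommRing O] [CommRing κ] (red : O →+* κ)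
    (h g : PMap N O) (ht : HasTop d h g) : HasTop d (mapc red h) (mapc red g) := by
  intro i
  refine ⟨(ht i).1.map red, ?_⟩
  show (MvPolynomial.map red (h i) - MvPolynomial.map red (g i)).totalDegree < d
  rw [← map_sub]
  refine lt_of_le_of_lt ?_ (ht i).2
  exact Finset.sup_mono (MvPolynomial.support_map_subset _ _)

theorem rt_core {k O K κ : Type*} [Field k] [CommRing O] [IsDomain O] [ValuationRing O]
    [Field K] [IsAlgClosed K] [Algebra O K] [IsFractionRing O K] [Field κ] [CharZero κ]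
    (φ : k →+* O) (red : O →+* κ) (hred : ∀ x, red x = 0 ↔ ¬ IsUnit x) {N d : ℕ} (hd : 2 ≤ d)
    (g : PMap N k) (hg : Reg g) (hgh : ∀ i, (g i).IsHomogeneous d)
    (a : Fin N → Fin N → (Fin N →₀ ℕ) → k) (ha : ∀ l i α, a l i α ≠ 0 → α.degree = d - 1)
    (ha' : ∀ l j, Lam a (RingHom.id k) (fun i => pderiv j (g i)) l = if l = j then 1 else 0)
    (f : PMap N K) (hf : HasTop d f (mapc ((algebraMap O K).comp φ) g))
    (hl : ∀ l, Lam a ((algebraMap O K).comp φ) f l = 0) (hPC : PC f) (i : Fin N)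
    (α : Fin N →₀ ℕ) : coeff α (f i) ∈ Set.range (algebraMap O K) := by
  by_contra hcon
  obtain ⟨R, ρ, hρ, hρ0, h, hh, hs, i0, hi0⟩ :=
    scale_choice φ red hred f g hf hgh (fun hall => hcon (hall i α))
  have hmm : mapc red (mapc φ g) = mapc (red.comp φ) g := rt_core_mapc_mapc φ red g
  have hReg : Reg (mapc red (mapc φ g)) := by
    rw [hmm]
    exact rt_core_reg _ g hg
  have hTop : HasTop d (mapc red h) (mapc red (mapc φ g)) := rt_core_top red h _ hh
  have hR : R ≠ 0 := by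
    rintro rfl
    simp at hρ
  obtain ⟨ε, hε, hm, hdvd⟩ := core_red red hred hd R ρ hρ hρ0 f h (mapc φ g) hh hReg hs hPC
  obtain ⟨w, hw⟩ := euler_of_dvd (by omega : 1 ≤ d) (mapc red h) (mapc red (mapc φ g)) hReg hTop
    ε hε hm hdvd
  have hl1 : ∀ l, Lam a φ h l = 0 := fun l => lam_scale a ha φ f h R hR hs l (hl l)
  have hl2 : ∀ l, Lam a (red.comp φ) (mapc red h) l = 0 := by
    intro l
    rw [lam_map, hl1, map_zero]
  rw [hmm] at hTop
  have hfin := lam_euler (by omega : 1 ≤ d) (red.comp φ) g hgh a ha ha' (mapc red h) hTop w hw hl2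
  apply hi0
  have h1 := congrFun (hfin.trans hmm.symm) i0
  exact h1

end PCFib
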