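import Pool.Agent.H641.PCF.Defs

open MvPolynomial

namespace PCFib



theorem val_exists {K : Type*} [Field K] (k : Subfield K) (hk : ∀ z : K, IsIntegral k z → z ∈ k)
    (z : K) (hz : z ∉ k) : ∃ V : ValuationSubring K, (∀ x ∈ k, x ∈ V) ∧ z ∉ V := by
  have h1 : IsIntegrallyClosedIn k.toSubring K := by
    rw [Subring.isIntegrallyClosedIn_iff]
    intro x hx
    exact hk x hx
  obtain ⟨V, hV, hzV⟩ := Subring.exists_le_valuationSubring_of_isIntegrallyClosedIn
    (x := z) (R := k.toSubring) hz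
  exact ⟨V, fun x hx => hV hx, hzV⟩

end PCFib
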