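import Pool.Agent.H641.PCF.Defs
import Pool.Agent.H641.PCF.P_rt_core
import Pool.Agent.H641.PCF.P_val_exists

open MvPolynomial

namespace PCFib



theorem rt_complex {N d : ℕ} (hd : 2 ≤ d) (K₀ : Subfield ℂ)
    (hK : ∀ z : ℂ, IsIntegral K₀ z → z ∈ K₀) (g : PMap N K₀) (hg : Reg g)
    (hgh : ∀ i, (g i).IsHomogeneous d)
    (a : Fin N → Fin N → (Fin N →₀ ℕ) → K₀) (ha : ∀ l i α, a l i α ≠ 0 → α.degree = d - 1)
    (ha' : ∀ l j, Lam a (RingHom.id K₀) (fun i => pderiv j (g i)) l = if l = j then 1 else 0)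
    (f : PMap N ℂ) (hf : HasTop d f (mapc K₀.subtype g)) (hl : ∀ l, Lam a K₀.subtype f l = 0)
    (hPC : PC f) (i : Fin N) (α : Fin N →₀ ℕ) : coeff α (f i) ∈ K₀ := by
  by_contra hz
  obtain ⟨V, hV, hzV⟩ := val_exists K₀ hK _ hz
  let φ : K₀ →+* V := K₀.subtype.codRestrict V (fun x => hV _ x.2)
  have hφ : (algebraMap V ℂ).comp φ = K₀.subtype := by
    ext x
    rfl
  have hc0 : CharZero K₀ := K₀.subtype.charZero
  have hc : CharZero (IsLocalRing.ResidueField V) :=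
    (RingHom.charZero_iff ((IsLocalRing.residue V).comp φ).injective).1 hc0
  have h := rt_core (K := ℂ) φ (IsLocalRing.residue V) (fun x => by
    rw [IsLocalRing.residue_eq_zero_iff, IsLocalRing.mem_maximalIdeal, mem_nonunits_iff]) hd g hg
    hgh a ha ha' f (by rw [hφ]; exact hf) (by rw [hφ]; exact hl) hPC i α
  obtain ⟨v, hv⟩ := h
  apply hzV
  rw [← hv]
  exact v.2

end PCFib
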