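import Pool.Agent.H641.PCF.Defs

open MvPolynomial

namespace PCFib



theorem eval_smul_hom849 {N d : ℕ} {p : MvPolynomial (Fin N) ℂ} (hp : p.IsHomogeneous d) (μ : ℂ)
    (w : Fin N → ℂ) : eval (μ • w) p = μ ^ d * eval w p := by
  rw [eval_eq', eval_eq', Finset.mul_sum]
  refine Finset.sum_congr rfl fun m hm => ?_
  have hd : ∑ i, m i = d := by
    rw [hp.degree_eq_sum_deg_support hm]
    symm
    refine Finset.sum_subset (Finset.subset_univ _) ?_
    intro i _ hi
    simpa using hi
  have h1 : ∏ i, (μ • w) i ^ m i = μ ^ d * ∏ i, w i ^ m i := by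
    simp only [Pi.smul_apply, smul_eq_mul, mul_pow, Finset.prod_mul_distrib]
    rw [Finset.prod_pow_eq_pow_sum, hd]
  rw [h1]
  ring

theorem sub_top849 {N d : ℕ} (p : MvPolynomial (Fin N) ℂ) (hp : p.totalDegree ≤ d) :
    p - homogeneousComponent d p = ∑ k ∈ Finset.range d, homogeneousComponent k p := by
  have h1 : p = ∑ k ∈ Finset.range (d + 1), homogeneousComponent k p := by
    conv_lhs => rw [← sum_homogeneousComponent p]
    refine Finset.sum_subset ?_ ?_
    · intro k hk
      simp only [Finset.mem_range] at hk ⊢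
      omega
    · intro k _ hk
      simp only [Finset.mem_range, not_lt] at hk
      exact homogeneousComponent_eq_zero _ _ (by omega)
  rw [Finset.sum_range_succ] at h1
  exact sub_eq_of_eq_add h1

theorem top_conj {N d : ℕ} (hd : 2 ≤ d) (f g : PMap N ℂ) (hf : IsRegularEndo d f)
    (hg : IsProjEndo d g) (hc : ProjConj (topPart d f) g) :
    ∃ f' : PMap N ℂ, AffConj f f' ∧ HasTop d f' g := by
  obtain ⟨A, c, hc0, hA⟩ := hc
  obtain ⟨μ, hμ⟩ := IsAlgClosed.exists_pow_nat_eq c (n := d - 1) (by omega)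
  have hμ0 : μ ≠ 0 := by
    rintro rfl
    rw [zero_pow (by omega)] at hμ
    exact hc0 hμ.symm
  have hμd : μ⁻¹ * μ ^ d = c := by
    rw [← hμ]
    obtain ⟨e, rfl⟩ : ∃ e, d = e + 1 := ⟨d - 1, by omega⟩
    rw [Nat.add_sub_cancel, pow_succ]
    field_simp
  -- coordinates of linear maps
  have hlin : ∀ (B : (Fin N → ℂ) →ₗ[ℂ] (Fin N → ℂ)) (z : Fin N → ℂ) (i : Fin N),
      B z i = ∑ j, B (Pi.single j 1) i * z j := by
    intro B z i
    conv_lhs => rw [LinearMap.pi_apply_eq_sum_univ B z]
    rw [Finset.sum_apply]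
    refine Finset.sum_congr rfl fun j _ => ?_
    rw [Pi.smul_apply, smul_eq_mul, mul_comm]
    have h1 : (fun k => if j = k then (1 : ℂ) else 0) = Pi.single j 1 := by
      funext k
      simp [Pi.single_apply, eq_comm]
    rw [h1]
  let Lp : PMap N ℂ := fun i => ∑ j, C (μ * A (Pi.single j 1) i) * X j
  have hLph : ∀ i, (Lp i).IsHomogeneous 1 := fun i =>
    IsHomogeneous.sum _ _ _ fun j _ => isHomogeneous_C_mul_X _ _
  have hLp : ∀ z, ev Lp z = μ • A z := by
    intro z
    funext i
    simp only [ev, Lp, map_sum, map_mul, eval_C, eval_X, Pi.smul_apply, smul_eq_mul]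
    rw [show A z i = ∑ j, A (Pi.single j 1) i * z j from hlin A.toLinearMap z i, Finset.mul_sum]
    exact Finset.sum_congr rfl fun j _ => by ring
  have hcomp : ∀ (h : PMap N ℂ) (z : Fin N → ℂ) (i : Fin N),
      eval z (∑ j, C (μ⁻¹ * A.symm (Pi.single j 1) i) * bind₁ Lp (h j)) =
        (μ⁻¹ • A.symm (ev h (μ • A z))) i := by
    intro h z i
    simp only [map_sum, map_mul, eval_C, Pi.smul_apply, smul_eq_mul]
    rw [show A.symm (ev h (μ • A z)) i =
      ∑ j, A.symm (Pi.single j 1) i * (ev h (μ • A z)) j from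
        hlin A.symm.toLinearMap _ i, Finset.mul_sum]
    refine Finset.sum_congr rfl fun j _ => ?_
    have h1 : eval z (bind₁ Lp (h j)) = ev h (μ • A z) j := by
      rw [← hLp z]
      simp only [ev]
      rw [MvPolynomial.eval, eval₂Hom_bind₁]
      rfl
    rw [h1]
    ring
  refine ⟨fun i => ∑ j, C (μ⁻¹ * A.symm (Pi.single j 1) i) * bind₁ Lp (f j), ?_, ?_⟩
  · let e : (Fin N → ℂ) ≃ₗ[ℂ] (Fin N → ℂ) := A.trans (LinearEquiv.smulOfNeZero ℂ _ μ hμ0)
    have he : ∀ z, e z = μ • A z := fun z => rfl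
    refine ⟨e.toAffineEquiv, fun z => ?_⟩
    have h1 : e.toAffineEquiv z = μ • A z := he z
    rw [h1]
    funext i
    have h2 := hcomp f z i
    rw [show ev (fun i => ∑ j, C (μ⁻¹ * A.symm (Pi.single j 1) i) * bind₁ Lp (f j)) z i =
      eval z (∑ j, C (μ⁻¹ * A.symm (Pi.single j 1) i) * bind₁ Lp (f j)) from rfl, h2]
    have h3 : e.toAffineEquiv.symm (ev f (μ • A z)) = μ⁻¹ • A.symm (ev f (μ • A z)) := by
      have h4 : e.toAffineEquiv.symm (ev f (μ • A z)) = e.symm (ev f (μ • A z)) := rfl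
      rw [h4, LinearEquiv.symm_apply_eq, he, map_smul, LinearEquiv.apply_symm_apply, smul_smul,
        mul_inv_cancel₀ hμ0, one_smul]
    rw [h3]
  · intro i
    refine ⟨hg.1 i, ?_⟩
    have hgi : g i = ∑ j, C (μ⁻¹ * A.symm (Pi.single j 1) i) * bind₁ Lp (topPart d f j) := by
      apply MvPolynomial.funext
      intro z
      rw [hcomp]
      have h1 : ev (topPart d f) (μ • A z) = μ ^ d • ev (topPart d f) (A z) := by
        funext j
        simp only [ev, topPart, Pi.smul_apply, smul_eq_mul]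
        exact eval_smul_hom849 (homogeneousComponent_isHomogeneous d (f j)) μ (A z)
      rw [h1, map_smul, smul_smul, hμd, ← hA z]
      rfl
    have hsub : (∑ j, C (μ⁻¹ * A.symm (Pi.single j 1) i) * bind₁ Lp (f j)) - g i =
        ∑ j, C (μ⁻¹ * A.symm (Pi.single j 1) i) *
          ∑ k ∈ Finset.range d, bind₁ Lp (homogeneousComponent k (f j)) := by
      rw [hgi, ← Finset.sum_sub_distrib]
      refine Finset.sum_congr rfl fun j _ => ?_
      rw [← mul_sub, ← map_sub, ← map_sum, ← sub_top849 (f j) (hf.1 j)]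
      rfl
    rw [hsub]
    have hd0 : 0 < d := by omega
    refine lt_of_le_of_lt (totalDegree_finsetSum_le (d := d - 1) fun j _ => ?_) (by omega)
    refine (totalDegree_mul _ _).trans ?_
    rw [totalDegree_C, zero_add]
    refine totalDegree_finsetSum_le fun k hk => ?_
    have hk' : k < d := Finset.mem_range.mp hk
    have hh : (bind₁ Lp (homogeneousComponent k (f j))).IsHomogeneous (1 * k) :=
      (homogeneousComponent_isHomogeneous k (f j)).aeval Lp hLph
    refine hh.totalDegree_le.trans (by omega)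

end PCFib
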