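import Pool.Agent.H641.PCF.Defs
import Pool.Agent.H641.PCF.P_jac_ne_zero
import Pool.Agent.H641.PCF.P_lam_exists
import Pool.Agent.H641.PCF.P_reg_of_nonsing
import Pool.Agent.H641.PCF.P_reg_descend
import Pool.Agent.H641.PCF.P_countable_subfield
import Pool.Agent.H641.PCF.P_pcset_of_pcf
import Pool.Agent.H641.PCF.P_pcset_conj
import Pool.Agent.H641.PCF.P_pc_of_pcset
import Pool.Agent.H641.PCF.P_affConj_trans
import Pool.Agent.H641.PCF.P_top_conj
import Pool.Agent.H641.PCF.P_translate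
import Pool.Agent.H641.PCF.P_rt_complex

open MvPolynomial

namespace PCFib



theorem countable_reps_lift {N : ℕ} (K₀ : Subfield ℂ) (f : PMap N ℂ)
    (h : ∀ i α, coeff α (f i) ∈ K₀) : ∃ f₀ : PMap N K₀, mapc K₀.subtype f₀ = f := by
  refine ⟨fun i => ∑ α ∈ (f i).support, monomial α (⟨coeff α (f i), h i α⟩ : K₀), ?_⟩
  funext i
  show MvPolynomial.map K₀.subtype (∑ α ∈ (f i).support, monomial α (⟨coeff α (f i), h i α⟩ : K₀)) = f i
  rw [map_sum]
  conv_rhs => rw [← MvPolynomial.support_sum_monomial_coeff (f i)]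
  refine Finset.sum_congr rfl fun α _ => ?_
  rw [MvPolynomial.map_monomial]
  rfl

theorem countable_reps {N d : ℕ} (hd : 2 ≤ d) (g : PMap N ℂ) (hg : IsProjEndo d g) :
    ∃ T : Set (PMap N ℂ), T.Countable ∧ ∀ f : PMap N ℂ, IsRegularEndo d f → IsPCF d f →
      ProjConj (topPart d f) g → ∃ f' ∈ T, AffConj f f' := by
  have hd1 : 1 ≤ d := by omega
  have hS : (⋃ i : Fin N, (fun α => coeff α (g i)) '' ((g i).support : Set (Fin N →₀ ℕ))).Countable :=
    Set.countable_iUnion fun i => ((g i).support.countable_toSet).image _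
  obtain ⟨K₀, hK0c, hSK, hK⟩ := countable_subfield _ hS
  have hgc : ∀ i α, coeff α (g i) ∈ K₀ := by
    intro i α
    by_cases hα : α ∈ (g i).support
    · exact hSK (Set.mem_iUnion.2 ⟨i, α, hα, rfl⟩)
    · rw [MvPolynomial.notMem_support_iff.1 hα]
      exact K₀.zero_mem
  obtain ⟨g₀, hg₀⟩ := countable_reps_lift K₀ g hgc
  have hcoef : ∀ i α, coeff α (g i) = ((coeff α (g₀ i) : K₀) : ℂ) := by
    intro i α
    rw [← hg₀]
    show coeff α (MvPolynomial.map K₀.subtype (g₀ i)) = _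
    rw [MvPolynomial.coeff_map]
    rfl
  have hgh₀ : ∀ i, (g₀ i).IsHomogeneous d := by
    intro i α hα
    refine hg.1 i ?_
    rw [hcoef]
    intro h0
    exact hα (by exact_mod_cast h0)
  have hRg : Reg g := reg_of_nonsing g hg.2
  have hRg₀ : Reg g₀ := reg_descend K₀.subtype g₀ (by rw [hg₀]; exact hRg)
  obtain ⟨a, ha, ha'⟩ := lam_exists hd1 g₀ hRg₀ hgh₀
  haveI : Countable K₀ := hK0c.to_subtype
  haveI : Countable (MvPolynomial (Fin N) K₀) := by
    rw [← Cardinal.mk_le_aleph0_iff]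
    refine MvPolynomial.cardinalMk_le_max.trans ?_
    simp
  refine ⟨Set.range (mapc K₀.subtype : PMap N K₀ → PMap N ℂ), Set.countable_range _, ?_⟩
  intro f hf hp hc
  obtain ⟨f₁, hf₁, ht₁⟩ := top_conj hd f g hf hg hc
  obtain ⟨f', hf', ht', hl⟩ := translate hd K₀ g₀ hgh₀ a ha ha' f₁ (by rw [hg₀]; exact ht₁)
  have hcc := affConj_trans f f₁ f' hf₁ hf'
  have hps : PCset f' := pcset_conj f f' hcc (pcset_of_pcf hd1 f hf hp)
  have ht'' : HasTop d f' g := by rw [hg₀] at ht'; exact ht'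
  have hPC : PC f' := pc_of_pcset f' (jac_ne_zero hd1 f' g hRg ht'') hps
  have hco := rt_complex hd K₀ hK g₀ hRg₀ hgh₀ a ha ha' f' ht' hl hPC
  obtain ⟨f₀, hf₀⟩ := countable_reps_lift K₀ f' hco
  exact ⟨f', ⟨f₀, hf₀⟩, hcc⟩

end PCFib
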