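import Pool.Agent.H641.PCF.Defs

open MvPolynomial

namespace PCFib



theorem dominate {B K F : Type*} [CommRing B] [IsDomain B] [Field K] [Field F] (ι : B →+* K)
    (hι : Function.Injective ι) (c : B →+* F) :
    ∃ (V : ValuationSubring K) (j : B →+* V), (∀ x, (j x : K) = ι x) ∧
      ∀ x, c x = 0 → IsLocalRing.residue V (j x) = 0 := by
  classical
  have hsurj : Function.Surjective ι.rangeRestrict := ι.rangeRestrict_surjective
  have hI : Ideal.map ι.rangeRestrict (RingHom.ker c) ≠ ⊤ := by
    intro htop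
    have h1 : (1 : ι.range) ∈ Ideal.map ι.rangeRestrict (RingHom.ker c) := by
      rw [htop]; exact Submodule.mem_top
    obtain ⟨x, hx, hx1⟩ := (Ideal.mem_map_iff_of_surjective _ hsurj).1 h1
    have h2 : ι x = ι 1 := by
      rw [map_one]
      exact congrArg Subtype.val hx1
    have h3 : x = 1 := hι h2
    rw [h3, RingHom.mem_ker, map_one] at hx
    exact one_ne_zero hx
  obtain ⟨V, hV1, hV2⟩ := Ideal.image_subset_nonunits_valuationSubring _ hI
  have hmem : ∀ x, ι x ∈ V := fun x => hV1 ⟨x, rfl⟩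
  refine ⟨V, ι.codRestrict V.toSubring hmem, fun x => rfl, fun x hx => ?_⟩
  rw [IsLocalRing.residue_eq_zero_iff]
  refine ValuationSubring.coe_mem_nonunits_iff.1 ?_
  exact hV2 ⟨ι.rangeRestrict x, Ideal.mem_map_of_mem _ hx, rfl⟩

end PCFib
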