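import Pool.Agent.H641.PCF.Defs

open MvPolynomial

namespace PCFib



theorem eval_primitive {N d : ℕ} {κ : Type*} [Field κ] (g : PMap N κ) (hg : Reg g)
    (z : Fin N → κ) (hz : ∀ i, eval z (g i) = 0) : z = 0 := by
  obtain ⟨M, hM⟩ := hg
  funext j
  have h1 : Ideal.span (Set.range g) ≤ RingHom.ker (eval z) := by
    rw [Ideal.span_le]
    rintro _ ⟨i, rfl⟩
    exact hz i
  have h2 : eval z ((X j : MvPolynomial (Fin N) κ) ^ M) = 0 := h1 (hM j)
  rw [map_pow, eval_X] at h2
  by_contra h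
  exact pow_ne_zero M h h2

end PCFib
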