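import Pool.Agent.H641.PCF.Defs
import Pool.Agent.H641.PCF.P_nonvanish

open MvPolynomial

namespace PCFib



theorem very_general (B : Type) [CommRing B] [IsDomain B] [Algebra ℂ B] [Algebra.FiniteType ℂ B]
    (P : ℕ → B) (hP : ∀ n, P n ≠ 0) : ∃ c : B →ₐ[ℂ] ℂ, ∀ n, c (P n) ≠ 0 := by
  obtain ⟨s, g, hinj, hint⟩ := exists_integral_inj_algHom_of_fg ℂ B
  let alg : Algebra (MvPolynomial (Fin s) ℂ) B := g.toRingHom.toAlgebra
  have hI : Algebra.IsIntegral (MvPolynomial (Fin s) ℂ) B := ⟨hint⟩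
  have hdvd : ∀ n, ∃ a : MvPolynomial (Fin s) ℂ, a ≠ 0 ∧
      P n ∣ algebraMap (MvPolynomial (Fin s) ℂ) B a := by
    intro n
    obtain ⟨r, hr, h⟩ := (hI.isIntegral (P n)).isAlgebraic.exists_nonzero_dvd
      (mem_nonZeroDivisors_of_ne_zero (hP n))
    exact ⟨r, hr, h⟩
  choose a ha0 ha using hdvd
  obtain ⟨z, hz⟩ := nonvanish a ha0
  have hsurj : Function.Surjective (eval z : MvPolynomial (Fin s) ℂ →+* ℂ) := fun w =>
    ⟨C w, eval_C w⟩
  have hmax : (RingHom.ker (eval z : MvPolynomial (Fin s) ℂ →+* ℂ)).IsMaximal :=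
    RingHom.ker_isMaximal_of_surjective _ hsurj
  have hker : RingHom.ker (algebraMap (MvPolynomial (Fin s) ℂ) B) ≤
      RingHom.ker (eval z : MvPolynomial (Fin s) ℂ →+* ℂ) := by
    have h1 : RingHom.ker (algebraMap (MvPolynomial (Fin s) ℂ) B) = ⊥ :=
      (RingHom.injective_iff_ker_eq_bot _).1 hinj
    rw [h1]
    exact bot_le
  obtain ⟨Q, hQ, hQc⟩ := Ideal.exists_ideal_over_maximal_of_isIntegral
    (RingHom.ker (eval z : MvPolynomial (Fin s) ℂ →+* ℂ)) hker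
  let fld : Field (B ⧸ Q) := Ideal.Quotient.field Q
  have hfin : Module.Finite ℂ (B ⧸ Q) := finite_of_finite_type_of_isJacobsonRing ℂ (B ⧸ Q)
  have hbij : Function.Bijective (algebraMap ℂ (B ⧸ Q)) :=
    IsAlgClosed.algebraMap_bijective_of_isIntegral
  let e : ℂ ≃ₐ[ℂ] (B ⧸ Q) := AlgEquiv.ofBijective (Algebra.ofId ℂ (B ⧸ Q)) hbij
  refine ⟨(e.symm : (B ⧸ Q) →ₐ[ℂ] ℂ).comp (Ideal.Quotient.mkₐ ℂ Q), fun n h => ?_⟩
  have h1 : Ideal.Quotient.mk Q (P n) = 0 := by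
    have h2 : e.symm (Ideal.Quotient.mk Q (P n)) = 0 := h
    exact (map_eq_zero_iff _ e.symm.injective).1 h2
  rw [Ideal.Quotient.eq_zero_iff_mem] at h1
  have h3 : algebraMap (MvPolynomial (Fin s) ℂ) B (a n) ∈ Q := Ideal.mem_of_dvd Q (ha n) h1
  have h4 : a n ∈ Q.comap (algebraMap (MvPolynomial (Fin s) ℂ) B) := h3
  rw [hQc] at h4
  exact hz n h4

end PCFib
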