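import Pool.Agent.H641.PCF.Defs
import Pool.Agent.H641.PCF.P_very_general

open MvPolynomial

namespace PCFib



theorem family_degree {N d : ℕ} (B : Type) [CommRing B] [IsDomain B] [Algebra ℂ B]
    [Algebra.FiniteType ℂ B] (f : PMap N B)
    (hreg : ∀ c : B →ₐ[ℂ] ℂ, IsRegularEndo d (mapc (c : B →+* ℂ) f)) (i : Fin N) :
    (f i).totalDegree ≤ d := by
  rw [totalDegree]
  refine Finset.sup_le fun α hα => ?_
  have hne : coeff α (f i) ≠ 0 := mem_support_iff.1 hα
  obtain ⟨c, hc⟩ := very_general B (fun _ => coeff α (f i)) (fun _ => hne)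
  have h1 : (mapc (c : B →+* ℂ) f i).totalDegree ≤ d := (hreg c).1 i
  have h2 : coeff α (mapc (c : B →+* ℂ) f i) ≠ 0 := by
    show coeff α (MvPolynomial.map (c : B →+* ℂ) (f i)) ≠ 0
    rw [coeff_map]
    exact hc 0
  exact (le_totalDegree (mem_support_iff.2 h2)).trans h1

end PCFib
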