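import Pool.Agent.H641.PCF.Defs

open MvPolynomial

namespace PCFib



theorem ns_clear_16492 {σ B : Type*} [CommRing B] [IsDomain B]
    (E : Set (MvPolynomial σ B))
    (hI : Ideal.span ((MvPolynomial.map (algebraMap B (FractionRing B))) '' E) = ⊤) :
    ∃ b : B, b ≠ 0 ∧ (C b : MvPolynomial σ B) ∈ Ideal.span E := by
  letI : Algebra (MvPolynomial σ B) (MvPolynomial σ (FractionRing B)) :=
    (MvPolynomial.map (algebraMap B (FractionRing B))).toAlgebra
  haveI hloc : IsLocalization ((nonZeroDivisors B).map (C : B →+* MvPolynomial σ B))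
      (MvPolynomial σ (FractionRing B)) :=
    MvPolynomial.isLocalization (nonZeroDivisors B) (FractionRing B)
  have h1 : (1 : MvPolynomial σ (FractionRing B)) ∈
      (Ideal.span E).map (algebraMap (MvPolynomial σ B) (MvPolynomial σ (FractionRing B))) := by
    rw [Ideal.map_span]
    show (1 : MvPolynomial σ (FractionRing B)) ∈
      Ideal.span ((MvPolynomial.map (algebraMap B (FractionRing B))) '' E)
    rw [hI]
    trivial
  rw [IsLocalization.mem_map_algebraMap_iff
    ((nonZeroDivisors B).map (C : B →+* MvPolynomial σ B))] at h1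
  obtain ⟨⟨w, s⟩, hws⟩ := h1
  rw [one_mul] at hws
  obtain ⟨b, hb, hbs⟩ := s.2
  have hinj : Function.Injective (algebraMap (MvPolynomial σ B) (MvPolynomial σ (FractionRing B))) := by
    show Function.Injective (MvPolynomial.map (algebraMap B (FractionRing B)))
    exact MvPolynomial.map_injective _ (IsFractionRing.injective B (FractionRing B))
  have h2 := hinj hws
  refine ⟨b, nonZeroDivisors.ne_zero hb, ?_⟩
  have h3 : (C b : MvPolynomial σ B) = (w : MvPolynomial σ B) := by
    rw [← h2]
    exact hbs
  rw [h3]
  exact w.2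

theorem ns_solution {σ B Ω : Type*} [Finite σ] [CommRing B] [IsDomain B] [Field Ω] [IsAlgClosed Ω]
    (ι : B →+* Ω) (hι : Function.Injective ι) (E : Set (MvPolynomial σ B))
    (F : Type*) [Field F]
    (h : ∀ b : B, b ≠ 0 → ∃ c : B →+* F, c b ≠ 0 ∧ ∃ x : σ → F, ∀ p ∈ E, eval₂ c x p = 0) :
    ∃ x : σ → Ω, ∀ p ∈ E, eval₂ ι x p = 0 := by
  by_cases hI : Ideal.span ((MvPolynomial.map (algebraMap B (FractionRing B))) '' E) = ⊤
  · exfalso
    obtain ⟨b, hb, hbE⟩ := ns_clear_16492 E hI
    obtain ⟨c, hc, x, hx⟩ := h b hb
    have hle : Ideal.span E ≤ RingHom.ker (eval₂Hom c x) := by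
      rw [Ideal.span_le]
      intro p hp
      exact hx p hp
    have h2 := hle hbE
    rw [RingHom.mem_ker, coe_eval₂Hom, eval₂_C] at h2
    exact hc h2
  · obtain ⟨m, hm, hIm⟩ := Ideal.exists_le_maximal _ hI
    letI : Field (MvPolynomial σ (FractionRing B) ⧸ m) := Ideal.Quotient.field m
    haveI : Algebra.FiniteType (FractionRing B) (MvPolynomial σ (FractionRing B) ⧸ m) :=
      Algebra.FiniteType.of_surjective (Ideal.Quotient.mkₐ (FractionRing B) m)
        (Ideal.Quotient.mkₐ_surjective _ _)
    haveI : Module.Finite (FractionRing B) (MvPolynomial σ (FractionRing B) ⧸ m) :=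
      finite_of_finite_type_of_isJacobsonRing _ _
    letI : Algebra (FractionRing B) Ω := (IsFractionRing.lift hι).toAlgebra
    let g : (MvPolynomial σ (FractionRing B) ⧸ m) →ₐ[FractionRing B] Ω := IsAlgClosed.lift
    refine ⟨fun i => g (Ideal.Quotient.mk m (X i)), ?_⟩
    intro p hp
    have h3 : eval₂ ι (fun i => g (Ideal.Quotient.mk m (X i))) p =
        g (Ideal.Quotient.mk m (MvPolynomial.map (algebraMap B (FractionRing B)) p)) := by
      have : (eval₂Hom ι (fun i => g (Ideal.Quotient.mk m (X i)))) =
          (g : (MvPolynomial σ (FractionRing B) ⧸ m) →+* Ω).comp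
            ((Ideal.Quotient.mk m).comp (MvPolynomial.map (algebraMap B (FractionRing B)))) := by
        apply MvPolynomial.ringHom_ext
        · intro r
          rw [coe_eval₂Hom, eval₂_C]
          simp only [RingHom.comp_apply, MvPolynomial.map_C]
          have h5 : (Ideal.Quotient.mk m) (C (algebraMap B (FractionRing B) r)) =
              algebraMap (FractionRing B) (MvPolynomial σ (FractionRing B) ⧸ m)
                (algebraMap B (FractionRing B) r) := rfl
          rw [h5]
          show ι r = g (algebraMap (FractionRing B) (MvPolynomial σ (FractionRing B) ⧸ m)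
                (algebraMap B (FractionRing B) r))
          rw [AlgHom.commutes]
          show ι r = IsFractionRing.lift hι (algebraMap B (FractionRing B) r)
          rw [IsFractionRing.lift_algebraMap]
        · intro i
          rw [coe_eval₂Hom, eval₂_X]
          simp only [RingHom.comp_apply, MvPolynomial.map_X]
          rfl
      have h6 := congrArg (fun f => f p) this
      exact h6
    rw [h3]
    have h4 : Ideal.Quotient.mk m (MvPolynomial.map (algebraMap B (FractionRing B)) p) = 0 := by
      rw [Ideal.Quotient.eq_zero_iff_mem]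
      exact hIm (Ideal.subset_span ⟨p, hp, rfl⟩)
    rw [h4, map_zero]

end PCFib
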