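import Pool.Agent.H641.PCF.Defs
import Pool.Agent.H641.PCF.P_ns_solution

open MvPolynomial

namespace PCFib



theorem pcg_comp {N : ℕ} {S R : Type*} [CommRing S] [CommRing R] (ψ : S →+* R) (f g : PMap N S) :
    mapc ψ (comp f g) = comp (mapc ψ f) (mapc ψ g) := by
  funext i
  exact map_bind₁ ψ g (f i)

theorem pcg_aff {N : ℕ} {S R : Type*} [CommRing S] [CommRing R] (ψ : S →+* R)
    (A : Matrix (Fin N) (Fin N) S) (t : Fin N → S) :
    mapc ψ (affMap A t) = affMap (A.map ψ) (fun i => ψ (t i)) := by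
  funext i
  simp [mapc, affMap, map_sum]

theorem pcg_mapc {N : ℕ} {B S R : Type*} [CommRing B] [CommRing S] [CommRing R] (φ : B →+* S)
    (ψ : S →+* R) (f : PMap N B) : mapc ψ (mapc φ f) = mapc (ψ.comp φ) f := by
  funext i
  exact map_map φ ψ (f i)

theorem pcg_iff {N : ℕ} {S R : Type*} [CommRing S] [CommRing R] (ψ : S →+* R) (g₁ g₂ : PMap N S)
    (A A' : Matrix (Fin N) (Fin N) S) (t : Fin N → S) :
    ((∀ i j, ψ ((A * A' - 1) i j) = 0) ∧
      ∀ i m, ψ (coeff m (comp g₁ (affMap A t) i - comp (affMap A t) g₂ i)) = 0) ↔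
    PConj (mapc ψ g₁) (mapc ψ g₂) (A.map ψ) (A'.map ψ) (fun i => ψ (t i)) := by
  unfold PConj
  rw [← pcg_aff, ← pcg_comp, ← pcg_comp, ← Matrix.map_mul]
  constructor
  · rintro ⟨h1, h2⟩
    constructor
    · ext i j
      have := h1 i j
      rw [Matrix.sub_apply, map_sub, sub_eq_zero] at this
      rw [Matrix.map_apply, this]
      by_cases hij : i = j
      · subst hij; simp
      · simp [Matrix.one_apply_ne hij]
    · funext i
      ext m
      have := h2 i m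
      rw [coeff_sub, map_sub, sub_eq_zero] at this
      show coeff m (MvPolynomial.map ψ _) = coeff m (MvPolynomial.map ψ _)
      rw [coeff_map, coeff_map, this]
  · rintro ⟨h1, h2⟩
    constructor
    · intro i j
      have h3 := congrFun (congrFun h1 i) j
      rw [Matrix.map_apply] at h3
      rw [Matrix.sub_apply, map_sub, h3, sub_eq_zero]
      by_cases hij : i = j
      · subst hij; simp
      · simp [Matrix.one_apply_ne hij]
    · intro i m
      have h3 := congrArg (coeff m) (congrFun h2 i)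
      change coeff m (MvPolynomial.map ψ _) = coeff m (MvPolynomial.map ψ _) at h3
      rw [coeff_map, coeff_map] at h3
      rw [coeff_sub, map_sub, h3, sub_self]

theorem pconj_generic {N : ℕ} {B Ω F : Type*} [CommRing B] [IsDomain B] [Field Ω] [IsAlgClosed Ω]
    [Field F] (ι : B →+* Ω) (hι : Function.Injective ι) (f₁ f₂ : PMap N B)
    (h : ∀ b : B, b ≠ 0 → ∃ c : B →+* F, c b ≠ 0 ∧
      ∃ A A' t, PConj (mapc c f₁) (mapc c f₂) A A' t) :
    ∃ A A' t, PConj (mapc ι f₁) (mapc ι f₂) A A' t := by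
  obtain ⟨gA, hgA⟩ : ∃ gA : Matrix (Fin N) (Fin N)
      (MvPolynomial ((Fin N × Fin N) ⊕ (Fin N × Fin N) ⊕ Fin N) B),
      ∀ i j, gA i j = X (Sum.inl (i, j)) := ⟨fun i j => X (Sum.inl (i, j)), fun _ _ => rfl⟩
  obtain ⟨gA', hgA'⟩ : ∃ gA' : Matrix (Fin N) (Fin N)
      (MvPolynomial ((Fin N × Fin N) ⊕ (Fin N × Fin N) ⊕ Fin N) B),
      ∀ i j, gA' i j = X (Sum.inr (Sum.inl (i, j))) :=
    ⟨fun i j => X (Sum.inr (Sum.inl (i, j))), fun _ _ => rfl⟩
  obtain ⟨gt, hgt⟩ : ∃ gt : Fin N →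
      (MvPolynomial ((Fin N × Fin N) ⊕ (Fin N × Fin N) ⊕ Fin N) B),
      ∀ i, gt i = X (Sum.inr (Sum.inr i)) := ⟨fun i => X (Sum.inr (Sum.inr i)), fun _ => rfl⟩
  obtain ⟨E, hE⟩ : ∃ E : Set (MvPolynomial ((Fin N × Fin N) ⊕ (Fin N × Fin N) ⊕ Fin N) B),
      E = {p | (∃ i j, p = (gA * gA' - 1) i j) ∨
        ∃ i m, p = coeff m (comp (mapc C f₁) (affMap gA gt) i -
          comp (affMap gA gt) (mapc C f₂) i)} := ⟨_, rfl⟩
  obtain ⟨x, hx⟩ := ns_solution ι hι E F (by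
    intro b hb
    obtain ⟨c, hc, A, A', t, hP⟩ := h b hb
    refine ⟨c, hc, Sum.elim (fun p => A p.1 p.2) (Sum.elim (fun p => A' p.1 p.2) t), ?_⟩
    obtain ⟨x, hx⟩ : ∃ x : (Fin N × Fin N) ⊕ (Fin N × Fin N) ⊕ Fin N → F,
      x = Sum.elim (fun p => A p.1 p.2) (Sum.elim (fun p => A' p.1 p.2) t) := ⟨_, rfl⟩
    rw [← hx]
    have key := pcg_iff (eval₂Hom c x) (mapc C f₁) (mapc C f₂) gA gA' gt
    have e0 : (eval₂Hom c x).comp C = c := by
      ext b; simp
    have e1 : gA.map (eval₂Hom c x) = A := by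
      ext i j
      rw [Matrix.map_apply, hgA, eval₂Hom_X', hx]
      rfl
    have e2 : gA'.map (eval₂Hom c x) = A' := by
      ext i j
      rw [Matrix.map_apply, hgA', eval₂Hom_X', hx]
      rfl
    have e3 : (fun i => eval₂Hom c x (gt i)) = t := by
      funext i
      rw [hgt, eval₂Hom_X', hx]
      rfl
    rw [pcg_mapc, pcg_mapc, e0, e1, e2, e3] at key
    have k := key.mpr hP
    intro p hp
    rw [hE] at hp
    rcases hp with ⟨i, j, rfl⟩ | ⟨i, m, rfl⟩
    · exact k.1 i j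
    · exact k.2 i m)
  have key := pcg_iff (eval₂Hom ι x) (mapc C f₁) (mapc C f₂) gA gA' gt
  have e0 : (eval₂Hom ι x).comp C = ι := by
    ext b; simp
  rw [pcg_mapc, pcg_mapc, e0] at key
  refine ⟨_, _, _, key.mp ⟨?_, ?_⟩⟩
  · intro i j
    exact hx _ (by rw [hE]; exact Or.inl ⟨i, j, rfl⟩)
  · intro i m
    exact hx _ (by rw [hE]; exact Or.inr ⟨i, m, rfl⟩)

end PCFib
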