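import Pool.Agent.H641.PCF.Defs

open MvPolynomial

namespace PCFib



/-- degree bound and top coefficient -/
def RGd (P : Polynomial ℂ) (k : ℕ) (c : ℂ) : Prop := P.natDegree ≤ k ∧ P.coeff k = c

theorem rga_mul {P Q : Polynomial ℂ} {k l : ℕ} {c c' : ℂ} (h : RGd P k c) (h' : RGd Q l c') :
    RGd (P * Q) (k + l) (c * c') := by
  refine ⟨Polynomial.natDegree_mul_le_of_le h.1 h'.1, ?_⟩
  rw [Polynomial.coeff_mul_add_eq_of_natDegree_le h.1 h'.1, h.2, h'.2]

theorem rga_pow {P : Polynomial ℂ} {k : ℕ} {c : ℂ} (h : RGd P k c) (n : ℕ) :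
    RGd (P ^ n) (n * k) (c ^ n) := by
  induction n with
  | zero => exact ⟨by simp, by simp⟩
  | succ n ih =>
    rw [pow_succ, pow_succ, Nat.succ_mul]
    exact rga_mul ih h

theorem rga_prod {N : ℕ} (s : Finset (Fin N)) (P : Fin N → Polynomial ℂ) (k : Fin N → ℕ)
    (c : Fin N → ℂ) (h : ∀ i, RGd (P i) (k i) (c i)) :
    RGd (∏ i ∈ s, P i) (∑ i ∈ s, k i) (∏ i ∈ s, c i) := by
  classical
  induction s using Finset.induction_on with
  | empty => exact ⟨by simp, by simp⟩
  | insert a s ha ih =>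
    rw [Finset.prod_insert ha, Finset.sum_insert ha, Finset.prod_insert ha]
    exact rga_mul (h a) ih

theorem rga_lin (u b : ℂ) : RGd (Polynomial.C u * Polynomial.X + Polynomial.C b) 1 u := by
  refine ⟨Polynomial.natDegree_linear_le, ?_⟩
  simp [Polynomial.coeff_C]

theorem rga_mon {N : ℕ} (u b : Fin N → ℂ) (m : Fin N →₀ ℕ) :
    RGd (∏ i, (Polynomial.C (u i) * Polynomial.X + Polynomial.C (b i)) ^ m i) m.degree
      (∏ i, u i ^ m i) := by
  rw [Finsupp.degree_eq_sum]
  have := rga_prod Finset.univ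
    (fun i => (Polynomial.C (u i) * Polynomial.X + Polynomial.C (b i)) ^ m i)
    (fun i => m i * 1) (fun i => u i ^ m i) (fun i => rga_pow (rga_lin (u i) (b i)) (m i))
  simpa using this

/-- restriction to a line -/
noncomputable def lineP {N : ℕ} (u b : Fin N → ℂ) (p : MvPolynomial (Fin N) ℂ) : Polynomial ℂ :=
  p.eval₂ Polynomial.C (fun i => Polynomial.C (u i) * Polynomial.X + Polynomial.C (b i))

theorem lineP_eval {N : ℕ} (u b : Fin N → ℂ) (p : MvPolynomial (Fin N) ℂ) (t : ℂ) :
    (lineP u b p).eval t = eval (fun i => u i * t + b i) p := by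
  unfold lineP
  rw [eval₂_eq', eval_eq', Polynomial.eval_finset_sum]
  apply Finset.sum_congr rfl
  intro m _
  rw [Polynomial.eval_mul, Polynomial.eval_C, Polynomial.eval_prod]
  simp

theorem rga_homeval {N : ℕ} (u : Fin N → ℂ) (p : MvPolynomial (Fin N) ℂ) (j : ℕ) :
    eval u (homogeneousComponent j p) =
      ∑ m ∈ p.support, if m.degree = j then coeff m p * ∏ i, u i ^ m i else 0 := by
  rw [homogeneousComponent_apply, map_sum, Finset.sum_filter]
  apply Finset.sum_congr rfl
  intro m _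
  split_ifs
  · rw [eval_monomial, Finsupp.prod_fintype _ _ (by simp)]
  · rfl

theorem rga_deg {N : ℕ} {p : MvPolynomial (Fin N) ℂ} {d : ℕ} (hp : p.totalDegree ≤ d)
    {m : Fin N →₀ ℕ} (hm : m ∈ p.support) : m.degree ≤ d := by
  have h1 := le_totalDegree hm
  have h2 : (m.sum fun _ e => e) = m.degree := by
    rw [Finsupp.degree_eq_sum, Finsupp.sum_fintype _ _ (by simp)]
  omega

theorem lineP_deg {N : ℕ} (u b : Fin N → ℂ) (p : MvPolynomial (Fin N) ℂ) (d : ℕ)
    (hp : p.totalDegree ≤ d) : (lineP u b p).natDegree ≤ d := by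
  unfold lineP
  rw [eval₂_eq']
  apply Polynomial.natDegree_sum_le_of_forall_le
  intro m hm
  refine (Polynomial.natDegree_C_mul_le _ _).trans ?_
  exact (rga_mon u b m).1.trans (rga_deg hp hm)

theorem lineP_top {N : ℕ} (u b : Fin N → ℂ) (p : MvPolynomial (Fin N) ℂ) (d : ℕ)
    (hp : p.totalDegree ≤ d) : (lineP u b p).coeff d = eval u (homogeneousComponent d p) := by
  unfold lineP
  rw [eval₂_eq', rga_homeval, Polynomial.finset_sum_coeff]
  apply Finset.sum_congr rfl
  intro m hm
  rw [Polynomial.coeff_C_mul]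
  split_ifs with h
  · rw [← h, (rga_mon u b m).2]
  · have h1 := rga_deg hp hm
    rw [Polynomial.coeff_eq_zero_of_natDegree_lt, mul_zero]
    exact lt_of_le_of_lt (rga_mon u b m).1 (lt_of_le_of_ne h1 h)

theorem lineP_coeff {N : ℕ} (u : Fin N → ℂ) (p : MvPolynomial (Fin N) ℂ) (j : ℕ) :
    (lineP u 0 p).coeff j = eval u (homogeneousComponent j p) := by
  unfold lineP
  rw [eval₂_eq', rga_homeval, Polynomial.finset_sum_coeff]
  apply Finset.sum_congr rfl
  intro m hm
  rw [Polynomial.coeff_C_mul]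
  have h1 : (∏ i, (Polynomial.C (u i) * Polynomial.X + Polynomial.C ((0 : Fin N → ℂ) i)) ^ m i)
      = Polynomial.C (∏ i, u i ^ m i) * Polynomial.X ^ m.degree := by
    rw [Finsupp.degree_eq_sum, map_prod, ← Finset.prod_pow_eq_pow_sum, ← Finset.prod_mul_distrib]
    apply Finset.prod_congr rfl
    intro i _
    rw [Pi.zero_apply, map_zero, add_zero, mul_pow, map_pow]
  rw [h1, Polynomial.coeff_C_mul, Polynomial.coeff_X_pow]
  split_ifs with h2 h3 h3
  · ring
  · exact absurd h2.symm h3
  · exact absurd h3.symm h2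
  · ring

theorem rga_totdeg {N : ℕ} (p : MvPolynomial (Fin N) ℂ) (d : ℕ)
    (h : ∀ j, d < j → ∀ u, eval u (homogeneousComponent j p) = 0) : p.totalDegree ≤ d := by
  unfold totalDegree
  apply Finset.sup_le
  intro m hm
  have h2 : (m.sum fun _ e => e) = m.degree := by
    rw [Finsupp.degree_eq_sum, Finsupp.sum_fintype _ _ (by simp)]
  rw [h2]
  by_contra hc
  push Not at hc
  have h3 : homogeneousComponent m.degree p = 0 := by
    apply MvPolynomial.funext
    intro u
    rw [h _ hc u, map_zero]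
  have h4 := coeff_homogeneousComponent (n := m.degree) (φ := p) m
  rw [h3, if_pos rfl, coeff_zero] at h4
  exact (mem_support_iff.mp hm) h4.symm

theorem regular_of_affConj {N d : ℕ} (hd : 1 ≤ d) (f₁ f₂ : PMap N ℂ) (h : AffConj f₁ f₂)
    (h₁ : IsRegularEndo d f₁) : IsRegularEndo d f₂ := by
  classical
  obtain ⟨e, he⟩ := h
  obtain ⟨hdeg, hreg⟩ := h₁
  let L : (Fin N → ℂ) ≃ₗ[ℂ] (Fin N → ℂ) := e.linear
  let b : Fin N → ℂ := e 0
  have hL : ∀ z, e z = L z + b := by
    intro z
    have := e.map_vadd 0 z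
    simpa using this
  have hLs : ∀ w, e.symm w = L.symm (w - b) := by
    intro w
    apply e.injective
    rw [hL (L.symm (w - b)), e.apply_symm_apply, L.apply_symm_apply, sub_add_cancel]
  let A : Fin N → Fin N → ℂ := fun i k => L.symm (fun j => if k = j then 1 else 0) i
  have hA : ∀ v i, L.symm v i = ∑ k, A i k * v k := by
    intro v i
    have h1 := LinearMap.pi_apply_eq_sum_univ (L.symm : (Fin N → ℂ) →ₗ[ℂ] (Fin N → ℂ)) v
    have h2 := congrFun h1 i
    rw [Finset.sum_apply] at h2
    have h3 : (L.symm : (Fin N → ℂ) →ₗ[ℂ] (Fin N → ℂ)) v i = L.symm v i := rfl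
    rw [← h3, h2]
    apply Finset.sum_congr rfl
    intro k _
    simp only [Pi.smul_apply, smul_eq_mul, A]
    rw [mul_comm]
    rfl
  have key : ∀ (z : Fin N → ℂ) (i : Fin N), lineP z 0 (f₂ i) =
      ∑ k, Polynomial.C (A i k) * (lineP (L z) b (f₁ k) - Polynomial.C (b k)) := by
    intro z i
    apply Polynomial.funext
    intro t
    rw [lineP_eval, Polynomial.eval_finset_sum]
    have h1 : (fun i => z i * t + (0 : Fin N → ℂ) i) = t • z := by
      funext i
      simp [mul_comm]
    rw [h1]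
    have h2 : eval (t • z) (f₂ i) = ev f₂ (t • z) i := rfl
    rw [h2, he, hLs, hA]
    apply Finset.sum_congr rfl
    intro k _
    rw [Polynomial.eval_mul, Polynomial.eval_C, Polynomial.eval_sub, Polynomial.eval_C, lineP_eval]
    have h3 : (fun i => (L z) i * t + b i) = e (t • z) := by
      rw [hL, map_smul]
      funext i
      simp [mul_comm]
    rw [h3]
    rfl
  have htop : ∀ z, ev (topPart d f₂) z = L.symm (ev (topPart d f₁) (L z)) := by
    intro z
    funext i
    have h1 : ev (topPart d f₂) z i = eval z (homogeneousComponent d (f₂ i)) := rfl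
    rw [h1, ← lineP_coeff, key, Polynomial.finset_sum_coeff, hA]
    apply Finset.sum_congr rfl
    intro k _
    rw [Polynomial.coeff_C_mul, Polynomial.coeff_sub, lineP_top _ _ _ _ (hdeg k),
      Polynomial.coeff_C_ne_zero (by omega), sub_zero]
    rfl
  refine ⟨?_, ?_⟩
  · intro i
    apply rga_totdeg
    intro j hj u
    rw [← lineP_coeff, key, Polynomial.finset_sum_coeff]
    apply Finset.sum_eq_zero
    intro k _
    rw [Polynomial.coeff_C_mul, Polynomial.coeff_sub, Polynomial.coeff_C_ne_zero (by omega),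
      Polynomial.coeff_eq_zero_of_natDegree_lt (lt_of_le_of_lt (lineP_deg _ _ _ _ (hdeg k)) hj),
      sub_zero, mul_zero]
  · intro z hz
    rw [htop] at hz
    have h1 : ev (topPart d f₁) (L z) = 0 := by
      have := congrArg L hz
      rwa [L.apply_symm_apply, map_zero] at this
    have h2 := hreg _ h1
    have h3 := congrArg L.symm h2
    rwa [L.symm_apply_apply, map_zero] at h3

end PCFib
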