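import Pool.Agent.H641.PCF.Defs
import Pool.Agent.H641.PCF.P_eval_primitive

open MvPolynomial

namespace PCFib



theorem hom_scale {N d : ℕ} {R : Type*} [CommRing R] {P : MvPolynomial (Fin N) R}
    (hP : P.IsHomogeneous d) (s : R) (z : Fin N → R) :
    eval (fun j => s * z j) P = s ^ d * eval z P := by
  rw [eval_eq', eval_eq', Finset.mul_sum]
  refine Finset.sum_congr rfl fun α hα => ?_
  have h1 : ∑ i, α i = d := by
    have h := hP.degree_eq_sum_deg_support hα
    have h2 : ∑ i ∈ α.support, α i = ∑ i, α i :=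
      Finset.sum_subset (Finset.subset_univ _) (by simp)
    omega
  have h2 : ∏ i, (s * z i) ^ α i = s ^ d * ∏ i, z i ^ α i := by
    simp only [mul_pow]
    rw [Finset.prod_mul_distrib, Finset.prod_pow_eq_pow_sum, h1]
  rw [h2]
  ring

theorem eval_hom {N : ℕ} {R S : Type*} [CommRing R] [CommRing S] (φ : R →+* S)
    (P : MvPolynomial (Fin N) R) (z : Fin N → R) :
    eval (fun j => φ (z j)) (map φ P) = φ (eval z P) := by
  rw [eval_map]
  have h := eval₂_comp_left φ (RingHom.id R) z P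
  rw [RingHom.comp_id] at h
  exact h.symm

/-- `γ` is the maximum of the valuations of the coordinates -/
def Mx {N : ℕ} {K : Type*} [Field K] (V : ValuationSubring K) (z : Fin N → K)
    (γ : V.ValueGroup) : Prop :=
  (∀ i, V.valuation (z i) ≤ γ) ∧ ∃ i, V.valuation (z i) = γ

theorem mx_hom {N d : ℕ} {K κ : Type*} [Field K] (V : ValuationSubring K) [Field κ] (red : V →+* κ)
    (hred : ∀ x, red x = 0 ↔ ¬ IsUnit x) (g : PMap N V) (hg : ∀ i, (g i).IsHomogeneous d)
    (rg : Reg (mapc red g)) (z : Fin N → K) (γ : V.ValueGroup) (hz : Mx V z γ) (hγ : γ ≠ 0) :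
    Mx V (fun i => eval z (mapc (algebraMap V K) g i)) (γ ^ d) := by
  obtain ⟨h1, j, hj⟩ := hz
  obtain ⟨s, hs⟩ : ∃ s, s = z j := ⟨_, rfl⟩
  rw [← hs] at hj
  have hs0 : s ≠ 0 := by
    intro h
    rw [h, map_zero] at hj
    exact hγ hj.symm
  have hmem : ∀ i, z i / s ∈ V := by
    intro i
    rw [← V.valuation_le_one_iff, map_div₀, hj]
    exact div_le_one_of_le₀ (h1 i) zero_le
  obtain ⟨z0, hz0⟩ : ∃ z0 : Fin N → V, ∀ i, (z0 i : K) = z i / s :=
    ⟨fun i => ⟨z i / s, hmem i⟩, fun i => rfl⟩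
  have hzz : z = fun l => s * (algebraMap V K) (z0 l) := by
    funext l
    show z l = s * (z0 l : K)
    rw [hz0]
    field_simp
  have hz0j : z0 j = 1 := by
    apply Subtype.ext
    rw [hz0, ← hs, div_self hs0]
    rfl
  have he : ∀ i, eval z (mapc (algebraMap V K) g i) = s ^ d * ((eval z0 (g i) : V) : K) := by
    intro i
    calc eval z (mapc (algebraMap V K) g i)
        = eval (fun l => s * (algebraMap V K) (z0 l)) (map (algebraMap V K) (g i)) := by
          rw [← hzz]; rfl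
      _ = s ^ d * eval (fun l => (algebraMap V K) (z0 l)) (map (algebraMap V K) (g i)) :=
          hom_scale ((hg i).map _) s _
      _ = s ^ d * ((eval z0 (g i) : V) : K) := by
          rw [eval_hom]; rfl
  have hu : ∃ i, IsUnit (eval z0 (g i)) := by
    by_contra hcon
    have hcon' : ∀ i, ¬ IsUnit (eval z0 (g i)) := fun i h => hcon ⟨i, h⟩
    have h0 := eval_primitive (d := 0) (mapc red g) rg (fun l => red (z0 l)) (fun i => by
      show eval (fun l => red (z0 l)) (map red (g i)) = 0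
      rw [eval_hom]
      exact (hred _).2 (hcon' i))
    have h2 := congrFun h0 j
    have h3 : red (z0 j) = 0 := h2
    rw [hz0j, map_one] at h3
    exact one_ne_zero h3
  refine ⟨fun i => ?_, ?_⟩
  · show V.valuation (eval z (mapc (algebraMap V K) g i)) ≤ γ ^ d
    rw [he, map_mul, map_pow, hj]
    exact mul_le_of_le_one_right' (V.valuation_le_one _)
  · obtain ⟨i, hi⟩ := hu
    refine ⟨i, ?_⟩
    show V.valuation (eval z (mapc (algebraMap V K) g i)) = γ ^ d
    rw [he, map_mul, map_pow, hj, (V.valuation_eq_one_iff _).1 hi, mul_one]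

theorem val_low {N : ℕ} {K : Type*} [Field K] (V : ValuationSubring K)
    (P : MvPolynomial (Fin N) V) (m : ℕ) (hP : P.totalDegree ≤ m) (z : Fin N → K)
    (γ : V.ValueGroup) (hγ : 1 ≤ γ) (hz : ∀ i, V.valuation (z i) ≤ γ) :
    V.valuation (eval z (map (algebraMap V K) P)) ≤ γ ^ m := by
  rw [eval_map, eval₂_eq']
  refine Valuation.map_sum_le _ fun α hα => ?_
  rw [map_mul, map_prod]
  have h1 : V.valuation (algebraMap V K (coeff α P)) ≤ 1 := V.valuation_le_one _
  have hle : ∑ i, α i ≤ m := by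
    have h := le_totalDegree hα
    rw [Finsupp.sum_fintype _ _ (fun _ => rfl)] at h
    exact h.trans hP
  have h2 : ∏ i, V.valuation (z i ^ α i) ≤ γ ^ m := by
    calc ∏ i, V.valuation (z i ^ α i) ≤ ∏ i, γ ^ α i :=
          Finset.prod_le_prod' fun i _ => by
            rw [map_pow]
            exact pow_le_pow_left' (hz i) _
      _ = γ ^ (∑ i, α i) := Finset.prod_pow_eq_pow_sum _ _ _
      _ ≤ γ ^ m := pow_le_pow_right' hγ hle
  exact (mul_le_mul' h1 h2).trans (one_mul _).le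

theorem mx_grow {N d : ℕ} {K κ : Type*} [Field K] (V : ValuationSubring K) [Field κ] (red : V →+* κ)
    (hred : ∀ x, red x = 0 ↔ ¬ IsUnit x) (hd : 1 ≤ d) (f g : PMap N V) (h : HasTop d f g)
    (rg : Reg (mapc red g)) (z : Fin N → K) (γ : V.ValueGroup) (hz : Mx V z γ) (hγ : 1 < γ) :
    Mx V (fun i => eval z (mapc (algebraMap V K) f i)) (γ ^ d) := by
  have hγ0 : γ ≠ 0 := (lt_of_le_of_lt zero_le hγ).ne'
  have hg := mx_hom V red hred g (fun i => (h i).1) rg z γ hz hγ0
  have hr : ∀ i, V.valuation (eval z (map (algebraMap V K) (f i - g i))) < γ ^ d := by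
    intro i
    have hlt := (h i).2
    calc V.valuation (eval z (map (algebraMap V K) (f i - g i))) ≤ γ ^ (d - 1) :=
          val_low V _ (d - 1) (by omega) z γ hγ.le hz.1
      _ < γ ^ d := pow_lt_pow_right₀ hγ (by omega)
  have hs : ∀ i, eval z (mapc (algebraMap V K) f i) =
      eval z (mapc (algebraMap V K) g i) + eval z (map (algebraMap V K) (f i - g i)) := by
    intro i
    simp only [mapc]
    rw [map_sub (MvPolynomial.map (algebraMap V K)), map_sub (eval z)]
    ring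
  refine ⟨fun i => ?_, ?_⟩
  · show V.valuation (eval z (mapc (algebraMap V K) f i)) ≤ γ ^ d
    rw [hs]
    exact (Valuation.map_add _ _ _).trans (max_le (hg.1 i) (hr i).le)
  · obtain ⟨i, hi⟩ := hg.2
    refine ⟨i, ?_⟩
    have hi' : V.valuation (eval z (mapc (algebraMap V K) g i)) = γ ^ d := hi
    show V.valuation (eval z (mapc (algebraMap V K) f i)) = γ ^ d
    rw [hs, Valuation.map_add_eq_of_lt_left _ (by rw [hi']; exact hr i), hi']

theorem pconj_eval {N : ℕ} {K : Type*} [Field K] (f₁ f₂ : PMap N K)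
    (A A' : Matrix (Fin N) (Fin N) K) (b : Fin N → K) (hc : PConj f₁ f₂ A A' b) (z : Fin N → K)
    (i : Fin N) :
    eval (fun i => ∑ l, A i l * z l + b i) (f₁ i) = ∑ l, A i l * eval z (f₂ l) + b i := by
  have hb : ∀ (g : PMap N K) (P : MvPolynomial (Fin N) K),
      eval z (bind₁ g P) = eval (fun j => eval z (g j)) P := fun g P =>
    eval₂Hom_bind₁ (RingHom.id K) z g P
  have h : eval z (bind₁ (affMap A b) (f₁ i)) = eval z (bind₁ f₂ (affMap A b i)) :=
    congrArg (eval z) (congrFun hc.2 i)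
  rw [hb, hb] at h
  have h1 : (fun j => eval z (affMap A b j)) = fun i => ∑ l, A i l * z l + b i := by
    funext j
    simp [affMap]
  rw [h1] at h
  rw [h]
  simp [affMap]

theorem mat_sum_bound {N : ℕ} {K : Type*} [Field K] (V : ValuationSubring K)
    (B : Fin N → K) (F : Fin N → K) (α β : V.ValueGroup) (hB : ∀ l, V.valuation (B l) ≤ α)
    (hF : ∀ l, V.valuation (F l) ≤ β) : V.valuation (∑ l, B l * F l) ≤ α * β := by
  refine Valuation.map_sum_le _ fun l _ => ?_
  rw [map_mul]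
  exact mul_le_mul' (hB l) (hF l)

theorem pconj_integral {K κ : Type*} [Field K] (V : ValuationSubring K) [Field κ] (red : V →+* κ)
    (hred : ∀ x, red x = 0 ↔ ¬ IsUnit x) {N d : ℕ} (hd : 2 ≤ d) (f₁ f₂ g₁ g₂ : PMap N V)
    (h₁ : HasTop d f₁ g₁) (h₂ : HasTop d f₂ g₂) (r₁ : Reg (mapc red g₁)) (r₂ : Reg (mapc red g₂))
    (A A' : Matrix (Fin N) (Fin N) K) (b : Fin N → K)
    (hc : PConj (mapc (algebraMap V K) f₁) (mapc (algebraMap V K) f₂) A A' b) :
    ∃ (A₁ A₁' : Matrix (Fin N) (Fin N) V) (b₁ : Fin N → V), PConj f₁ f₂ A₁ A₁' b₁ := by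
  have hev := pconj_eval _ _ A A' b hc
  have hd1 : 1 ≤ d := by omega
  have hd0 : d ≠ 0 := by omega
  -- a bound for `b`
  obtain ⟨b0, hb1, hb0⟩ : ∃ b0 : K, 1 ≤ V.valuation b0 ∧ ∀ i, V.valuation (b i) ≤ V.valuation b0 := by
    obtain ⟨o, ho⟩ := Finite.exists_max (fun o : Option (Fin N) => V.valuation (o.elim 1 b))
    refine ⟨o.elim 1 b, ?_, fun i => ho (some i)⟩
    have := ho none
    simpa using this
  have hAA : A' * A = 1 := mul_eq_one_comm.1 hc.1
  -- final contradiction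
  have hfin : ∀ σ τ : V.ValueGroup, 1 < σ → 0 < τ → (σ * τ) ^ d ≤ σ * τ ^ d → False := by
    intro σ τ hσ hτ h
    rw [mul_pow] at h
    have h1 : σ ^ d ≤ σ := le_of_mul_le_mul_right h (pow_pos hτ d)
    exact absurd (lt_self_pow₀ hσ (by omega)) (not_lt.mpr h1)
  have hA : ∀ i j, V.valuation (A i j) ≤ 1 := by
    by_contra hcon
    push Not at hcon
    obtain ⟨i0, j0, h0⟩ := hcon
    obtain ⟨⟨i1, l⟩, hmax⟩ : ∃ p : Fin N × Fin N, ∀ q : Fin N × Fin N,
        V.valuation (A q.1 q.2) ≤ V.valuation (A p.1 p.2) := by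
      haveI : Nonempty (Fin N × Fin N) := ⟨(i0, j0)⟩
      exact Finite.exists_max _
    have hmax' : ∀ i j, V.valuation (A i j) ≤ V.valuation (A i1 l) := fun i j => hmax (i, j)
    obtain ⟨σ, hσ⟩ : ∃ σ, σ = V.valuation (A i1 l) := ⟨_, rfl⟩
    obtain ⟨t, ht⟩ : ∃ t, t = A i1 l * b0 := ⟨_, rfl⟩
    obtain ⟨τ, hτ⟩ : ∃ τ, τ = V.valuation t := ⟨_, rfl⟩
    rw [← hσ] at hmax'
    have hσ1 : 1 < σ := lt_of_lt_of_le h0 (hmax' i0 j0)
    have hσ0 : 0 < σ := lt_trans zero_lt_one hσ1
    have hb00 : 0 < V.valuation b0 := lt_of_lt_of_le zero_lt_one hb1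
    have hbt : V.valuation b0 < τ := by
      rw [hτ, ht, map_mul, ← hσ]
      exact lt_mul_of_one_lt_left hb00 hσ1
    have hτ1 : 1 < τ := lt_of_le_of_lt hb1 hbt
    have hτ0 : 0 < τ := lt_trans zero_lt_one hτ1
    have hτσ : τ < σ * τ := lt_mul_of_one_lt_left hτ0 hσ1
    have hsum : ∀ i, ∑ j, A i j * (Pi.single l t : Fin N → K) j = A i l * t := by
      intro i
      rw [Finset.sum_eq_single l]
      · rw [Pi.single_eq_same]
      · intro j _ hj
        rw [Pi.single_eq_of_ne hj, mul_zero]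
      · intro h
        exact absurd (Finset.mem_univ l) h
    have hMz : Mx V (Pi.single l t : Fin N → K) τ := by
      refine ⟨fun i => ?_, l, ?_⟩
      · by_cases hi : i = l
        · rw [hi, Pi.single_eq_same, hτ]
        · rw [Pi.single_eq_of_ne hi, map_zero]
          exact zero_le
      · rw [Pi.single_eq_same, hτ]
    have hMw : Mx V (fun i => ∑ j, A i j * (Pi.single l t : Fin N → K) j + b i) (σ * τ) := by
      refine ⟨fun i => ?_, i1, ?_⟩
      · show V.valuation (∑ j, A i j * (Pi.single l t : Fin N → K) j + b i) ≤ σ * τ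
        rw [hsum]
        refine (Valuation.map_add _ _ _).trans (max_le ?_ ?_)
        · rw [map_mul, ← hτ]
          exact mul_le_mul' (hmax' i l) le_rfl
        · exact ((hb0 i).trans hbt.le).trans hτσ.le
      · show V.valuation (∑ j, A i1 j * (Pi.single l t : Fin N → K) j + b i1) = σ * τ
        have e : V.valuation (A i1 l * t) = σ * τ := by rw [map_mul, ← hτ, ← hσ]
        rw [hsum, Valuation.map_add_eq_of_lt_left _ (by
          rw [e]; exact lt_of_le_of_lt (hb0 i1) (hbt.trans hτσ)), e]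
    have g1 := mx_grow V red hred hd1 f₁ g₁ h₁ r₁ _ _ hMw (hτ1.trans hτσ)
    have g2 := mx_grow V red hred hd1 f₂ g₂ h₂ r₂ _ _ hMz hτ1
    obtain ⟨i, hi0⟩ := g1.2
    have h2 := hev (Pi.single l t) i
    have hi : V.valuation (eval (fun i => ∑ j, A i j * (Pi.single l t : Fin N → K) j + b i)
      (mapc (algebraMap V K) f₁ i)) = (σ * τ) ^ d := hi0
    rw [h2] at hi
    refine hfin σ τ hσ1 hτ0 ?_
    rw [← hi]
    refine (Valuation.map_add _ _ _).trans (max_le ?_ ?_)
    · exact mat_sum_bound V _ _ _ _ (fun l' => hmax' i l') g2.1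
    · have e1 : τ ≤ τ ^ d := le_self_pow₀ hτ1.le hd0
      have e2 : τ ^ d ≤ σ * τ ^ d := le_mul_of_one_le_left' hσ1.le
      exact ((hb0 i).trans hbt.le).trans (e1.trans e2)
  have hA' : ∀ i j, V.valuation (A' i j) ≤ 1 := by
    by_contra hcon
    push Not at hcon
    obtain ⟨i0, j0, h0⟩ := hcon
    obtain ⟨⟨i1, l⟩, hmax⟩ : ∃ p : Fin N × Fin N, ∀ q : Fin N × Fin N,
        V.valuation (A' q.1 q.2) ≤ V.valuation (A' p.1 p.2) := by
      haveI : Nonempty (Fin N × Fin N) := ⟨(i0, j0)⟩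
      exact Finite.exists_max _
    have hmax' : ∀ i j, V.valuation (A' i j) ≤ V.valuation (A' i1 l) := fun i j => hmax (i, j)
    obtain ⟨σ, hσ⟩ : ∃ σ, σ = V.valuation (A' i1 l) := ⟨_, rfl⟩
    obtain ⟨t, ht⟩ : ∃ t, t = A' i1 l * b0 := ⟨_, rfl⟩
    obtain ⟨τ, hτ⟩ : ∃ τ, τ = V.valuation t := ⟨_, rfl⟩
    rw [← hσ] at hmax'
    have hσ1 : 1 < σ := lt_of_lt_of_le h0 (hmax' i0 j0)
    have hσ0 : 0 < σ := lt_trans zero_lt_one hσ1
    have hb00 : 0 < V.valuation b0 := lt_of_lt_of_le zero_lt_one hb1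
    have hbt : V.valuation b0 < τ := by
      rw [hτ, ht, map_mul, ← hσ]
      exact lt_mul_of_one_lt_left hb00 hσ1
    have hτ1 : 1 < τ := lt_of_le_of_lt hb1 hbt
    have hτ0 : 0 < τ := lt_trans zero_lt_one hτ1
    have hτσ : τ < σ * τ := lt_mul_of_one_lt_left hτ0 hσ1
    have hMz : Mx V (fun i => A' i l * t) (σ * τ) := by
      refine ⟨fun i => ?_, i1, ?_⟩
      · show V.valuation (A' i l * t) ≤ σ * τ
        rw [map_mul, ← hτ]
        exact mul_le_mul' (hmax' i l) le_rfl
      · show V.valuation (A' i1 l * t) = σ * τ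
        rw [map_mul, ← hτ, ← hσ]
    have hAz : ∀ i, ∑ j, A i j * (A' j l * t) = (Pi.single l t : Fin N → K) i := by
      intro i
      have h1 : ∑ j, A i j * (A' j l * t) = (A * A') i l * t := by
        rw [Matrix.mul_apply, Finset.sum_mul]
        exact Finset.sum_congr rfl fun j _ => by ring
      rw [h1, hc.1]
      by_cases hi : i = l
      · rw [hi, Matrix.one_apply_eq, Pi.single_eq_same, one_mul]
      · rw [Matrix.one_apply_ne hi, Pi.single_eq_of_ne hi, zero_mul]
    have hMw : Mx V (fun i => ∑ j, A i j * (A' j l * t) + b i) τ := by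
      refine ⟨fun i => ?_, l, ?_⟩
      · show V.valuation (∑ j, A i j * (A' j l * t) + b i) ≤ τ
        rw [hAz]
        refine (Valuation.map_add _ _ _).trans (max_le ?_ ((hb0 i).trans hbt.le))
        by_cases hi : i = l
        · rw [hi, Pi.single_eq_same, hτ]
        · rw [Pi.single_eq_of_ne hi, map_zero]
          exact zero_le
      · show V.valuation (∑ j, A l j * (A' j l * t) + b l) = τ
        rw [hAz, Pi.single_eq_same, Valuation.map_add_eq_of_lt_left _ (by
          rw [← hτ]; exact lt_of_le_of_lt (hb0 l) hbt), hτ]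
    have g1 := mx_grow V red hred hd1 f₁ g₁ h₁ r₁ _ _ hMw hτ1
    have g2 := mx_grow V red hred hd1 f₂ g₂ h₂ r₂ _ _ hMz (hτ1.trans hτσ)
    obtain ⟨F2, hF2⟩ : ∃ F2 : Fin N → K, F2 =
        fun k => eval (fun i => A' i l * t) (mapc (algebraMap V K) f₂ k) := ⟨_, rfl⟩
    obtain ⟨F1, hF1⟩ : ∃ F1 : Fin N → K, F1 =
        fun k => eval (fun i => ∑ j, A i j * (A' j l * t) + b i)
          (mapc (algebraMap V K) f₁ k) - b k := ⟨_, rfl⟩
    have hmv : A.mulVec F2 = F1 := by
      funext i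
      rw [hF1]
      show ∑ k, A i k * F2 k = _
      rw [hF2]
      have := hev (fun i => A' i l * t) i
      show _ = eval (fun i => ∑ j, A i j * (A' j l * t) + b i)
          (mapc (algebraMap V K) f₁ i) - b i
      rw [this]
      ring
    have hmv2 : A'.mulVec F1 = F2 := by
      rw [← hmv, Matrix.mulVec_mulVec, hAA, Matrix.one_mulVec]
    obtain ⟨k, hk⟩ := g2.2
    have hk' : V.valuation (F2 k) = (σ * τ) ^ d := by rw [hF2]; exact hk
    refine hfin σ τ hσ1 hτ0 ?_
    rw [← hk', ← hmv2]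
    refine mat_sum_bound V (fun i => A' k i) F1 _ _ (fun l' => hmax' k l') (fun i => ?_)
    rw [hF1]
    refine (Valuation.map_sub _ _ _).trans (max_le (g1.1 i) ?_)
    exact ((hb0 i).trans hbt.le).trans (le_self_pow₀ hτ1.le hd0)
  have hb : ∀ i, V.valuation (b i) ≤ 1 := by
    by_contra hcon
    push Not at hcon
    obtain ⟨i0, h0⟩ := hcon
    obtain ⟨i1, hmax⟩ : ∃ p : Fin N, ∀ q : Fin N, V.valuation (b q) ≤ V.valuation (b p) := by
      haveI : Nonempty (Fin N) := ⟨i0⟩
      exact Finite.exists_max _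
    obtain ⟨γ, hγ⟩ : ∃ γ, γ = V.valuation (b i1) := ⟨_, rfl⟩
    rw [← hγ] at hmax
    have hγ1 : 1 < γ := lt_of_lt_of_le h0 (hmax i0)
    have hMb : Mx V b γ := ⟨hmax, i1, hγ.symm⟩
    have g1 := mx_grow V red hred hd1 f₁ g₁ h₁ r₁ _ _ hMb hγ1
    obtain ⟨i, hi⟩ := g1.2
    have h2 := hev 0 i
    have h3 : (fun i => ∑ l, A i l * (0 : Fin N → K) l + b i) = b := by
      funext i
      simp
    rw [h3] at h2
    have hi' : V.valuation (eval b (mapc (algebraMap V K) f₁ i)) = γ ^ d := hi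
    rw [h2] at hi'
    have h4 : V.valuation (∑ l, A i l * eval 0 (mapc (algebraMap V K) f₂ l) + b i) ≤ γ := by
      refine (Valuation.map_add _ _ _).trans (max_le ?_ (hmax i))
      have h5 := mat_sum_bound V (fun l => A i l)
        (fun l => eval 0 (mapc (algebraMap V K) f₂ l)) 1 1 (fun l => hA i l) (fun l => by
          have h6 := val_low V (f₂ l) (f₂ l).totalDegree le_rfl (0 : Fin N → K) 1 le_rfl
            (fun j => by simp)
          rw [one_pow] at h6
          exact h6)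
      rw [mul_one] at h5
      exact h5.trans hγ1.le
    rw [hi'] at h4
    exact absurd (lt_self_pow₀ hγ1 (by omega)) (not_lt.mpr h4)
  -- lift
  obtain ⟨A₁, hA₁⟩ : ∃ A₁ : Matrix (Fin N) (Fin N) V, A₁.map (algebraMap V K) = A :=
    ⟨Matrix.of fun i j => ⟨A i j, (V.valuation_le_one_iff _).1 (hA i j)⟩, by ext i j; rfl⟩
  obtain ⟨A₁', hA₁'⟩ : ∃ A₁' : Matrix (Fin N) (Fin N) V, A₁'.map (algebraMap V K) = A' :=
    ⟨Matrix.of fun i j => ⟨A' i j, (V.valuation_le_one_iff _).1 (hA' i j)⟩, by ext i j; rfl⟩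
  obtain ⟨b₁, hb₁⟩ : ∃ b₁ : Fin N → V, ∀ i, (algebraMap V K) (b₁ i) = b i :=
    ⟨fun i => ⟨b i, (V.valuation_le_one_iff _).1 (hb i)⟩, fun i => rfl⟩
  have hinj : Function.Injective (algebraMap V K) := Subtype.val_injective
  refine ⟨A₁, A₁', b₁, ?_, ?_⟩
  · apply Matrix.map_injective hinj
    show (A₁ * A₁').map (algebraMap V K) = (1 : Matrix (Fin N) (Fin N) V).map (algebraMap V K)
    rw [Matrix.map_mul, hA₁, hA₁', hc.1, Matrix.map_one _ (map_zero _) (map_one _)]
  · have e1 : (fun l => MvPolynomial.map (algebraMap V K) (affMap A₁ b₁ l)) = affMap A b := by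
      funext l
      have hAl : ∀ j, (algebraMap V K) (A₁ l j) = A l j := by
        intro j
        rw [← hA₁]
        rfl
      simp only [affMap, map_add, map_sum, map_mul, map_C, map_X, hAl, hb₁]
    funext i
    apply MvPolynomial.map_injective _ hinj
    show MvPolynomial.map (algebraMap V K) (bind₁ (affMap A₁ b₁) (f₁ i)) =
      MvPolynomial.map (algebraMap V K) (bind₁ f₂ (affMap A₁ b₁ i))
    rw [map_bind₁, map_bind₁, e1]
    have e2 := congrFun e1 i
    have e3 : MvPolynomial.map (algebraMap V K) (affMap A₁ b₁ i) = affMap A b i := e2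
    rw [e3]
    exact congrFun hc.2 i

end PCFib
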