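import Pool.Agent.H641.PCF.Defs
import Pool.Agent.H641.PCF.P_reg_of_nonsing
import Pool.Agent.H641.PCF.P_affConj_iff
import Pool.Agent.H641.PCF.P_pconj_generic
import Pool.Agent.H641.PCF.P_pconj_integral
import Pool.Agent.H641.PCF.P_dominate

open MvPolynomial

namespace PCFib



theorem sp_map_hc {σ R S : Type*} [CommRing R] [CommRing S] (φ : R →+* S) (d : ℕ)
    (p : MvPolynomial σ R) :
    MvPolynomial.map φ (homogeneousComponent d p) = homogeneousComponent d (MvPolynomial.map φ p) := by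
  classical
  ext α
  rw [coeff_map, coeff_homogeneousComponent, coeff_homogeneousComponent, coeff_map]
  split_ifs
  · rfl
  · exact map_zero φ

theorem sp_deg_map {σ R S : Type*} [CommRing R] [CommRing S] (φ : R →+* S)
    (p : MvPolynomial σ R) : (MvPolynomial.map φ p).totalDegree ≤ p.totalDegree := by
  rw [totalDegree, totalDegree]
  exact Finset.sup_mono (support_map_subset φ p)

theorem sp_hasTop {N d : ℕ} {R : Type*} [CommRing R] (hd : 0 < d) (F : PMap N R)
    (hF : ∀ i, (F i).totalDegree ≤ d) : HasTop d F (fun i => homogeneousComponent d (F i)) := by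
  classical
  intro i
  refine ⟨homogeneousComponent_isHomogeneous d (F i), ?_⟩
  rw [totalDegree, Finset.sup_lt_iff hd]
  intro α hα
  rw [mem_support_iff, coeff_sub, coeff_homogeneousComponent] at hα
  have h1 : α.degree ≠ d := by
    intro h
    rw [if_pos h, sub_self] at hα
    exact hα rfl
  rw [if_neg h1, sub_zero] at hα
  have h2 := le_totalDegree (mem_support_iff.2 hα)
  have h3 : (α.sum fun _ e => e) = α.degree := rfl
  have h4 := h2.trans (hF i)
  rw [h3] at h4 ⊢
  omega

theorem sp_reg_map {N : ℕ} {R S : Type*} [CommRing R] [CommRing S] (φ : R →+* S) (g : PMap N R)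
    (h : Reg g) : Reg (mapc φ g) := by
  obtain ⟨M, hM⟩ := h
  refine ⟨M, fun j => ?_⟩
  have h1 := Ideal.mem_map_of_mem (MvPolynomial.map φ) (hM j)
  rw [Ideal.map_span, ← Set.range_comp, map_pow, map_X] at h1
  exact h1

theorem sp_mapc_comp {N : ℕ} {R S : Type*} [CommRing R] [CommRing S] (φ : R →+* S)
    (f g : PMap N R) : mapc φ (comp f g) = comp (mapc φ f) (mapc φ g) := by
  funext i
  exact map_bind₁ φ g (f i)

theorem sp_mapc_aff {N : ℕ} {R S : Type*} [CommRing R] [CommRing S] (φ : R →+* S)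
    (A : Matrix (Fin N) (Fin N) R) (b : Fin N → R) :
    mapc φ (affMap A b) = affMap (A.map φ) (fun i => φ (b i)) := by
  funext i
  simp [mapc, affMap]

theorem sp_pconj_map {N : ℕ} {R S : Type*} [CommRing R] [CommRing S] (φ : R →+* S)
    {f₁ f₂ : PMap N R} {A A' : Matrix (Fin N) (Fin N) R} {b : Fin N → R}
    (h : PConj f₁ f₂ A A' b) :
    PConj (mapc φ f₁) (mapc φ f₂) (A.map φ) (A'.map φ) (fun i => φ (b i)) := by
  obtain ⟨h1, h2⟩ := h
  refine ⟨?_, ?_⟩
  · have := congrArg (fun M => M.map φ) h1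
    rw [Matrix.map_mul, Matrix.map_one φ (map_zero φ) (map_one φ)] at this
    exact this
  · rw [← sp_mapc_aff, ← sp_mapc_comp, ← sp_mapc_comp, h2]

theorem sp_mapc_mapc {N : ℕ} {R S T : Type*} [CommRing R] [CommRing S] [CommRing T] (φ : R →+* S)
    (ψ : S →+* T) (f : PMap N R) : mapc ψ (mapc φ f) = mapc (ψ.comp φ) f := by
  funext i
  exact MvPolynomial.map_map φ ψ (f i)

theorem specialize {N d : ℕ} (hd : 2 ≤ d) {B : Type*} [CommRing B] [IsDomain B] [Algebra ℂ B]
    {Ω : Type*} [Field Ω] [IsAlgClosed Ω] (ι : B →+* Ω) (hι : Function.Injective ι)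
    (f : PMap N B) (f₂ : PMap N ℂ) (h₂ : IsRegularEndo d f₂)
    (hreg : ∀ c : B →ₐ[ℂ] ℂ, IsRegularEndo d (mapc (c : B →+* ℂ) f))
    (hgen : ∃ A A' t, PConj (mapc ι f) (mapc (ι.comp (algebraMap ℂ B)) f₂) A A' t)
    (hdeg : ∀ i, (f i).totalDegree ≤ d) (c : B →ₐ[ℂ] ℂ) :
    AffConj (mapc (c : B →+* ℂ) f) f₂ := by
  obtain ⟨V, j, hj, hjc⟩ := dominate (K := Ω) (F := ℂ) ι hι (c : B →+* ℂ)
  let red : V →+* IsLocalRing.ResidueField V := IsLocalRing.residue V
  have hred : ∀ x : V, red x = 0 ↔ ¬ IsUnit x := by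
    intro x
    show IsLocalRing.residue V x = 0 ↔ _
    rw [IsLocalRing.residue_eq_zero_iff, IsLocalRing.mem_maximalIdeal, mem_nonunits_iff]
  let θ : ℂ →+* IsLocalRing.ResidueField V := red.comp (j.comp (algebraMap ℂ B))
  have hkey : red.comp j = θ.comp (c : B →+* ℂ) := by
    ext x
    have h1 : c (x - algebraMap ℂ B (c x)) = 0 := by
      rw [map_sub, AlgHom.commutes]
      simp
    have h2 := hjc _ h1
    rw [map_sub, map_sub, sub_eq_zero] at h2
    exact h2
  set F₁ : PMap N V := mapc j f with hF₁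
  set F₂ : PMap N V := mapc (j.comp (algebraMap ℂ B)) f₂ with hF₂
  have hd0 : 0 < d := by omega
  have t₁ := sp_hasTop hd0 F₁ (fun i => (sp_deg_map j (f i)).trans (hdeg i))
  have t₂ := sp_hasTop hd0 F₂ (fun i => (sp_deg_map _ (f₂ i)).trans (h₂.1 i))
  have r₁ : Reg (mapc red (fun i => homogeneousComponent d (F₁ i))) := by
    have e : mapc red (fun i => homogeneousComponent d (F₁ i)) =
        mapc θ (topPart d (mapc (c : B →+* ℂ) f)) := by
      funext i
      show MvPolynomial.map red (homogeneousComponent d (MvPolynomial.map j (f i))) =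
        MvPolynomial.map θ (homogeneousComponent d (MvPolynomial.map (c : B →+* ℂ) (f i)))
      rw [sp_map_hc, sp_map_hc, MvPolynomial.map_map, MvPolynomial.map_map, hkey]
    rw [e]
    exact sp_reg_map θ _ (reg_of_nonsing _ (hreg c).2)
  have r₂ : Reg (mapc red (fun i => homogeneousComponent d (F₂ i))) := by
    have e : mapc red (fun i => homogeneousComponent d (F₂ i)) = mapc θ (topPart d f₂) := by
      funext i
      show MvPolynomial.map red (homogeneousComponent d
        (MvPolynomial.map (j.comp (algebraMap ℂ B)) (f₂ i))) =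
        MvPolynomial.map θ (homogeneousComponent d (f₂ i))
      rw [sp_map_hc, sp_map_hc, MvPolynomial.map_map]
    rw [e]
    exact sp_reg_map θ _ (reg_of_nonsing _ h₂.2)
  obtain ⟨A, A', t, hAt⟩ := hgen
  have hcomp : (algebraMap V Ω).comp j = ι := by
    ext x
    exact hj x
  have hc1 : PConj (mapc (algebraMap V Ω) F₁) (mapc (algebraMap V Ω) F₂) A A' t := by
    rw [hF₁, hF₂, sp_mapc_mapc, sp_mapc_mapc, ← RingHom.comp_assoc, hcomp]
    exact hAt
  obtain ⟨A₁, A₁', b₁, h3⟩ := pconj_integral V red hred hd F₁ F₂ _ _ t₁ t₂ r₁ r₂ A A' t hc1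
  have h4 := sp_pconj_map red h3
  have e1 : mapc red F₁ = mapc θ (mapc (c : B →+* ℂ) f) := by
    rw [hF₁, sp_mapc_mapc, sp_mapc_mapc, hkey]
  have e2 : mapc red F₂ = mapc θ f₂ := by
    rw [hF₂, sp_mapc_mapc]
  rw [e1, e2] at h4
  have h5 := pconj_generic (B := ℂ) (Ω := ℂ) (F := IsLocalRing.ResidueField V) (RingHom.id ℂ)
    Function.injective_id (mapc (c : B →+* ℂ) f) f₂ (fun b hb =>
      ⟨θ, (map_ne_zero θ).2 hb, _, _, _, h4⟩)
  have hid : ∀ g : PMap N ℂ, mapc (RingHom.id ℂ) g = g := by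
    intro g
    funext i
    exact MvPolynomial.map_id (g i)
  rw [hid, hid] at h5
  exact (affConj_iff _ _).2 h5

end PCFib
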