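import Pool.Agent.H641.PCF.Defs
import Pool.Agent.H641.PCF.P_affConj_trans
import Pool.Agent.H641.PCF.P_countable_reps
import Pool.Agent.H641.PCF.P_affConj_iff
import Pool.Agent.H641.PCF.P_pconj_generic
import Pool.Agent.H641.PCF.P_specialize
import Pool.Agent.H641.PCF.P_very_general
import Pool.Agent.H641.PCF.P_family_degree
import Pool.Agent.H641.PCF.P_regular_of_affConj
import Pool.Agent.H641.PCF.P_affConj_symm
import Pool.Agent.H641.PCF.P_projConj_of_affConj
import Pool.Agent.H641.PCF.P_projConj_trans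

open MvPolynomial

namespace PCFib



theorem family_const {N d : ℕ} (hd : 2 ≤ d) (B : Type) [CommRing B] [IsDomain B] [Algebra ℂ B]
    [Algebra.FiniteType ℂ B] (f : PMap N B)
    (hreg : ∀ c : B →ₐ[ℂ] ℂ, IsRegularEndo d (mapc (c : B →+* ℂ) f)) (g : PMap N ℂ)
    (hg : IsProjEndo d g)
    (hpi : ∀ c : B →ₐ[ℂ] ℂ, ProjConj (topPart d (mapc (c : B →+* ℂ) f)) g)
    (hpcf : ∀ c : B →ₐ[ℂ] ℂ, ∃ f' : PMap N ℂ, IsRegularEndo d f' ∧ IsPCF d f' ∧
      AffConj f' (mapc (c : B →+* ℂ) f)) (c c' : B →ₐ[ℂ] ℂ) :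
    AffConj (mapc (c : B →+* ℂ) f) (mapc (c' : B →+* ℂ) f) := by
  obtain ⟨T, hTc, hT⟩ := countable_reps hd g hg
  have hproj : ∀ h : PMap N ℂ, IsRegularEndo d h → IsProjEndo d (topPart d h) := by
    intro h hh
    exact ⟨fun i => homogeneousComponent_isHomogeneous d (h i), hh.2⟩
  have hex : ∀ c : B →ₐ[ℂ] ℂ, ∃ e ∈ T, AffConj (mapc (c : B →+* ℂ) f) e := by
    intro c
    obtain ⟨f', hf'r, hf'p, hf'c⟩ := hpcf c
    have h1 := projConj_of_affConj hd f' _ hf'r (hreg c) hf'c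
    have h2 := projConj_trans (topPart d f') (topPart d (mapc (c : B →+* ℂ) f)) g
      (hproj _ hf'r) (hproj _ (hreg c)) hg h1 (hpi c)
    obtain ⟨e, heT, he⟩ := hT f' hf'r hf'p h2
    exact ⟨e, heT, affConj_trans _ _ _ (affConj_symm _ _ hf'c) he⟩
  have hTne : T.Nonempty := by
    obtain ⟨e, he, -⟩ := hex c
    exact ⟨e, he⟩
  obtain ⟨e, he⟩ := hTc.exists_eq_range hTne
  have hn : ∃ n, ∀ b : B, b ≠ 0 → ∃ c : B →ₐ[ℂ] ℂ, c b ≠ 0 ∧
      AffConj (mapc (c : B →+* ℂ) f) (e n) := by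
    by_contra hcon
    push Not at hcon
    choose b hb0 hb using hcon
    obtain ⟨c0, hc0⟩ := very_general B b hb0
    obtain ⟨e', he'T, he'⟩ := hex c0
    rw [he] at he'T
    obtain ⟨n, rfl⟩ := he'T
    exact hb n c0 (hc0 n) he'
  obtain ⟨n, hn⟩ := hn
  have hcomp : ∀ c : B →ₐ[ℂ] ℂ, (c : B →+* ℂ).comp (algebraMap ℂ B) = RingHom.id ℂ := by
    intro c
    ext x
    simp
  have hmapc : ∀ c : B →ₐ[ℂ] ℂ, mapc (c : B →+* ℂ) (mapc (algebraMap ℂ B) (e n)) = e n := by
    intro c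
    funext i
    unfold mapc
    rw [MvPolynomial.map_map, hcomp c, MvPolynomial.map_id]
  let ι : B →+* AlgebraicClosure (FractionRing B) :=
    (algebraMap (FractionRing B) (AlgebraicClosure (FractionRing B))).comp
      (algebraMap B (FractionRing B))
  have hι : Function.Injective ι :=
    (algebraMap (FractionRing B) (AlgebraicClosure (FractionRing B))).injective.comp
      (IsFractionRing.injective B (FractionRing B))
  have hgen := pconj_generic (F := ℂ) ι hι f (mapc (algebraMap ℂ B) (e n)) (by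
    intro b hb
    obtain ⟨c0, hc0, hc⟩ := hn b hb
    refine ⟨(c0 : B →+* ℂ), hc0, ?_⟩
    rw [hmapc c0]
    exact (affConj_iff _ _).mp hc)
  have hgen' : ∃ A A' t, PConj (mapc ι f) (mapc (ι.comp (algebraMap ℂ B)) (e n)) A A' t := by
    have h1 : mapc ι (mapc (algebraMap ℂ B) (e n)) = mapc (ι.comp (algebraMap ℂ B)) (e n) := by
      funext i
      unfold mapc
      rw [MvPolynomial.map_map]
    rw [← h1]
    exact hgen
  have hreg2 : IsRegularEndo d (e n) := by
    obtain ⟨c0, -, hc⟩ := hn 1 one_ne_zero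
    exact regular_of_affConj (by omega) _ _ hc (hreg c0)
  have hdeg : ∀ i, (f i).totalDegree ≤ d := family_degree B f hreg
  have hA : ∀ c : B →ₐ[ℂ] ℂ, AffConj (mapc (c : B →+* ℂ) f) (e n) := fun c =>
    specialize hd ι hι f (e n) hreg2 hreg hgen' hdeg c
  exact affConj_trans _ _ _ (hA c) (affConj_symm _ _ (hA c'))

end PCFib
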