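import Pool.Agent.H641.PCF.Defs

open MvPolynomial

namespace PCFib


noncomputable section

/-- all monomials of `p` have degree at most `k - r` -/
def Lo {N : ℕ} (r k : ℕ) (p : MvPolynomial (Fin N) ℂ) : Prop :=
  ∀ α, coeff α p ≠ 0 → α.degree + r ≤ k

theorem Lo.zero {N : ℕ} (r k : ℕ) : Lo r k (0 : MvPolynomial (Fin N) ℂ) := by
  intro α h; simp at h

theorem Lo.add {N r k : ℕ} {p q : MvPolynomial (Fin N) ℂ} (hp : Lo r k p) (hq : Lo r k q) :
    Lo r k (p + q) := by
  intro α h
  by_cases h1 : coeff α p = 0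
  · by_cases h2 : coeff α q = 0
    · rw [coeff_add, h1, h2, add_zero] at h; exact absurd rfl h
    · exact hq α h2
  · exact hp α h1

theorem Lo.sum {N r k : ℕ} {ι : Type*} (s : Finset ι) (p : ι → MvPolynomial (Fin N) ℂ)
    (hp : ∀ i ∈ s, Lo r k (p i)) : Lo r k (∑ i ∈ s, p i) := by
  classical
  induction s using Finset.induction_on with
  | empty => simpa using Lo.zero r k
  | insert i s his ih =>
    rw [Finset.sum_insert his]
    exact (hp i (Finset.mem_insert_self i s)).add
      (ih fun j hj => hp j (Finset.mem_insert_of_mem hj))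

theorem Lo.mono {N r k r' k' : ℕ} {p : MvPolynomial (Fin N) ℂ} (hp : Lo r k p)
    (h : k + r' ≤ k' + r) : Lo r' k' p := by
  intro α hα
  have := hp α hα
  omega

theorem Lo.mul {N r k s l : ℕ} {p q : MvPolynomial (Fin N) ℂ} (hp : Lo r k p) (hq : Lo s l q) :
    Lo (r + s) (k + l) (p * q) := by
  classical
  intro α h
  have h1 : α ∈ (p * q).support := mem_support_iff.2 h
  have h2 := support_mul p q h1
  rw [Finset.mem_add] at h2
  obtain ⟨β, hβ, γ, hγ, rfl⟩ := h2
  have h3 := hp β (mem_support_iff.1 hβ)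
  have h4 := hq γ (mem_support_iff.1 hγ)
  rw [map_add]
  omega

/-- translation -/
def Tr {N : ℕ} (b : Fin N → ℂ) : MvPolynomial (Fin N) ℂ →ₐ[ℂ] MvPolynomial (Fin N) ℂ :=
  bind₁ (fun j => X j + C (b j))

/-- directional derivative -/
def Dd {N : ℕ} (b : Fin N → ℂ) (p : MvPolynomial (Fin N) ℂ) : MvPolynomial (Fin N) ℂ :=
  ∑ j, C (b j) * pderiv j p

theorem Dd_add {N : ℕ} (b : Fin N → ℂ) (p q : MvPolynomial (Fin N) ℂ) :
    Dd b (p + q) = Dd b p + Dd b q := by
  simp only [Dd, map_add, mul_add, Finset.sum_add_distrib]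

theorem Dd_mul {N : ℕ} (b : Fin N → ℂ) (p q : MvPolynomial (Fin N) ℂ) :
    Dd b (p * q) = p * Dd b q + q * Dd b p := by
  simp only [Dd, Finset.mul_sum, ← Finset.sum_add_distrib]
  refine Finset.sum_congr rfl fun j _ => ?_
  rw [Derivation.leibniz]
  simp only [smul_eq_mul]
  ring

/-- Taylor estimate -/
structure MM {N : ℕ} (b : Fin N → ℂ) (p : MvPolynomial (Fin N) ℂ) (k : ℕ) : Prop where
  a0 : Lo 0 k p
  a1 : Lo 1 k (Tr b p - p)
  a2 : Lo 2 k (Tr b p - p - Dd b p)

theorem MM.mono {N : ℕ} {b : Fin N → ℂ} {p : MvPolynomial (Fin N) ℂ} {k k' : ℕ} (h : MM b p k)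
    (hk : k ≤ k') : MM b p k' :=
  ⟨h.a0.mono (by omega), h.a1.mono (by omega), h.a2.mono (by omega)⟩

theorem MM.zero {N : ℕ} {b : Fin N → ℂ} {k : ℕ} : MM b 0 k := by
  refine ⟨Lo.zero _ _, ?_, ?_⟩
  · simpa using Lo.zero 1 k
  · simpa [Dd] using Lo.zero 2 k

theorem MM.add {N : ℕ} {b : Fin N → ℂ} {p q : MvPolynomial (Fin N) ℂ} {k : ℕ} (h : MM b p k)
    (h' : MM b q k) : MM b (p + q) k := by
  refine ⟨h.a0.add h'.a0, ?_, ?_⟩
  · have : Tr b (p + q) - (p + q) = (Tr b p - p) + (Tr b q - q) := by rw [map_add]; ring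
    rw [this]; exact h.a1.add h'.a1
  · have : Tr b (p + q) - (p + q) - Dd b (p + q)
        = (Tr b p - p - Dd b p) + (Tr b q - q - Dd b q) := by rw [map_add, Dd_add]; ring
    rw [this]; exact h.a2.add h'.a2

theorem MM.mul {N : ℕ} {b : Fin N → ℂ} {p q : MvPolynomial (Fin N) ℂ} {k l : ℕ} (h : MM b p k)
    (h' : MM b q l) : MM b (p * q) (k + l) := by
  refine ⟨by simpa using h.a0.mul h'.a0, ?_, ?_⟩
  · have : Tr b (p * q) - p * q = (Tr b p - p) * (Tr b q - q) + (Tr b p - p) * q
        + p * (Tr b q - q) := by rw [map_mul]; ring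
    rw [this]
    exact (((h.a1.mul h'.a1).mono (by omega)).add ((h.a1.mul h'.a0).mono (by omega))).add
      ((h.a0.mul h'.a1).mono (by omega))
  · have : Tr b (p * q) - p * q - Dd b (p * q) = (Tr b p - p) * (Tr b q - q)
        + (Tr b p - p - Dd b p) * q + p * (Tr b q - q - Dd b q) := by
      rw [map_mul, Dd_mul]; ring
    rw [this]
    exact (((h.a1.mul h'.a1).mono (by omega)).add ((h.a2.mul h'.a0).mono (by omega))).add
      ((h.a0.mul h'.a2).mono (by omega))

theorem MM.C {N : ℕ} {b : Fin N → ℂ} (c : ℂ) : MM b (MvPolynomial.C c) 0 := by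
  refine ⟨?_, ?_, ?_⟩
  · intro α h
    rw [coeff_C] at h
    have : α = 0 := by
      by_contra h1
      rw [if_neg (Ne.symm h1)] at h
      exact h rfl
    rw [this]; simp
  · have : Tr b (MvPolynomial.C c) - MvPolynomial.C c = 0 := by simp [Tr]
    rw [this]; exact Lo.zero _ _
  · have : Tr b (MvPolynomial.C c) - MvPolynomial.C c - Dd b (MvPolynomial.C c) = 0 := by
      simp [Tr, Dd]
    rw [this]; exact Lo.zero _ _

theorem Dd_X {N : ℕ} (b : Fin N → ℂ) (j : Fin N) : Dd b (X j) = C (b j) := by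
  classical
  unfold Dd
  rw [Finset.sum_eq_single j]
  · simp
  · intro i _ hi
    rw [pderiv_X_of_ne (Ne.symm hi), mul_zero]
  · intro h; exact absurd (Finset.mem_univ _) h

theorem MM.X {N : ℕ} {b : Fin N → ℂ} (j : Fin N) : MM b (MvPolynomial.X j) 1 := by
  refine ⟨?_, ?_, ?_⟩
  · intro α h
    classical
    rw [coeff_X] at h
    have : Finsupp.single j 1 = α := by
      by_contra h1
      rw [if_neg h1] at h
      exact h rfl
    rw [← this]; simp
  · have : Tr b (MvPolynomial.X j) - MvPolynomial.X j = MvPolynomial.C (b j) := by simp [Tr]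
    rw [this]; exact (MM.C (b := b) (b j)).a0.mono (by omega)
  · have : Tr b (MvPolynomial.X j) - MvPolynomial.X j - Dd b (MvPolynomial.X j) = 0 := by
      rw [Dd_X]; simp [Tr]
    rw [this]; exact Lo.zero _ _

theorem MM.pow {N : ℕ} {b : Fin N → ℂ} (j : Fin N) (n : ℕ) : MM b (MvPolynomial.X j ^ n) n := by
  induction n with
  | zero => simpa using MM.C (b := b) 1
  | succ n ih => rw [pow_succ]; exact ih.mul (MM.X j)

theorem MM.prod {N : ℕ} {b : Fin N → ℂ} (s : Finset (Fin N)) (α : Fin N → ℕ) :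
    MM b (∏ j ∈ s, MvPolynomial.X j ^ α j) (∑ j ∈ s, α j) := by
  classical
  induction s using Finset.induction_on with
  | empty => simpa using MM.C (b := b) 1
  | insert i s his ih =>
    rw [Finset.prod_insert his, Finset.sum_insert his]
    exact (MM.pow i _).mul ih

theorem MM.of_Lo {N : ℕ} (b : Fin N → ℂ) (p : MvPolynomial (Fin N) ℂ) (k : ℕ) (hp : Lo 0 k p) :
    MM b p k := by
  classical
  rw [p.as_sum]
  have key : ∀ s : Finset (Fin N →₀ ℕ), s ⊆ p.support → MM b (∑ α ∈ s, monomial α (coeff α p)) k := by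
    intro s
    induction s using Finset.induction_on with
    | empty => intro _; simpa using MM.zero
    | insert α s his ih =>
      intro hs
      rw [Finset.sum_insert his]
      refine MM.add ?_ (ih fun x hx => hs (Finset.mem_insert_of_mem hx))
      have hα := hp α (mem_support_iff.1 (hs (Finset.mem_insert_self α s)))
      have h1 : MM b (monomial α (coeff α p)) (0 + ∑ j ∈ α.support, α j) := by
        rw [monomial_eq]
        exact (MM.C _).mul (MM.prod α.support α)
      refine h1.mono ?_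
      have : α.degree = ∑ j ∈ α.support, α j := rfl
      omega
  exact key _ (Finset.Subset.refl _)

/-- a linear functional -/
def LF {N : ℕ} (c : (Fin N →₀ ℕ) → ℂ) (p : MvPolynomial (Fin N) ℂ) : ℂ :=
  ∑ α ∈ p.support, c α * coeff α p

theorem LF_eq {N : ℕ} (c : (Fin N →₀ ℕ) → ℂ) (p : MvPolynomial (Fin N) ℂ)
    (S : Finset (Fin N →₀ ℕ)) (h : p.support ⊆ S) : LF c p = ∑ α ∈ S, c α * coeff α p := by
  unfold LF
  refine Finset.sum_subset h fun α _ hα => ?_
  rw [notMem_support_iff.1 hα, mul_zero]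

theorem LF_add {N : ℕ} (c : (Fin N →₀ ℕ) → ℂ) (p q : MvPolynomial (Fin N) ℂ) :
    LF c (p + q) = LF c p + LF c q := by
  classical
  rw [LF_eq c (p + q) (p.support ∪ q.support) support_add,
    LF_eq c p (p.support ∪ q.support) Finset.subset_union_left,
    LF_eq c q (p.support ∪ q.support) Finset.subset_union_right, ← Finset.sum_add_distrib]
  refine Finset.sum_congr rfl fun α _ => ?_
  rw [coeff_add, mul_add]

theorem LF_C_mul {N : ℕ} (c : (Fin N →₀ ℕ) → ℂ) (x : ℂ) (p : MvPolynomial (Fin N) ℂ) :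
    LF c (C x * p) = x * LF c p := by
  classical
  rw [LF_eq c (C x * p) p.support, LF, Finset.mul_sum]
  · refine Finset.sum_congr rfl fun α _ => ?_
    rw [coeff_C_mul]; ring
  · intro α hα
    rw [mem_support_iff, coeff_C_mul] at hα
    exact mem_support_iff.2 (right_ne_zero_of_mul hα)

theorem LF_zero {N : ℕ} (c : (Fin N →₀ ℕ) → ℂ) : LF c 0 = 0 := by simp [LF]

theorem LF_sum {N : ℕ} {ι : Type*} (c : (Fin N →₀ ℕ) → ℂ) (s : Finset ι)
    (p : ι → MvPolynomial (Fin N) ℂ) : LF c (∑ i ∈ s, p i) = ∑ i ∈ s, LF c (p i) := by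
  classical
  induction s using Finset.induction_on with
  | empty => simpa using LF_zero c
  | insert i s his ih => rw [Finset.sum_insert his, Finset.sum_insert his, LF_add, ih]

theorem LF_low {N d : ℕ} (c : (Fin N →₀ ℕ) → ℂ) (hd : 2 ≤ d)
    (hc : ∀ α, c α ≠ 0 → α.degree = d - 1) (p : MvPolynomial (Fin N) ℂ) (hp : Lo 2 d p) :
    LF c p = 0 := by
  unfold LF
  refine Finset.sum_eq_zero fun α hα => ?_
  by_cases h : c α = 0
  · rw [h, zero_mul]
  · have h1 := hc α h
    have h2 := hp α (mem_support_iff.1 hα)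
    omega

theorem translate {N d : ℕ} (hd : 2 ≤ d) (K₀ : Subfield ℂ) (g : PMap N K₀)
    (hgh : ∀ i, (g i).IsHomogeneous d)
    (a : Fin N → Fin N → (Fin N →₀ ℕ) → K₀) (ha : ∀ l i α, a l i α ≠ 0 → α.degree = d - 1)
    (ha' : ∀ l j, Lam a (RingHom.id K₀) (fun i => pderiv j (g i)) l = if l = j then 1 else 0)
    (f : PMap N ℂ) (hf : HasTop d f (mapc K₀.subtype g)) :
    ∃ f' : PMap N ℂ, AffConj f f' ∧ HasTop d f' (mapc K₀.subtype g) ∧
      ∀ l, Lam a K₀.subtype f' l = 0 := by
  classical
  obtain ⟨b, hb⟩ : ∃ b : Fin N → ℂ, b = fun l => - Lam a K₀.subtype f l := ⟨_, rfl⟩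
  have hneg : ∀ i, (C (- b i) : MvPolynomial (Fin N) ℂ) = - C (b i) := fun i => map_neg C _
  set G := mapc K₀.subtype g with hG
  have hLam : ∀ (p : PMap N ℂ) l, Lam a K₀.subtype p l
      = ∑ i, LF (fun α => K₀.subtype (a l i α)) (p i) := fun p l => rfl
  have hc : ∀ l i α, K₀.subtype (a l i α) ≠ 0 → α.degree = d - 1 := by
    intro l i α h
    refine ha l i α fun h1 => h ?_
    rw [h1, map_zero]
  have hGlo : ∀ i, Lo 0 d (G i) := by
    intro i α h
    by_contra h1
    exact h ((hf i).1.coeff_eq_zero (by omega))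
  have hdlo : ∀ i, Lo 0 (d - 1) (f i - G i) := by
    intro i α h
    have h1 := le_totalDegree (mem_support_iff.2 h)
    have h2 := (hf i).2
    have h3 : α.degree = α.sum fun _ e => e := rfl
    omega
  have hGM : ∀ i, MM b (G i) d := fun i => MM.of_Lo b _ d (hGlo i)
  have hqM : ∀ i, MM b (f i - G i) (d - 1) := fun i => MM.of_Lo b _ (d - 1) (hdlo i)
  refine ⟨fun i => Tr b (f i) - C (b i), ?_, ?_, ?_⟩
  · refine ⟨AffineEquiv.constVAdd ℂ (Fin N → ℂ) b, fun z => ?_⟩
    funext i
    have h1 : ∀ p : MvPolynomial (Fin N) ℂ, eval z (Tr b p) = eval (b + z) p := by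
      intro p
      induction p using MvPolynomial.induction_on with
      | C c => simp [Tr]
      | add p q hp hq => simp only [map_add, hp, hq]
      | mul_X p j hp =>
        simp only [map_mul, hp, eval_X]
        simp [Tr, add_comm]
    simp only [ev, map_sub, eval_C, h1]
    rw [AffineEquiv.constVAdd_symm]
    simp only [AffineEquiv.constVAdd_apply, vadd_eq_add, Pi.add_apply, Pi.neg_apply]
    show eval (b + z) (f i) - b i = - b i + eval (b + z) (f i)
    ring
  · intro i
    refine ⟨(hf i).1, ?_⟩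
    have h1 : Tr b (f i) - C (b i) - G i
        = (Tr b (G i) - G i) + (Tr b (f i - G i) - (f i - G i)) + (f i - G i) + C (- b i) := by
      rw [map_sub, hneg]; ring
    have h2 : Lo 1 d (Tr b (f i) - C (b i) - G i) := by
      rw [h1]
      exact (((hGM i).a1.add ((hqM i).a1.mono (by omega))).add ((hdlo i).mono (by omega))).add
        ((MM.C (b := b) (- b i)).a0.mono (by omega))
    rw [totalDegree, Finset.sup_lt_iff (by simp only [bot_eq_zero']; omega)]
    intro α hα
    have h3 := h2 α (mem_support_iff.1 hα)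
    have h4 : α.degree = α.sum fun _ e => e := rfl
    omega
  · intro l
    rw [hLam]
    have h1 : ∀ i, LF (fun α => K₀.subtype (a l i α)) (Tr b (f i) - C (b i))
        = LF (fun α => K₀.subtype (a l i α)) (f i)
          + ∑ j, b j * LF (fun α => K₀.subtype (a l i α)) (pderiv j (G i)) := by
      intro i
      have e1 : Tr b (f i) - C (b i) = (f i + Dd b (G i)) + ((Tr b (G i) - G i - Dd b (G i))
          + (Tr b (f i - G i) - (f i - G i)) + C (- b i)) := by
        rw [map_sub, hneg]; ring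
      have e2 : Lo 2 d ((Tr b (G i) - G i - Dd b (G i))
          + (Tr b (f i - G i) - (f i - G i)) + C (- b i)) :=
        ((hGM i).a2.add ((hqM i).a1.mono (by omega))).add
          ((MM.C (b := b) (- b i)).a0.mono (by omega))
      rw [e1, LF_add, LF_low _ hd (hc l i) _ e2, add_zero, LF_add]
      congr 1
      rw [Dd, LF_sum]
      exact Finset.sum_congr rfl fun j _ => LF_C_mul _ _ _
    rw [Finset.sum_congr rfl fun i _ => h1 i, Finset.sum_add_distrib, Finset.sum_comm]
    have h2 : ∀ j, ∑ i, b j * LF (fun α => K₀.subtype (a l i α)) (pderiv j (G i))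
        = b j * (if l = j then 1 else 0) := by
      intro j
      rw [← Finset.mul_sum]
      congr 1
      have h3 := congrArg K₀.subtype (ha' l j)
      rw [Lam, map_sum] at h3
      have h4 : K₀.subtype (if l = j then 1 else 0) = if l = j then 1 else 0 := by
        split_ifs <;> simp
      rw [h4] at h3
      rw [← h3]
      refine Finset.sum_congr rfl fun i _ => ?_
      have h5 : pderiv j (G i) = MvPolynomial.map K₀.subtype (pderiv j (g i)) := by
        rw [hG]; exact pderiv_map
      rw [h5, LF_eq _ _ (pderiv j (g i)).support (support_map_subset _ _), map_sum]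
      refine Finset.sum_congr rfl fun α _ => ?_
      rw [map_mul, coeff_map]; rfl
    rw [Finset.sum_congr rfl fun j _ => h2 j, ← hLam]
    simp [hb]

end

end PCFib
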